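import Mathlib

/-!
# MP_8b87c2_co: definitions

`ud A` = number of ordered pairs of points of `A` at distance 1 (twice the number of unit
distances); `Extremal n A`; `Congruent A B`; `NOne n`, `NInfinite n`: the statements `N(n) = 1`
and `N(n) = infinity`.
-/

set_option autoImplicit false
open Classical

namespace Pool.Agent.Lib.MP8b87c2

/-- number of ordered pairs of distinct points of `A` at distance exactly 1
(twice the number of unit distances) -/
noncomputable def ud {X : Type*} [MetricSpace X] (A : Finset X) : ℕ :=
  (Finset.filter (fun p => dist p.1 p.2 = 1) A.offDiag).card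

/-- `A` is an `n`-point set with the largest number of unit distances among all `n`-point sets -/
def Extremal {X : Type*} [MetricSpace X] (n : ℕ) (A : Finset X) : Prop :=
  A.card = n ∧ ∀ T : Finset X, T.card = n → ud T ≤ ud A

/-- some isometry of the space maps `A` onto `B` -/
def Congruent {X : Type*} [MetricSpace X] (A B : Finset X) : Prop :=
  ∃ f : X ≃ᵢ X, A.image f = B

/-- there is exactly one congruence class of extremal `n`-point sets -/
def NOne (X : Type*) [MetricSpace X] (n : ℕ) : Prop :=
  (∃ A : Finset X, Extremal n A) ∧ ∀ A B : Finset X, Extremal n A → Extremal n B → Congruent A B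

/-- there are infinitely many congruence classes of extremal `n`-point sets -/
def NInfinite (X : Type*) [MetricSpace X] (n : ℕ) : Prop :=
  ∃ F : ℕ → Finset X, (∀ i, Extremal n (F i)) ∧ ∀ i j, i ≠ j → ¬ Congruent (F i) (F j)

end Pool.Agent.Lib.MP8b87c2
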