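import Pool.Agent.Lib.MP_8b87c2_co.Geo

/-!
# Certified enumeration of dense unit distance graphs

A graph on `k` vertices is a list of `k` masks; bit `j < i` of mask `i` is the edge `{j,i}`.
-/

set_option autoImplicit false

namespace Pool.Agent.Lib.MP8b87c2

def adjB (c : List ℕ) (i j : ℕ) : Bool :=
  if j < i then (c.getD i 0).testBit j else if i < j then (c.getD j 0).testBit i else false

theorem adjB_comm (c : List ℕ) (i j : ℕ) : adjB c i j = adjB c j i := by
  unfold adjB
  rcases lt_trichotomy i j with h | h | h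
  · rw [if_neg (by omega), if_pos h, if_pos h]
  · subst h; rfl
  · rw [if_pos h, if_neg (by omega), if_pos h]

theorem adjB_self (c : List ℕ) (i : ℕ) : adjB c i i = false := by
  unfold adjB; simp

/-- `p 0, .., p (k-1)` are distinct and their unit distance graph is exactly `c` -/
def Realize (k : ℕ) (c : List ℕ) (p : ℕ → ℂ) : Prop :=
  (∀ i j, i < k → j < k → p i = p j → i = j) ∧
  ∀ i j, i < k → j < k → i ≠ j → (adjB c i j = true ↔ dist (p i) (p j) = 1)

open Classical in
/-- every `k`-set with at least `f` unit distances has one of the graphs of the list `L` -/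
def H (k f : ℕ) (L : List (List ℕ × ℕ)) : Prop :=
  ∀ A : Finset ℂ, A.card = k → 2 * f ≤ ud A →
    ∃ g ∈ L, ∃ p : ℕ → ℂ, Realize k g.1 p ∧ A = (Finset.range k).image p ∧ ud A = 2 * g.2

def pop (k m : ℕ) : ℕ := ((List.range k).filter (fun i => m.testBit i)).length

theorem pop_eq (k m : ℕ) : pop k m = ((Finset.range k).filter (fun i => m.testBit i = true)).card := by
  unfold pop
  rw [Finset.card_def, Finset.filter_val]
  simp only [Finset.range_val, Multiset.range]
  rw [Multiset.filter_coe, Multiset.coe_card]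
  congr 1
  apply List.filter_congr
  intro x _
  simp

open Classical in
theorem exists_mask (k : ℕ) (q : ℕ → Prop) :
    ∃ N, N < 2 ^ k ∧ ∀ i, i < k → (N.testBit i = true ↔ q i) := by
  induction k with
  | zero => exact ⟨0, by norm_num, by intro i hi; omega⟩
  | succ k ih =>
    obtain ⟨N, hN, hq⟩ := ih
    by_cases h : q k
    · refine ⟨2 ^ k + N, by rw [pow_succ]; omega, ?_⟩
      intro i hi
      rcases Nat.lt_succ_iff_lt_or_eq.mp hi with h1 | h1
      · rw [Nat.testBit_two_pow_add_gt h1]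
        exact hq i h1
      · subst h1
        rw [Nat.testBit_two_pow_add_eq, Nat.testBit_lt_two_pow hN]
        simp [h]
    · refine ⟨N, by rw [pow_succ]; omega, ?_⟩
      intro i hi
      rcases Nat.lt_succ_iff_lt_or_eq.mp hi with h1 | h1
      · exact hq i h1
      · subst h1
        rw [Nat.testBit_lt_two_pow hN]
        simp [h]

inductive Wit where
  | perm (s c' : List ℕ) (e' : ℕ)
  | k4 (a b x y : ℕ)
  | coin (i j : ℕ) (R : List (ℤ × ℕ × ℕ × ℕ × ℕ)) (M : ℤ)
  | eqd (i j a b : ℕ) (R : List (ℤ × ℕ × ℕ × ℕ × ℕ)) (M : ℤ)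
  | dbl (i j a b : ℕ) (R : List (ℤ × ℕ × ℕ × ℕ × ℕ)) (M : ℤ)

def dl (s i : ℕ) : ℤ := if s = i then 1 else 0

/-- coefficient of `p s` in the combination of rhombus relations -/
def cf : List (ℤ × ℕ × ℕ × ℕ × ℕ) → ℕ → ℤ
  | [], _ => 0
  | (t, a, b, x, y) :: R, s => t * (dl s a + dl s b - dl s x - dl s y) + cf R s

def relOK (n : ℕ) (c : List ℕ) : List (ℤ × ℕ × ℕ × ℕ × ℕ) → Bool
  | [] => true
  | (_, a, b, x, y) :: R =>
    (decide (a < n) && decide (b < n) && decide (x < n) && decide (y < n) && decide (a ≠ b) &&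
      decide (x ≠ y) && decide (a ≠ x) && decide (a ≠ y) && decide (b ≠ x) && decide (b ≠ y) &&
      adjB c a x && adjB c a y && adjB c b x && adjB c b y) && relOK n c R

theorem sum_dl (n i : ℕ) (hi : i < n) (p : ℕ → ℂ) :
    ∑ s ∈ Finset.range n, ((dl s i : ℤ) : ℂ) * p s = p i := by
  unfold dl
  rw [Finset.sum_eq_single i]
  · simp
  · intro b _ hb
    simp [hb]
  · intro h
    exact absurd (Finset.mem_range.mpr hi) h

theorem rel_sound (n : ℕ) (c : List ℕ) (p : ℕ → ℂ) (hp : Realize n c p)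
    (R : List (ℤ × ℕ × ℕ × ℕ × ℕ)) (hR : relOK n c R = true) :
    ∑ s ∈ Finset.range n, ((cf R s : ℤ) : ℂ) * p s = 0 := by
  induction R with
  | nil => simp [cf]
  | cons r R ih =>
    obtain ⟨t, a, b, x, y⟩ := r
    simp only [relOK, Bool.and_eq_true, decide_eq_true_eq] at hR
    obtain ⟨⟨⟨⟨⟨⟨⟨⟨⟨⟨⟨⟨⟨⟨ha, hb⟩, hx⟩, hy⟩, hab⟩, hxy⟩, hax⟩, hay⟩, hbx⟩, hby⟩, e1⟩, e2⟩, e3⟩, e4⟩, hR⟩ := hR
    have h0 := ih hR
    have hrh : p a + p b - p x - p y = 0 := by
      refine rhombus (fun h => hab (hp.1 a b ha hb h)) (fun h => hxy (hp.1 x y hx hy h))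
        ((hp.2 a x ha hx hax).mp e1) ((hp.2 a y ha hy hay).mp e2)
        ((hp.2 b x hb hx hbx).mp e3) ((hp.2 b y hb hy hby).mp e4)
    have hsplit : ∀ s ∈ Finset.range n, ((cf ((t, a, b, x, y) :: R) s : ℤ) : ℂ) * p s
        = (t : ℂ) * (((dl s a : ℤ) : ℂ) * p s + ((dl s b : ℤ) : ℂ) * p s
          - ((dl s x : ℤ) : ℂ) * p s - ((dl s y : ℤ) : ℂ) * p s) + ((cf R s : ℤ) : ℂ) * p s := by
      intro s _
      simp only [cf]
      push_cast
      ring
    rw [Finset.sum_congr rfl hsplit, Finset.sum_add_distrib, h0, add_zero, ← Finset.mul_sum,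
      Finset.sum_sub_distrib, Finset.sum_sub_distrib, Finset.sum_add_distrib,
      sum_dl n a ha, sum_dl n b hb, sum_dl n x hx, sum_dl n y hy, hrh, mul_zero]

/-- `coefficient list check`: the combination `R` equals `M` times the target -/
def cmb (n : ℕ) (R : List (ℤ × ℕ × ℕ × ℕ × ℕ)) (M : ℤ) (tg : ℕ → ℤ) : Bool :=
  decide (M ≠ 0) && (List.range n).all (fun s => decide (cf R s = M * tg s))

theorem cmb_sound (n : ℕ) (c : List ℕ) (p : ℕ → ℂ) (hp : Realize n c p)
    (R : List (ℤ × ℕ × ℕ × ℕ × ℕ)) (hR : relOK n c R = true) (M : ℤ) (tg : ℕ → ℤ)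
    (h : cmb n R M tg = true) :
    ∑ s ∈ Finset.range n, ((tg s : ℤ) : ℂ) * p s = 0 := by
  simp only [cmb, Bool.and_eq_true, decide_eq_true_eq, List.all_eq_true, List.mem_range] at h
  have h0 := rel_sound n c p hp R hR
  rw [Finset.sum_congr rfl (fun s hs => by rw [h.2 s (Finset.mem_range.mp hs)])] at h0
  have h1 : ∑ s ∈ Finset.range n, (((M * tg s : ℤ)) : ℂ) * p s
      = (M : ℂ) * ∑ s ∈ Finset.range n, ((tg s : ℤ) : ℂ) * p s := by
    rw [Finset.mul_sum]
    refine Finset.sum_congr rfl fun s _ => ?_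
    push_cast
    ring
  rw [h1] at h0
  rcases mul_eq_zero.mp h0 with h2 | h2
  · exact absurd (by exact_mod_cast h2) h.1
  · exact h2

/-- check of one witness for the graph `c` (already extended) on `n` vertices -/
def chkW (n : ℕ) (L' : List (List ℕ × ℕ)) (c : List ℕ) (e : ℕ) : Wit → Bool
  | .perm s c' e' =>
    L'.contains (c', e') && decide (e' = e) && decide (s.length = n) && decide s.Nodup &&
      s.all (fun i => decide (i < n)) &&
      (List.range n).all (fun i => (List.range i).all (fun j =>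
        adjB c (s.getD i 0) (s.getD j 0) == adjB c' i j))
  | .k4 a b x y =>
    decide (a < n) && decide (b < n) && decide (x < n) && decide (y < n) && decide (a ≠ b) &&
      decide (x ≠ y) && decide (a ≠ x) && decide (a ≠ y) && decide (b ≠ x) && decide (b ≠ y) &&
      adjB c a b && adjB c a x && adjB c a y && adjB c b x && adjB c b y && adjB c x y
  | .coin i j R M =>
    decide (i < n) && decide (j < n) && decide (i ≠ j) && relOK n c R &&
      cmb n R M (fun s => dl s i - dl s j)
  | .eqd i j a b R M =>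
    decide (i < n) && decide (j < n) && decide (a < n) && decide (b < n) && decide (i ≠ j) &&
      decide (a ≠ b) && (!adjB c i j) && adjB c a b && relOK n c R &&
      cmb n R M (fun s => dl s i - dl s j - dl s a + dl s b)
  | .dbl i j a b R M =>
    decide (i < n) && decide (j < n) && decide (a < n) && decide (b < n) && decide (i ≠ j) &&
      decide (a ≠ b) && adjB c i j && adjB c a b && relOK n c R &&
      cmb n R M (fun s => dl s i - dl s j - 2 * dl s a + 2 * dl s b)

open Classical in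
theorem chkW_sound (n : ℕ) (L' : List (List ℕ × ℕ)) (c : List ℕ) (e : ℕ) (w : Wit)
    (h : chkW n L' c e w = true) (p : ℕ → ℂ) (hp : Realize n c p) :
    ∃ c', (c', e) ∈ L' ∧ ∃ p', Realize n c' p' ∧
      (Finset.range n).image p' = (Finset.range n).image p := by
  cases w with
  | perm s c' e' =>
    simp only [chkW, Bool.and_eq_true, decide_eq_true_eq, List.all_eq_true, List.mem_range,
      List.contains_eq_mem, beq_iff_eq] at h
    obtain ⟨⟨⟨⟨⟨hm, he⟩, hlen⟩, hnd⟩, hlt⟩, hadj⟩ := h
    subst he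
    have hs : ∀ i, i < n → s.getD i 0 < n := by
      intro i hi
      rw [List.getD_eq_getElem _ _ (by omega)]
      exact hlt _ (List.getElem_mem _)
    have hinj : ∀ i j, i < n → j < n → s.getD i 0 = s.getD j 0 → i = j := by
      intro i j hi hj hij
      rw [List.getD_eq_getElem _ _ (by omega), List.getD_eq_getElem _ _ (by omega)] at hij
      exact (List.Nodup.getElem_inj_iff hnd).mp hij
    refine ⟨c', hm, fun i => p (s.getD i 0), ⟨?_, ?_⟩, ?_⟩
    · intro i j hi hj hij
      exact hinj i j hi hj (hp.1 _ _ (hs i hi) (hs j hj) hij)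
    · intro i j hi hj hij
      have hne : s.getD i 0 ≠ s.getD j 0 := fun h => hij (hinj i j hi hj h)
      rw [← hp.2 _ _ (hs i hi) (hs j hj) hne]
      rcases lt_or_gt_of_ne hij with h1 | h1
      · rw [adjB_comm c', adjB_comm c, hadj j hj i h1]
      · rw [hadj i hi j h1]
    · have hsub : (Finset.range n).image (fun i => s.getD i 0) ⊆ Finset.range n := by
        intro x hx
        obtain ⟨i, hi, rfl⟩ := Finset.mem_image.mp hx
        exact Finset.mem_range.mpr (hs i (Finset.mem_range.mp hi))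
      have hcard : ((Finset.range n).image (fun i => s.getD i 0)).card = (Finset.range n).card := by
        apply Finset.card_image_of_injOn
        intro i hi j hj hij
        exact hinj i j (by simpa using hi) (by simpa using hj) hij
      have heq := Finset.eq_of_subset_of_card_le hsub hcard.ge
      conv_rhs => rw [← heq]
      rw [Finset.image_image]
      rfl
  | k4 a b x y =>
    exfalso
    simp only [chkW, Bool.and_eq_true, decide_eq_true_eq] at h
    obtain ⟨⟨⟨⟨⟨⟨⟨⟨⟨⟨⟨⟨⟨⟨⟨ha, hb⟩, hx⟩, hy⟩, hab⟩, hxy⟩, hax⟩, hay⟩, hbx⟩, hby⟩, e0⟩, e1⟩, e2⟩, e3⟩, e4⟩, e5⟩ := h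
    exact noK4 (fun h => hab (hp.1 a b ha hb h)) (fun h => hxy (hp.1 x y hx hy h))
      ((hp.2 a b ha hb hab).mp e0) ((hp.2 a x ha hx hax).mp e1) ((hp.2 a y ha hy hay).mp e2)
      ((hp.2 b x hb hx hbx).mp e3) ((hp.2 b y hb hy hby).mp e4) ((hp.2 x y hx hy hxy).mp e5)
  | coin i j R M =>
    exfalso
    simp only [chkW, Bool.and_eq_true, decide_eq_true_eq] at h
    obtain ⟨⟨⟨⟨hi, hj⟩, hij⟩, hR⟩, hc⟩ := h
    have h0 := cmb_sound n c p hp R hR M _ hc
    have h1 : p i - p j = 0 := by
      rw [← h0, ← sum_dl n i hi p, ← sum_dl n j hj p, ← Finset.sum_sub_distrib]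
      refine Finset.sum_congr rfl fun s _ => ?_
      push_cast
      ring
    exact hij (hp.1 i j hi hj (sub_eq_zero.mp h1))
  | eqd i j a b R M =>
    exfalso
    simp only [chkW, Bool.and_eq_true, decide_eq_true_eq, Bool.not_eq_true'] at h
    obtain ⟨⟨⟨⟨⟨⟨⟨⟨⟨hi, hj⟩, ha⟩, hb⟩, hij⟩, hab⟩, hn⟩, e1⟩, hR⟩, hc⟩ := h
    have h0 := cmb_sound n c p hp R hR M _ hc
    have h1 : p i - p j - p a + p b = 0 := by
      rw [← h0]
      conv_lhs => rw [← sum_dl n i hi p, ← sum_dl n j hj p, ← sum_dl n a ha p, ← sum_dl n b hb p]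
      rw [← Finset.sum_sub_distrib, ← Finset.sum_sub_distrib, ← Finset.sum_add_distrib]
      refine Finset.sum_congr rfl fun s _ => ?_
      push_cast
      ring
    have h2 : dist (p i) (p j) = 1 := by
      rw [dist_eq_norm, show p i - p j = p a - p b by linear_combination h1, ← dist_eq_norm]
      exact (hp.2 a b ha hb hab).mp e1
    have := (hp.2 i j hi hj hij).mpr h2
    rw [hn] at this
    exact absurd this (by simp)
  | dbl i j a b R M =>
    exfalso
    simp only [chkW, Bool.and_eq_true, decide_eq_true_eq] at h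
    obtain ⟨⟨⟨⟨⟨⟨⟨⟨⟨hi, hj⟩, ha⟩, hb⟩, hij⟩, hab⟩, e0⟩, e1⟩, hR⟩, hc⟩ := h
    have h0 := cmb_sound n c p hp R hR M _ hc
    have h1 : p i - p j - 2 * p a + 2 * p b = 0 := by
      rw [← h0]
      conv_lhs => rw [← sum_dl n i hi p, ← sum_dl n j hj p, ← sum_dl n a ha p, ← sum_dl n b hb p]
      rw [Finset.mul_sum, Finset.mul_sum, ← Finset.sum_sub_distrib, ← Finset.sum_sub_distrib,
        ← Finset.sum_add_distrib]
      refine Finset.sum_congr rfl fun s _ => ?_
      push_cast
      ring
    have h2 := (hp.2 i j hi hj hij).mp e0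
    have h3 := (hp.2 a b ha hb hab).mp e1
    rw [dist_eq_norm] at h2 h3
    rw [show p i - p j = 2 * (p a - p b) by linear_combination h1, norm_mul, h3] at h2
    norm_num at h2

end Pool.Agent.Lib.MP8b87c2
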