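import Pool.Agent.Lib.MP_8b87c2_co.Geo

/-! # Flexible extremal sets give infinitely many congruence classes -/

set_option autoImplicit false
open Classical

namespace Pool.Agent.Lib.MP8b87c2

theorem congruent_symm {X : Type*} [MetricSpace X] {A B : Finset X} (h : Congruent A B) :
    Congruent B A := by
  obtain ⟨f, rfl⟩ := h
  refine ⟨f.symm, ?_⟩
  rw [Finset.image_image]
  have : (⇑f.symm ∘ ⇑f) = id := by
    funext x
    simp
  rw [this, Finset.image_id]

theorem congruent_trans {X : Type*} [MetricSpace X] {A B C : Finset X} (h : Congruent A B)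
    (h' : Congruent B C) : Congruent A C := by
  obtain ⟨f, rfl⟩ := h
  obtain ⟨g, rfl⟩ := h'
  refine ⟨f.trans g, ?_⟩
  rw [Finset.image_image]
  rfl

/-- unit vector with real part `r` -/
noncomputable def wv (r : ℝ) : ℂ := ⟨r, Real.sqrt (1 - r ^ 2)⟩

theorem wv_normSq (r : ℝ) (h : r ∈ Set.Ioo (-1 : ℝ) 1) : Complex.normSq (wv r) = 1 := by
  rw [Complex.normSq_apply]
  simp only [wv]
  rw [Real.mul_self_sqrt (by nlinarith [h.1, h.2])]
  ring

theorem wv_norm (r : ℝ) (h : r ∈ Set.Ioo (-1 : ℝ) 1) : ‖wv r‖ = 1 := by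
  have h1 := wv_normSq r h
  rw [Complex.normSq_eq_norm_sq] at h1
  nlinarith [norm_nonneg (wv r)]

theorem card_le_ud {ι : Type*} (S : Finset ι) (f : ι → ℂ) (Pp : Finset (ι × ι))
    (hPS : ∀ q ∈ Pp, q.1 ∈ S ∧ q.2 ∈ S) (hinj : Set.InjOn f S)
    (hP : ∀ q ∈ Pp, dist (f q.1) (f q.2) = 1) : Pp.card ≤ ud (S.image f) := by
  unfold ud
  refine Finset.card_le_card_of_injOn (fun q => (f q.1, f q.2)) ?_ ?_
  · intro q hq
    have hq' : q ∈ Pp := hq
    have h1 := hPS q hq'
    have h2 := hP q hq'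
    simp only [Finset.coe_filter, Finset.mem_offDiag, Set.mem_ofPred_eq]
    refine ⟨⟨Finset.mem_image_of_mem _ h1.1, Finset.mem_image_of_mem _ h1.2, ?_⟩, h2⟩
    intro h
    rw [h, dist_self] at h2
    norm_num at h2
  · intro q hq q' hq' h
    have h1 := hPS q hq
    have h2 := hPS q' hq'
    simp only [Prod.mk.injEq] at h
    exact Prod.ext (hinj h1.1 h2.1 h.1) (hinj h1.2 h2.2 h.2)

theorem flexCore {ι : Type*} (S : Finset ι) (x y : ι → ℂ) (Pp : Finset (ι × ι))
    (hPS : ∀ q ∈ Pp, q.1 ∈ S ∧ q.2 ∈ S)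
    (hP : ∀ q ∈ Pp, dist (x q.1 + y q.1) (x q.2 + y q.2) = 1 ∧ (x q.1 = x q.2 ∨ y q.1 = y q.2))
    (hU : ∀ T : Finset ℂ, T.card = S.card → ud T ≤ Pp.card)
    (hinj : ∀ i ∈ S, ∀ j ∈ S, x i = x j → y i = y j → i = j)
    (i0 j0 : ι) (hi0 : i0 ∈ S) (hj0 : j0 ∈ S) (hx : x i0 ≠ x j0) (hy : y i0 ≠ y j0) :
    NInfinite ℂ S.card := by
  set X : ℂ := x i0 - x j0 with hX
  set Y : ℂ := y i0 - y j0 with hY
  have hX0 : X ≠ 0 := sub_ne_zero.mpr hx
  have hY0 : Y ≠ 0 := sub_ne_zero.mpr hy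
  set κ : ℂ := (starRingEnd ℂ) X * Y with hκ
  have hκ0 : κ ≠ 0 := mul_ne_zero ((map_ne_zero _).mpr hX0) hY0
  have hκn : (0 : ℝ) < ‖κ‖ := norm_pos_iff.mpr hκ0
  set c0 : ℂ := (starRingEnd ℂ) κ / (‖κ‖ : ℂ) with hc0
  have hκc : (‖κ‖ : ℂ) ≠ 0 := by exact_mod_cast hκn.ne'
  have hc0n : ‖c0‖ = 1 := by
    rw [hc0, norm_div, Complex.norm_conj, Complex.norm_real, norm_norm, div_self hκn.ne']
  have hc00 : c0 ≠ 0 := by
    intro h
    rw [h, norm_zero] at hc0n
    norm_num at hc0n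
  have hc0κ : c0 * κ = (‖κ‖ : ℂ) := by
    rw [hc0, div_mul_eq_mul_div, mul_comm, Complex.mul_conj, Complex.normSq_eq_norm_sq]
    push_cast
    field_simp
  let f : ℝ → ι → ℂ := fun r i => x i + wv r * c0 * y i
  let A : ℝ → Finset ℂ := fun r => S.image (f r)
  let D : ℝ → ℝ := fun r => Complex.normSq (X + wv r * c0 * Y)
  have hD : ∀ r, r ∈ Set.Ioo (-1 : ℝ) 1 →
      D r = Complex.normSq X + Complex.normSq Y + 2 * (‖κ‖ * r) := by
    intro r hr
    simp only [D]
    rw [Complex.normSq_add, Complex.normSq_mul, Complex.normSq_mul, wv_normSq r hr,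
      Complex.normSq_eq_norm_sq c0, hc0n]
    have h1 : (X * (starRingEnd ℂ) (wv r * c0 * Y)).re = ‖κ‖ * r := by
      have h2 : X * (starRingEnd ℂ) (wv r * c0 * Y)
          = (starRingEnd ℂ) (wv r * (c0 * κ)) := by
        rw [hκ]
        simp only [map_mul, Complex.conj_conj]
        ring
      rw [h2, hc0κ, Complex.conj_re, Complex.re_mul_ofReal]
      simp only [wv]
      ring
    rw [h1]
    ring
  -- bad values of r
  let badR : Finset ℝ := (S ×ˢ S).image
    (fun q => ((-(x q.1 - x q.2) / (y q.1 - y q.2)) * c0⁻¹).re)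
  have hinjf : ∀ r, r ∉ badR → Set.InjOn (f r) S := by
    intro r hr i hi j hj hij
    by_contra hne
    have hi' : i ∈ S := hi
    have hj' : j ∈ S := hj
    have h1 : (x i - x j) + wv r * c0 * (y i - y j) = 0 := by
      have : x i + wv r * c0 * y i = x j + wv r * c0 * y j := hij
      linear_combination this
    by_cases hyy : y i = y j
    · rw [hyy, sub_self, mul_zero, add_zero] at h1
      exact hne (hinj i hi' j hj' (sub_eq_zero.mp h1) hyy)
    · have hy' : y i - y j ≠ 0 := sub_ne_zero.mpr hyy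
      apply hr
      refine Finset.mem_image.mpr ⟨(i, j), Finset.mem_product.mpr ⟨hi', hj'⟩, ?_⟩
      have h2 : (-(x i - x j) / (y i - y j)) * c0⁻¹ = wv r := by
        field_simp
        linear_combination -h1
      simp only
      rw [h2]
      rfl
  have hext : ∀ r, r ∈ Set.Ioo (-1 : ℝ) 1 → r ∉ badR → Extremal S.card (A r) := by
    intro r hr hb
    have hi := hinjf r hb
    refine ⟨Finset.card_image_of_injOn hi, fun T hT => le_trans (hU T hT) ?_⟩
    refine card_le_ud S (f r) Pp hPS hi ?_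
    intro q hq
    obtain ⟨h1, h2⟩ := hP q hq
    rw [dist_eq_norm] at h1 ⊢
    rcases h2 with h2 | h2
    · have e1 : f r q.1 - f r q.2 = wv r * c0 * (y q.1 - y q.2) := by
        simp only [f]
        rw [h2]
        ring
      have e2 : x q.1 + y q.1 - (x q.2 + y q.2) = y q.1 - y q.2 := by
        rw [h2]
        ring
      rw [e2] at h1
      rw [e1, norm_mul, norm_mul, wv_norm r hr, hc0n, h1]
      norm_num
    · have e1 : f r q.1 - f r q.2 = x q.1 - x q.2 := by
        simp only [f]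
        rw [h2]
        ring
      have e2 : x q.1 + y q.1 - (x q.2 + y q.2) = x q.1 - x q.2 := by
        rw [h2]
        ring
      rw [e2] at h1
      rw [e1, h1]
  let DS : ℝ → Finset ℝ := fun r => (A r ×ˢ A r).image (fun p => dist p.1 p.2 ^ 2)
  have hDS : ∀ r, D r ∈ DS r := by
    intro r
    refine Finset.mem_image.mpr ⟨(f r i0, f r j0), Finset.mem_product.mpr
      ⟨Finset.mem_image_of_mem _ hi0, Finset.mem_image_of_mem _ hj0⟩, ?_⟩
    simp only [D, f]
    rw [dist_eq_norm, Complex.normSq_eq_norm_sq]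
    congr 2
    rw [hX, hY]
    ring
  have hnc : ∀ r s, D s ∉ DS r → ¬ Congruent (A r) (A s) := by
    rintro r s hrs ⟨g, hg⟩
    apply hrs
    obtain ⟨⟨a, b⟩, hab, hd⟩ := Finset.mem_image.mp (hDS s)
    obtain ⟨ha, hb⟩ := Finset.mem_product.mp hab
    rw [← hg] at ha hb
    obtain ⟨a', ha', rfl⟩ := Finset.mem_image.mp ha
    obtain ⟨b', hb', rfl⟩ := Finset.mem_image.mp hb
    refine Finset.mem_image.mpr ⟨(a', b'), Finset.mem_product.mpr ⟨ha', hb'⟩, ?_⟩
    rw [← hd]
    simp only [g.isometry.dist_eq]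
  obtain ⟨F, hF1, hF2⟩ := exists_seq_of_forall_finset_exists
    (fun r : ℝ => r ∈ Set.Ioo (-1 : ℝ) 1 ∧ r ∉ badR) (fun r s => D s ∉ DS r) (by
      intro s _
      have hfin : Set.Finite ((badR : Set ℝ) ∪ ⋃ r ∈ s,
          {t | t ∈ Set.Ioo (-1 : ℝ) 1 ∧ D t ∈ DS r}) := by
        refine Set.Finite.union (Finset.finite_toSet _) (Set.Finite.biUnion (Finset.finite_toSet s) ?_)
        intro r _
        refine Set.Finite.of_finite_image (f := D)
          (Set.Finite.subset (Finset.finite_toSet (DS r)) ?_) ?_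
        · rintro _ ⟨t, ht, rfl⟩
          exact ht.2
        · intro t ht t' ht' htt
          rw [hD t ht.1, hD t' ht'.1] at htt
          have : ‖κ‖ * t = ‖κ‖ * t' := by linarith
          exact mul_left_cancel₀ hκn.ne' this
      have hinf : (Set.Ioo (-1 : ℝ) 1).Infinite := Set.Ioo_infinite (by norm_num)
      obtain ⟨t, ht, ht'⟩ := (hinf.sdiff hfin).nonempty
      refine ⟨t, ⟨ht, fun h => ht' (Or.inl h)⟩, ?_⟩
      intro r hr h
      apply ht'
      right
      simp only [Set.mem_iUnion]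
      exact ⟨r, hr, ht, h⟩)
  refine ⟨fun i => A (F i), fun i => hext _ (hF1 i).1 (hF1 i).2, ?_⟩
  intro i j hij
  rcases lt_or_gt_of_ne hij with h | h
  · exact hnc _ _ (hF2 i j h)
  · exact fun hc => hnc _ _ (hF2 j i h) (congruent_symm hc)

end Pool.Agent.Lib.MP8b87c2
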