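import Pool.Agent.Lib.MP_8b87c2_co.Tab
import Pool.Agent.Lib.MP_8b87c2_co.Flex

/-! # Rigid small sets: fans of unit triangles -/

set_option autoImplicit false
open Classical

namespace Pool.Agent.Lib.MP8b87c2

/-- the sixth root of unity `1/2 + (sqrt 3 / 2) i` -/
noncomputable def ze : ℂ := ⟨1 / 2, Real.sqrt 3 / 2⟩

theorem ze_sq : ze ^ 2 = ze - 1 := by
  have h3 : Real.sqrt 3 * Real.sqrt 3 = 3 := Real.mul_self_sqrt (by norm_num)
  apply Complex.ext
  · simp only [ze, pow_two, Complex.mul_re, Complex.sub_re, Complex.one_re]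
    nlinarith
  · simp only [ze, pow_two, Complex.mul_im, Complex.sub_im, Complex.one_im]
    ring

theorem ze_norm : ‖ze‖ = 1 := by
  have h3 : Real.sqrt 3 * Real.sqrt 3 = 3 := Real.mul_self_sqrt (by norm_num)
  have h1 : Complex.normSq ze = 1 := by
    rw [Complex.normSq_apply]
    simp only [ze]
    nlinarith
  rw [Complex.normSq_eq_norm_sq] at h1
  nlinarith [norm_nonneg ze]

theorem ze_sub_norm : ‖ze - 1‖ = 1 := by
  rw [← ze_sq, norm_pow, ze_norm, one_pow]

theorem ze_im_pos : 0 < ze.im := by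
  simp only [ze]
  have := Real.sqrt_pos.mpr (show (0 : ℝ) < 3 by norm_num)
  linarith

theorem unit_pair {u w : ℂ} (hu : ‖u‖ = 1) (hw : ‖w‖ = 1) (huw : ‖w - u‖ = 1) :
    w = u * ze ∨ w = u * (starRingEnd ℂ) ze := by
  have hu0 : u ≠ 0 := by
    intro h
    rw [h, norm_zero] at hu
    norm_num at hu
  set q : ℂ := w / u with hq
  have hwq : w = u * q := by rw [hq]; field_simp
  have q1 : Complex.normSq q = 1 := by
    rw [hq, Complex.normSq_eq_norm_sq, norm_div, hu, hw]
    norm_num
  have q2 : Complex.normSq (q - 1) = 1 := by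
    have : q - 1 = (w - u) / u := by rw [hq]; field_simp
    rw [this, Complex.normSq_eq_norm_sq, norm_div, hu, huw]
    norm_num
  rw [Complex.normSq_apply] at q1 q2
  simp only [Complex.sub_re, Complex.sub_im, Complex.one_re, Complex.one_im, sub_zero] at q2
  have h3 : Real.sqrt 3 * Real.sqrt 3 = 3 := Real.mul_self_sqrt (by norm_num)
  have hre : q.re = 1 / 2 := by nlinarith
  have him : (q.im - Real.sqrt 3 / 2) * (q.im + Real.sqrt 3 / 2) = 0 := by
    rw [hre] at q1
    nlinarith
  rcases mul_eq_zero.mp him with h | h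
  · left
    rw [hwq]
    congr 1
    apply Complex.ext
    · simp [ze, hre]
    · simp only [ze]
      linarith
  · right
    rw [hwq]
    congr 1
    apply Complex.ext
    · simp [ze, hre]
    · simp only [ze, Complex.conj_im]
      linarith

/-- the isometry `z ↦ o + u z` -/
theorem exists_rot (o u : ℂ) (hu : ‖u‖ = 1) : ∃ f : ℂ ≃ᵢ ℂ, ∀ z, f z = o + u * z := by
  refine ⟨(rotation ⟨u, by simpa [Submonoid.unitSphere] using hu⟩).toIsometryEquiv.trans
    (IsometryEquiv.addLeft o), ?_⟩
  intro z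
  rfl

theorem exists_refl (o u : ℂ) (hu : ‖u‖ = 1) :
    ∃ f : ℂ ≃ᵢ ℂ, ∀ z, f z = o + u * (starRingEnd ℂ) z := by
  obtain ⟨g, hg⟩ := exists_rot o u hu
  refine ⟨Complex.conjLIE.toIsometryEquiv.trans g, ?_⟩
  intro z
  exact hg _

theorem fan_rec (N : ℕ) (o u η : ℂ) (r : ℕ → ℂ) (hη : η ^ 2 = η - 1)
    (ho : ∀ i, i < N → dist o (r i) = 1) (hr : ∀ i, i + 1 < N → dist (r i) (r (i + 1)) = 1)
    (hne : ∀ i, i + 2 < N → r i ≠ r (i + 2)) (h0 : r 0 = o + u) (h1 : r 1 = o + u * η) :
    ∀ i, i < N → r i = o + u * η ^ i := by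
  intro i
  induction i using Nat.strong_induction_on with
  | _ i ih =>
    intro hi
    match i, ih, hi with
    | 0, _, _ => rw [h0, pow_zero, mul_one]
    | 1, _, _ => rw [h1, pow_one]
    | (j + 2), ih, hi =>
      have e0 := ih j (by omega) (by omega)
      have e1 := ih (j + 1) (by omega) (by omega)
      have hone : o ≠ r (j + 1) := by
        intro h
        have := ho (j + 1) (by omega)
        rw [← h, dist_self] at this
        norm_num at this
      have hrh := rhombus hone (hne j hi) (ho j (by omega)) (ho (j + 2) hi)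
        (by rw [dist_comm]; exact hr j (by omega)) (hr (j + 1) (by omega))
      have : r (j + 2) = o + r (j + 1) - r j := by linear_combination -hrh
      rw [this, e0, e1]
      have hp : η ^ (j + 2) = η ^ (j + 1) - η ^ j := by
        rw [pow_add, hη]
        ring
      rw [hp]
      ring

theorem fan (N : ℕ) (o : ℂ) (r : ℕ → ℂ)
    (ho : ∀ i, i < N → dist o (r i) = 1) (hr : ∀ i, i + 1 < N → dist (r i) (r (i + 1)) = 1)
    (hne : ∀ i, i + 2 < N → r i ≠ r (i + 2)) :
    ∃ f : ℂ ≃ᵢ ℂ, f 0 = o ∧ ∀ i, i < N → f (ze ^ i) = r i := by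
  rcases Nat.lt_or_ge N 1 with hN | hN
  · exact ⟨IsometryEquiv.addLeft o, by simp, fun i hi => by omega⟩
  have hu : ‖r 0 - o‖ = 1 := by
    have := ho 0 (by omega)
    rwa [dist_comm, dist_eq_norm] at this
  rcases Nat.lt_or_ge N 2 with hN2 | hN2
  · obtain ⟨f, hf⟩ := exists_rot o (r 0 - o) hu
    refine ⟨f, by rw [hf]; ring, fun i hi => ?_⟩
    have : i = 0 := by omega
    subst this
    rw [hf]
    ring
  have hw : ‖r 1 - o‖ = 1 := by
    have := ho 1 (by omega)
    rwa [dist_comm, dist_eq_norm] at this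
  have huw : ‖(r 1 - o) - (r 0 - o)‖ = 1 := by
    have := hr 0 (by omega)
    rw [dist_comm, dist_eq_norm] at this
    rw [← this]
    congr 1
    ring
  rcases unit_pair hu hw huw with h | h
  · obtain ⟨f, hf⟩ := exists_rot o (r 0 - o) hu
    have := fan_rec N o (r 0 - o) ze r ze_sq ho hr hne (by ring) (by rw [← h]; ring)
    refine ⟨f, by rw [hf]; ring, fun i hi => ?_⟩
    rw [hf, this i hi]
  · obtain ⟨f, hf⟩ := exists_refl o (r 0 - o) hu
    have hη : ((starRingEnd ℂ) ze) ^ 2 = (starRingEnd ℂ) ze - 1 := by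
      rw [← map_pow, ze_sq, map_sub, map_one]
    have := fan_rec N o (r 0 - o) ((starRingEnd ℂ) ze) r hη ho hr hne (by ring) (by rw [← h]; ring)
    refine ⟨f, by rw [hf]; simp, fun i hi => ?_⟩
    rw [hf, this i hi, map_pow]

/-- the standard fan points: `0, 1, ze, ze^2, ...` -/
noncomputable def fz : ℕ → ℂ
  | 0 => 0
  | (i + 1) => ze ^ i

noncomputable def Std (n : ℕ) : Finset ℂ := (Finset.range n).image fz

theorem image_perm (n : ℕ) (s : List ℕ) (hlen : s.length = n) (hnd : s.Nodup)
    (hlt : ∀ x ∈ s, x < n) (p : ℕ → ℂ) :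
    (Finset.range n).image (fun i => p (s.getD i 0)) = (Finset.range n).image p := by
  have hs : ∀ i, i < n → s.getD i 0 < n := by
    intro i hi
    rw [List.getD_eq_getElem _ _ (by omega)]
    exact hlt _ (List.getElem_mem _)
  have hinj : ∀ i j, i < n → j < n → s.getD i 0 = s.getD j 0 → i = j := by
    intro i j hi hj hij
    rw [List.getD_eq_getElem _ _ (by omega), List.getD_eq_getElem _ _ (by omega)] at hij
    exact (List.Nodup.getElem_inj_iff hnd).mp hij
  have hsub : (Finset.range n).image (fun i => s.getD i 0) ⊆ Finset.range n := by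
    intro x hx
    obtain ⟨i, hi, rfl⟩ := Finset.mem_image.mp hx
    exact Finset.mem_range.mpr (hs i (Finset.mem_range.mp hi))
  have hcard : ((Finset.range n).image (fun i => s.getD i 0)).card = (Finset.range n).card := by
    apply Finset.card_image_of_injOn
    intro i hi j hj hij
    exact hinj i j (by simpa using hi) (by simpa using hj) hij
  have heq := Finset.eq_of_subset_of_card_le hsub hcard.ge
  conv_rhs => rw [← heq]
  rw [Finset.image_image]
  rfl

def fanOK (n : ℕ) (c s : List ℕ) : Bool :=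
  decide (s.length = n) && decide s.Nodup && s.all (fun x => decide (x < n)) &&
  (List.range (n - 1)).all (fun i => adjB c (s.getD 0 0) (s.getD (i + 1) 0)) &&
  (List.range (n - 2)).all (fun i => adjB c (s.getD (i + 1) 0) (s.getD (i + 2) 0))

theorem fan_std (n : ℕ) (hn : 1 ≤ n) (c s : List ℕ) (h : fanOK n c s = true) (p : ℕ → ℂ)
    (hp : Realize n c p) : Congruent (Std n) ((Finset.range n).image p) := by
  simp only [fanOK, Bool.and_eq_true, decide_eq_true_eq, List.all_eq_true, List.mem_range] at h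
  obtain ⟨⟨⟨⟨hlen, hnd⟩, hlt⟩, h1⟩, h2⟩ := h
  have hs : ∀ i, i < n → s.getD i 0 < n := by
    intro i hi
    rw [List.getD_eq_getElem _ _ (by omega)]
    exact hlt _ (List.getElem_mem _)
  have hinj : ∀ i j, i < n → j < n → s.getD i 0 = s.getD j 0 → i = j := by
    intro i j hi hj hij
    rw [List.getD_eq_getElem _ _ (by omega), List.getD_eq_getElem _ _ (by omega)] at hij
    exact (List.Nodup.getElem_inj_iff hnd).mp hij
  have hd : ∀ i j, i < n → j < n → adjB c (s.getD i 0) (s.getD j 0) = true →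
      dist (p (s.getD i 0)) (p (s.getD j 0)) = 1 := by
    intro i j hi hj hadj
    refine (hp.2 _ _ (hs i hi) (hs j hj) ?_).mp hadj
    intro h
    rw [h, adjB_self] at hadj
    exact absurd hadj (by simp)
  obtain ⟨f, hf0, hf1⟩ := fan (n - 1) (p (s.getD 0 0)) (fun i => p (s.getD (i + 1) 0))
    (fun i hi => hd 0 (i + 1) (by omega) (by omega) (h1 i hi))
    (fun i hi => hd (i + 1) (i + 2) (by omega) (by omega) (h2 i (by omega)))
    (fun i hi he => by
      have h3 := hp.1 _ _ (hs (i + 1) (by omega)) (hs (i + 2 + 1) (by omega)) he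
      have h4 := hinj _ _ (by omega) (by omega) h3
      omega)
  refine ⟨f, ?_⟩
  rw [← image_perm n s hlen hnd hlt p, Std, Finset.image_image]
  apply Finset.image_congr
  intro i hi
  have hi' : i < n := by simpa using hi
  match i, hi' with
  | 0, _ => exact hf0
  | (j + 1), hj => exact hf1 j (by omega)

theorem ze3 : ze ^ 3 = -1 := by
  have h := ze_sq
  linear_combination (ze + 1) * h

theorem ze4 : ze ^ 4 = -ze := by
  have h := ze3
  linear_combination ze * h

theorem ze5 : ze ^ 5 = 1 - ze := by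
  have h := ze3
  have h2 := ze_sq
  linear_combination ze ^ 2 * h - h2

theorem ze6 : ze ^ 6 = 1 := by
  have h := ze3
  linear_combination (ze ^ 3 - 1) * h

theorem ze_pow_ne_one (d : ℕ) (h0 : 0 < d) (h6 : d < 6) : ze ^ d ≠ 1 := by
  have him := ze_im_pos
  intro h
  have h' := congrArg Complex.im h
  interval_cases d
  · rw [pow_one] at h'
    simp only [Complex.one_im] at h'
    linarith
  · rw [ze_sq] at h'
    simp only [Complex.sub_im, Complex.one_im] at h'
    linarith
  · rw [ze3] at h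
    have := congrArg Complex.re h
    norm_num at this
  · rw [ze4] at h'
    simp only [Complex.neg_im, Complex.one_im] at h'
    linarith
  · rw [ze5] at h'
    simp only [Complex.sub_im, Complex.one_im] at h'
    linarith

theorem ze_pow_norm (i : ℕ) : ‖ze ^ i‖ = 1 := by rw [norm_pow, ze_norm, one_pow]

theorem ze_ne_zero : ze ≠ 0 := by
  intro h
  have := ze_norm
  rw [h, norm_zero] at this
  norm_num at this

theorem fz_inj (n : ℕ) (hn : n ≤ 7) : Set.InjOn fz (Finset.range n : Set ℕ) := by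
  have key : ∀ i j, i < j → j < 7 → fz i ≠ fz j := by
    intro i j hij hj h
    match i, j, hij, hj, h with
    | 0, (j + 1), _, _, h =>
      have : ‖(0 : ℂ)‖ = ‖ze ^ j‖ := congrArg norm h
      rw [norm_zero, ze_pow_norm] at this
      norm_num at this
    | (i + 1), (j + 1), hij, hj, h =>
      have h1 : ze ^ i = ze ^ j := h
      have h2 : ze ^ j = ze ^ i * ze ^ (j - i) := by
        rw [← pow_add]
        congr 1
        omega
      rw [h2] at h1
      have h3 : ze ^ (j - i) = 1 := by
        have h4 : ze ^ i ≠ 0 := pow_ne_zero _ ze_ne_zero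
        have h5 : ze ^ i * ze ^ (j - i) = ze ^ i * 1 := by rw [mul_one]; exact h1.symm
        exact mul_left_cancel₀ h4 h5
      exact ze_pow_ne_one (j - i) (by omega) (by omega) h3
  intro i hi j hj h
  have hi' : i < n := by simpa using hi
  have hj' : j < n := by simpa using hj
  rcases lt_trichotomy i j with h1 | h1 | h1
  · exact absurd h (key i j h1 (by omega))
  · exact h1
  · exact absurd h.symm (key j i h1 (by omega))

def RF (q : ℕ × ℕ) : Bool :=
  (q.1 == 0 && decide (0 < q.2)) || (q.2 == 0 && decide (0 < q.1)) ||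
  (decide (0 < q.1) && decide (0 < q.2) && (q.1 + 1 == q.2 || q.2 + 1 == q.1)) ||
  (q.1 == 1 && q.2 == 6) || (q.1 == 6 && q.2 == 1)

theorem dist_pow_succ (i : ℕ) : dist (ze ^ i) (ze ^ (i + 1)) = 1 := by
  rw [dist_comm, dist_eq_norm, show ze ^ (i + 1) - ze ^ i = ze ^ i * (ze - 1) by ring, norm_mul,
    ze_pow_norm, ze_sub_norm, one_mul]

theorem RF_dist (q : ℕ × ℕ) (h : RF q = true) : dist (fz q.1) (fz q.2) = 1 := by
  obtain ⟨a, b⟩ := q
  simp only [RF, Bool.or_eq_true, Bool.and_eq_true, beq_iff_eq, decide_eq_true_eq] at h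
  rcases h with ((((⟨rfl, h⟩ | ⟨rfl, h⟩) | ⟨⟨ha, hb⟩, h | h⟩) | ⟨rfl, rfl⟩) | ⟨rfl, rfl⟩)
  · obtain ⟨j, rfl⟩ : ∃ j, b = j + 1 := ⟨b - 1, by omega⟩
    simp only [fz, dist_zero_left]
    exact ze_pow_norm j
  · obtain ⟨j, rfl⟩ : ∃ j, a = j + 1 := ⟨a - 1, by omega⟩
    simp only [fz, dist_zero_right]
    exact ze_pow_norm j
  · obtain ⟨j, rfl⟩ : ∃ j, a = j + 1 := ⟨a - 1, by omega⟩
    subst h
    simp only [fz]
    exact dist_pow_succ j
  · obtain ⟨j, rfl⟩ : ∃ j, b = j + 1 := ⟨b - 1, by omega⟩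
    subst h
    simp only [fz]
    rw [dist_comm]
    exact dist_pow_succ j
  · simp only [fz]
    have := dist_pow_succ 5
    rw [ze6] at this
    rw [pow_zero, dist_comm]
    exact this
  · simp only [fz]
    have := dist_pow_succ 5
    rw [ze6] at this
    rw [pow_zero]
    exact this

theorem std_lower (n e : ℕ) (hn : n ≤ 7)
    (hc : 2 * e ≤ (((Finset.range n) ×ˢ (Finset.range n)).filter (fun q => RF q = true)).card) :
    2 * e ≤ ud (Std n) := by
  refine le_trans hc ?_
  refine card_le_ud (Finset.range n) fz _ ?_ (fz_inj n hn) ?_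
  · intro q hq
    exact Finset.mem_product.mp (Finset.mem_filter.mp hq).1
  · intro q hq
    exact RF_dist q (Finset.mem_filter.mp hq).2

theorem ub {k f U : ℕ} {L : List (List ℕ × ℕ)} (h : H k f L) (hL : ∀ g ∈ L, g.2 ≤ U)
    (hf : f ≤ U + 1) (A : Finset ℂ) (hA : A.card = k) : ud A ≤ 2 * U := by
  obtain ⟨E, hE⟩ := ud_even A
  by_cases h1 : 2 * f ≤ ud A
  · obtain ⟨g, hg, _, _, _, hud⟩ := h A hA h1
    have := hL g hg
    omega
  · omega

theorem none_of {n f e : ℕ} {L : List (List ℕ × ℕ)} (h : H n f L) (hL : ∀ g ∈ L, g.2 ≤ e)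
    (hfe : f ≤ e) (c s : List ℕ) (hc : ∀ g ∈ L, e ≤ g.2 → g.1 = c) (hs : fanOK n c s = true)
    (hn1 : 1 ≤ n) (hn : n ≤ 7)
    (hcard : 2 * e ≤
      (((Finset.range n) ×ˢ (Finset.range n)).filter (fun q => RF q = true)).card) :
    NOne ℂ n := by
  have hstd := std_lower n e hn hcard
  have hext : Extremal n (Std n) := by
    refine ⟨?_, fun T hT => le_trans (ub h hL (by omega) T hT) hstd⟩
    rw [Std, Finset.card_image_of_injOn (fz_inj n hn), Finset.card_range]
  have hcong : ∀ A : Finset ℂ, Extremal n A → Congruent (Std n) A := by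
    intro A hA
    have h1 : 2 * e ≤ ud A := le_trans hstd (hA.2 _ hext.1)
    obtain ⟨g, hg, p, hp, rfl, hud⟩ := h A hA.1 (by omega)
    have hgc := hc g hg (by omega)
    rw [hgc] at hp
    exact fan_std n hn1 c s hs p hp
  exact ⟨⟨_, hext⟩, fun A B hA hB => congruent_trans (congruent_symm (hcong A hA)) (hcong B hB)⟩

theorem none1 : NOne ℂ 1 :=
  none_of (e := 0) H_1 (by decide) (by decide) [0] [0] (by decide) (by decide) (by decide)
    (by decide) (by decide)

theorem none2 : NOne ℂ 2 :=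
  none_of (e := 1) H_2 (by decide) (by decide) [0, 1] [1, 0] (by decide) (by decide) (by decide)
    (by decide) (by decide)

theorem none3 : NOne ℂ 3 :=
  none_of (e := 3) H_3 (by decide) (by decide) [0, 1, 3] [2, 0, 1] (by decide) (by decide)
    (by decide) (by decide) (by decide)

theorem none4 : NOne ℂ 4 :=
  none_of (e := 5) H_4 (by decide) (by decide) [0, 0, 3, 7] [3, 0, 2, 1] (by decide) (by decide)
    (by decide) (by decide) (by decide)

theorem none5 : NOne ℂ 5 :=
  none_of (e := 7) H_5 (by decide) (by decide) [0, 0, 1, 6, 15] [4, 0, 2, 3, 1] (by decide)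
    (by decide) (by decide) (by decide) (by decide)

theorem none7 : NOne ℂ 7 :=
  none_of (e := 12) H_7 (by decide +kernel) (by decide) [0, 1, 1, 2, 4, 24, 63]
    [6, 0, 1, 3, 5, 4, 2] (by decide +kernel) (by decide +kernel) (by decide)
    (by decide) (by decide +kernel)

end Pool.Agent.Lib.MP8b87c2
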