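import Pool.Agent.Lib.MP_8b87c2_co.Defs

set_option autoImplicit false
open Classical

namespace Pool.Agent.Lib.MP8b87c2

section General
variable {X : Type*} [MetricSpace X]

/-- number of points of `A` at distance 1 from `v` -/
noncomputable def dg (v : X) (A : Finset X) : ℕ := (A.filter (fun w => dist v w = 1)).card

theorem ud_eq_sum (A : Finset X) : ud A = ∑ v ∈ A, dg v A := by
  have h1 : Finset.filter (fun p : X × X => dist p.1 p.2 = 1) A.offDiag
      = Finset.filter (fun p : X × X => dist p.1 p.2 = 1) (A ×ˢ A) := by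
    ext ⟨a, b⟩
    simp only [Finset.mem_filter, Finset.mem_offDiag, Finset.mem_product]
    constructor
    · rintro ⟨⟨h1, h2, _⟩, h⟩
      exact ⟨⟨h1, h2⟩, h⟩
    · rintro ⟨⟨h1, h2⟩, h⟩
      refine ⟨⟨h1, h2, ?_⟩, h⟩
      rintro rfl
      simp at h
  unfold ud dg
  rw [h1, Finset.card_filter, Finset.sum_product]
  refine Finset.sum_congr rfl fun v _ => ?_
  rw [Finset.card_filter]

theorem dg_insert_self (v : X) (B : Finset X) : dg v (insert v B) = dg v B := by
  unfold dg
  rw [Finset.filter_insert, if_neg (by simp)]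

theorem dg_insert (x v : X) (B : Finset X) (hv : v ∉ B) :
    dg x (insert v B) = dg x B + (if dist x v = 1 then 1 else 0) := by
  unfold dg
  rw [Finset.filter_insert]
  split_ifs with h
  · rw [Finset.card_insert_of_notMem (by simp [hv])]
  · rfl

theorem ud_insert (v : X) (B : Finset X) (hv : v ∉ B) : ud (insert v B) = ud B + 2 * dg v B := by
  rw [ud_eq_sum, ud_eq_sum, Finset.sum_insert hv, dg_insert_self]
  rw [Finset.sum_congr rfl (fun x _ => dg_insert x v B hv), Finset.sum_add_distrib]
  have : ∑ x ∈ B, (if dist x v = 1 then 1 else 0) = dg v B := by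
    unfold dg
    rw [Finset.card_filter]
    exact Finset.sum_congr rfl fun x _ => by rw [dist_comm]
  rw [this]
  ring

theorem ud_erase (v : X) (A : Finset X) (hv : v ∈ A) :
    ud A = ud (A.erase v) + 2 * dg v (A.erase v) := by
  conv_lhs => rw [← Finset.insert_erase hv]
  exact ud_insert v _ (Finset.notMem_erase v A)

theorem dg_erase (v : X) (A : Finset X) (hv : v ∈ A) : dg v A = dg v (A.erase v) := by
  conv_lhs => rw [← Finset.insert_erase hv]
  exact dg_insert_self v _

theorem ud_even (A : Finset X) : ∃ E, ud A = 2 * E := by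
  induction A using Finset.induction_on with
  | empty => exact ⟨0, by simp [ud]⟩
  | insert v B hv ih =>
    obtain ⟨E, hE⟩ := ih
    exact ⟨E + dg v B, by rw [ud_insert v B hv, hE]; ring⟩

theorem exists_min (A : Finset X) (hA : A.Nonempty) :
    ∃ v ∈ A, (∀ w ∈ A, dg v A ≤ dg w A) ∧ dg v A * A.card ≤ ud A := by
  obtain ⟨v, hv, hmin⟩ := Finset.exists_min_image A (fun w => dg w A) hA
  refine ⟨v, hv, hmin, ?_⟩
  rw [ud_eq_sum, mul_comm, ← smul_eq_mul]
  exact Finset.card_nsmul_le_sum A _ _ hmin

end General

/-- two distinct points with two distinct common unit neighbours form a rhombus -/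
theorem rhombus {a b x y : ℂ} (hab : a ≠ b) (hxy : x ≠ y) (h1 : dist a x = 1) (h2 : dist a y = 1)
    (h3 : dist b x = 1) (h4 : dist b y = 1) : a + b - x - y = 0 := by
  have key : a + b - x = x ∨ a + b - x = y := by
    refine EuclideanGeometry.eq_of_dist_eq_of_dist_eq_of_finrank_eq_two (V := ℂ) (P := ℂ)
      (c₁ := a) (c₂ := b) (r₁ := 1) (r₂ := 1) Complex.finrank_real_complex hab hxy
      (by rw [dist_comm]; exact h1) (by rw [dist_comm]; exact h2) ?_
      (by rw [dist_comm]; exact h3) (by rw [dist_comm]; exact h4) ?_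
    · rw [dist_eq_norm] at h3 ⊢
      rw [← h3]
      congr 1
      ring
    · rw [dist_eq_norm] at h1 ⊢
      rw [← h1]
      congr 1
      ring
  rcases key with h | h
  · exfalso
    -- x is the midpoint, then y too
    have hx : a + b = 2 * x := by linear_combination h
    have e1 : ‖a - y‖ = 1 := by rw [← dist_eq_norm]; exact h2
    have e2 : ‖b - y‖ = 1 := by rw [← dist_eq_norm]; exact h4
    have e3 : ‖a - x‖ = 1 := by rw [← dist_eq_norm]; exact h1
    have e4 : b - x = -(a - x) := by linear_combination hx
    have p := parallelogram_law_with_norm ℝ (a - y) (b - y)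
    have q1 : (a - y) + (b - y) = 2 * (x - y) := by linear_combination hx
    have q2 : (a - y) - (b - y) = 2 * (a - x) := by linear_combination -hx
    rw [q1, q2, e1, e2, norm_mul, norm_mul, e3] at p
    simp only [Complex.norm_ofNat] at p
    have : ‖x - y‖ = 0 := by
      have h0 := norm_nonneg (x - y)
      nlinarith
    exact hxy (sub_eq_zero.mp (norm_eq_zero.mp this))
  · linear_combination h

/-- no four points at mutual distance 1 -/
theorem noK4 {a b x y : ℂ} (hab : a ≠ b) (hxy : x ≠ y) (h0 : dist a b = 1) (h1 : dist a x = 1)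
    (h2 : dist a y = 1) (h3 : dist b x = 1) (h4 : dist b y = 1) (h5 : dist x y = 1) : False := by
  have h := rhombus hab hxy h1 h2 h3 h4
  rw [dist_eq_norm] at h0 h1 h2 h3 h4 h5
  have p := parallelogram_law_with_norm ℝ (a - x) (b - x)
  have q1 : (a - x) + (b - x) = -(x - y) := by linear_combination h
  have q2 : (a - x) - (b - x) = a - b := by ring
  rw [q1, q2, norm_neg, h0, h1, h3, h5] at p
  norm_num at p

end Pool.Agent.Lib.MP8b87c2
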