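import Pool.Agent.Lib.MP_8b87c2_co.Fan

/-! # The infinite cases, the splitting criterion and the transport to the Euclidean plane -/

set_option autoImplicit false
open Classical

namespace Pool.Agent.Lib.MP8b87c2

/-! ### the rhombus times triangle family -/

noncomputable def DD : Fin 4 → ℂ := ![0, 1, ze, 1 + ze]
noncomputable def TT : Fin 3 → ℂ := ![0, 1, ze]

def adjD (a b : Fin 4) : Bool :=
  decide (a ≠ b) && !(decide (a = 0) && decide (b = 3)) && !(decide (a = 3) && decide (b = 0))

def RR (q : (Fin 4 × Fin 3) × (Fin 4 × Fin 3)) : Bool :=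
  (adjD q.1.1 q.2.1 && decide (q.1.2 = q.2.2)) || (decide (q.1.1 = q.2.1) && decide (q.1.2 ≠ q.2.2))

theorem DD_dist (a b : Fin 4) (h : adjD a b = true) : ‖DD a - DD b‖ = 1 := by
  have h1 := ze_norm
  have h2 := ze_sub_norm
  have h3 : ‖1 - ze‖ = 1 := by rw [norm_sub_rev]; exact h2
  have key : ∀ a b : Fin 4, adjD a b = true → a < b → ‖DD a - DD b‖ = 1 := by
    intro a b hab hlt
    fin_cases a <;> fin_cases b <;> simp [adjD, DD] at hab hlt ⊢ <;>
      first | exact h1 | exact h3
  rcases lt_trichotomy a b with hl | hl | hl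
  · exact key a b h hl
  · subst hl
    simp [adjD] at h
  · rw [norm_sub_rev]
    refine key b a ?_ hl
    revert h
    revert a b
    decide

theorem TT_dist (a b : Fin 3) (h : a ≠ b) : ‖TT a - TT b‖ = 1 := by
  have h1 := ze_norm
  have h2 := ze_sub_norm
  have h3 : ‖1 - ze‖ = 1 := by rw [norm_sub_rev]; exact h2
  fin_cases a <;> fin_cases b <;> simp [TT] at h ⊢ <;> first | exact h1 | exact h2 | exact h3

theorem DD_inj : Function.Injective DD := by
  have him := ze_im_pos
  have hre : ze.re = 1 / 2 := rfl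
  intro a b h
  have h1 := congrArg Complex.im h
  have h2 := congrArg Complex.re h
  fin_cases a <;> fin_cases b <;> simp [DD] at h1 h2 ⊢ <;> linarith

theorem TT_inj : Function.Injective TT := by
  intro a b h
  by_contra hne
  have := TT_dist a b hne
  rw [h, sub_self, norm_zero] at this
  norm_num at this

theorem inf_of (S : Finset (Fin 4 × Fin 3)) (U : ℕ)
    (hcard : ((S ×ˢ S).filter (fun q => RR q = true)).card = 2 * U)
    (hU : ∀ T : Finset ℂ, T.card = S.card → ud T ≤ 2 * U)
    (h0 : ((0 : Fin 4), (0 : Fin 3)) ∈ S) (h1 : ((1 : Fin 4), (1 : Fin 3)) ∈ S) :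
    NInfinite ℂ S.card := by
  refine flexCore S (fun i => DD i.1) (fun i => Complex.I * TT i.2)
    ((S ×ˢ S).filter (fun q => RR q = true)) ?_ ?_ ?_ ?_ (0, 0) (1, 1) h0 h1 ?_ ?_
  · intro q hq
    exact Finset.mem_product.mp (Finset.mem_filter.mp hq).1
  · intro q hq
    have hR := (Finset.mem_filter.mp hq).2
    simp only [RR, Bool.or_eq_true, Bool.and_eq_true, decide_eq_true_eq] at hR
    rw [dist_eq_norm]
    rcases hR with ⟨ha, hb⟩ | ⟨ha, hb⟩
    · refine ⟨?_, Or.inr (by simp only [hb])⟩
      rw [hb, show DD q.1.1 + Complex.I * TT q.2.2 - (DD q.2.1 + Complex.I * TT q.2.2)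
        = DD q.1.1 - DD q.2.1 by ring]
      exact DD_dist _ _ ha
    · refine ⟨?_, Or.inl (by simp only [ha])⟩
      rw [ha, show DD q.2.1 + Complex.I * TT q.1.2 - (DD q.2.1 + Complex.I * TT q.2.2)
        = Complex.I * (TT q.1.2 - TT q.2.2) by ring, norm_mul, Complex.norm_I, one_mul]
      exact TT_dist _ _ hb
  · intro T hT
    rw [hcard]
    exact hU T hT
  · intro i _ j _ hx hy
    have hy' : TT i.2 = TT j.2 := mul_left_cancel₀ Complex.I_ne_zero hy
    exact Prod.ext (DD_inj hx) (TT_inj hy')
  · intro h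
    exact absurd (DD_inj h) (by decide)
  · intro h
    have : TT 0 = TT 1 := mul_left_cancel₀ Complex.I_ne_zero h
    exact absurd (TT_inj this) (by decide)

theorem ub12 (A : Finset ℂ) (hA : A.card = 12) : ud A ≤ 2 * 27 := by
  by_contra hcon
  have hne : A.Nonempty := Finset.card_pos.mp (by omega)
  obtain ⟨v, hv, _, havg⟩ := exists_min A hne
  obtain ⟨E, hE⟩ := ud_even A
  have hcB : (A.erase v).card = 11 := by rw [Finset.card_erase_of_mem hv, hA]
  have hdv : dg v A = dg v (A.erase v) := dg_erase v A hv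
  have hudB := ud_erase v A hv
  rw [hA, hdv] at havg
  obtain ⟨g, hg, _⟩ := H_11 (A.erase v) hcB (by omega)
  simp [L11] at hg

def S6 : Finset (Fin 4 × Fin 3) := Finset.univ.filter (fun i => i.1 ≠ 3 ∧ i.2 ≠ 2)
def S8 : Finset (Fin 4 × Fin 3) := Finset.univ.filter (fun i => i.2 ≠ 2)
def S9 : Finset (Fin 4 × Fin 3) := Finset.univ.filter (fun i => i.1 ≠ 3)
def S10 : Finset (Fin 4 × Fin 3) := Finset.univ.filter (fun i => i.1 ≠ 3 ∨ i.2 = 0)
def S11 : Finset (Fin 4 × Fin 3) := Finset.univ.filter (fun i => i.1 ≠ 3 ∨ i.2 ≠ 2)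

theorem inf6 : NInfinite ℂ 6 :=
  inf_of S6 9 (by decide +kernel)
    (fun T hT => ub H_6 (by decide +kernel) (by decide) T (hT.trans (by decide)))
    (by decide) (by decide)

theorem inf8 : NInfinite ℂ 8 :=
  inf_of S8 14 (by decide +kernel)
    (fun T hT => ub H_8 (by decide +kernel) (by decide) T (hT.trans (by decide)))
    (by decide) (by decide)

theorem inf9 : NInfinite ℂ 9 :=
  inf_of S9 18 (by decide +kernel)
    (fun T hT => ub H_9 (by decide +kernel) (by decide) T (hT.trans (by decide)))
    (by decide) (by decide)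

theorem inf10 : NInfinite ℂ 10 :=
  inf_of S10 20 (by decide +kernel)
    (fun T hT => ub H_10 (by decide +kernel) (by decide) T (hT.trans (by decide)))
    (by decide) (by decide)

theorem inf11 : NInfinite ℂ 11 :=
  inf_of S11 23 (by decide +kernel)
    (fun T hT => ub H_11 (by decide +kernel) (by decide) T (hT.trans (by decide)))
    (by decide) (by decide)

theorem inf12 : NInfinite ℂ 12 :=
  inf_of Finset.univ 27 (by decide +kernel) (fun T hT => ub12 T (hT.trans (by decide)))
    (by decide) (by decide)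

/-! ### the splitting criterion -/

theorem split_crit (n : ℕ) (x y : Fin n → ℂ)
    (hA : Extremal n (Finset.univ.image (fun i => x i + y i)))
    (h : ∀ i j, dist (x i + y i) (x j + y j) = 1 → x i = x j ∨ y i = y j)
    (hx : ¬ ∀ i j, x i = x j) (hy : ¬ ∀ i j, y i = y j) : NInfinite ℂ n := by
  push Not at hx hy
  obtain ⟨a, b, hab⟩ := hx
  obtain ⟨c, d, hcd⟩ := hy
  have hinj : Function.Injective (fun i => x i + y i) := by
    have h1 : (Finset.univ.image (fun i => x i + y i)).card = (Finset.univ : Finset (Fin n)).card := by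
      rw [hA.1, Finset.card_univ, Fintype.card_fin]
    have h2 := Finset.card_image_iff.mp h1
    intro i j hij
    exact h2 (Finset.mem_coe.mpr (Finset.mem_univ i)) (Finset.mem_coe.mpr (Finset.mem_univ j)) hij
  obtain ⟨i0, j0, hi0, hj0⟩ : ∃ i0 j0, x i0 ≠ x j0 ∧ y i0 ≠ y j0 := by
    by_contra hcon
    push Not at hcon
    have hyab : y a = y b := hcon a b hab
    have hall : ∀ i, y i = y a := by
      intro i
      by_cases hi : x i = x a
      · have : x i ≠ x b := fun h => hab (hi.symm.trans h)
        rw [hcon i b this, hyab]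
      · exact hcon i a hi
    exact hcd ((hall c).trans (hall d).symm)
  set Pp : Finset (Fin n × Fin n) :=
    Finset.univ.filter (fun q => dist (x q.1 + y q.1) (x q.2 + y q.2) = 1) with hPp
  have hud : ud (Finset.univ.image (fun i => x i + y i)) ≤ Pp.card := by
    unfold ud
    refine Finset.card_le_card_of_surjOn (fun q => (x q.1 + y q.1, x q.2 + y q.2)) ?_
    intro p hp
    have hp' := hp
    simp only [Finset.coe_filter, Finset.mem_offDiag, Set.mem_ofPred_eq, Finset.mem_image,
      Finset.mem_univ, true_and] at hp'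
    obtain ⟨⟨⟨i, hi⟩, ⟨j, hj⟩, _⟩, hd⟩ := hp'
    refine ⟨(i, j), ?_, ?_⟩
    · simp only [hPp, Finset.coe_filter, Finset.mem_univ, true_and, Set.mem_ofPred_eq]
      rw [hi, hj]
      exact hd
    · exact Prod.ext hi hj
  have key := flexCore (Finset.univ : Finset (Fin n)) x y Pp (fun q _ => ⟨Finset.mem_univ _, Finset.mem_univ _⟩)
    (fun q hq => by
      have hq' := (Finset.mem_filter.mp hq).2
      exact ⟨hq', h _ _ hq'⟩)
    (fun T hT => le_trans (hA.2 T (by rw [hT, Finset.card_univ, Fintype.card_fin])) hud)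
    (fun i _ j _ h1 h2 => hinj (by simp only; rw [h1, h2])) i0 j0 (Finset.mem_univ _)
    (Finset.mem_univ _) hi0 hj0
  rwa [Finset.card_univ, Fintype.card_fin] at key

/-- a cut point of the unit distance graph of an extremal set gives a flex -/
theorem cut_crit (n : ℕ) (A : Finset ℂ) (hA : Extremal n A) (c : ℂ) (hc : c ∈ A)
    (B C : Finset ℂ) (hB : B.Nonempty) (hC : C.Nonempty) (hBC : Disjoint B C)
    (hU : A.erase c = B ∪ C) (hd : ∀ b ∈ B, ∀ z ∈ C, dist b z ≠ 1) : NInfinite ℂ n := by
  have hcB : c ∉ B := fun h => by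
    have : c ∈ A.erase c := hU ▸ Finset.mem_union_left _ h
    exact (Finset.notMem_erase c A) this
  have hcC : c ∉ C := fun h => by
    have : c ∈ A.erase c := hU ▸ Finset.mem_union_right _ h
    exact (Finset.notMem_erase c A) this
  have hBA : ∀ b ∈ B, b ∈ A := fun b hb =>
    Finset.mem_of_mem_erase (a := c) (hU ▸ Finset.mem_union_left _ hb)
  have hCA : ∀ b ∈ C, b ∈ A := fun b hb =>
    Finset.mem_of_mem_erase (a := c) (hU ▸ Finset.mem_union_right _ hb)
  have hcl : ∀ a ∈ A, a ∉ C → a = c ∨ a ∈ B := by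
    intro a ha haC
    by_cases hac : a = c
    · exact Or.inl hac
    · right
      have : a ∈ B ∪ C := hU ▸ Finset.mem_erase.mpr ⟨hac, ha⟩
      rcases Finset.mem_union.mp this with h | h
      · exact h
      · exact absurd h haC
  let e : Fin n ≃ A := (A.equivFinOfCardEq hA.1).symm
  let x : Fin n → ℂ := fun i => if ((e i : ℂ)) ∈ C then c else (e i : ℂ)
  let y : Fin n → ℂ := fun i => if ((e i : ℂ)) ∈ C then (e i : ℂ) - c else 0
  have hxy : ∀ i, x i + y i = (e i : ℂ) := by
    intro i
    simp only [x, y]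
    split_ifs <;> ring
  have himg : Finset.univ.image (fun i => x i + y i) = A := by
    ext z
    simp only [Finset.mem_image, Finset.mem_univ, true_and, hxy]
    constructor
    · rintro ⟨i, rfl⟩
      exact (e i).2
    · intro hz
      exact ⟨e.symm ⟨z, hz⟩, by simp⟩
  refine split_crit n x y (by rw [himg]; exact hA) ?_ ?_ ?_
  · intro i j hij
    rw [hxy, hxy] at hij
    by_cases hi : (e i : ℂ) ∈ C <;> by_cases hj : (e j : ℂ) ∈ C
    · left
      simp only [x, if_pos hi, if_pos hj]
    · rcases hcl _ (e j).2 hj with h | h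
      · left
        simp only [x, if_pos hi, if_neg hj]
        exact h.symm
      · exact absurd (by rw [dist_comm]; exact hij) (hd _ h _ hi)
    · rcases hcl _ (e i).2 hi with h | h
      · left
        simp only [x, if_neg hi, if_pos hj]
        exact h
      · exact absurd hij (hd _ h _ hj)
    · right
      simp only [y, if_neg hi, if_neg hj]
  · intro h
    obtain ⟨b, hb⟩ := hB
    have h1 := h (e.symm ⟨b, hBA b hb⟩) (e.symm ⟨c, hc⟩)
    have hbC : b ∉ C := fun h => (Finset.disjoint_left.mp hBC hb) h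
    simp only [x, Equiv.apply_symm_apply, if_neg hbC, if_neg hcC] at h1
    exact hcB (h1 ▸ hb)
  · intro h
    obtain ⟨z, hz⟩ := hC
    have h1 := h (e.symm ⟨z, hCA z hz⟩) (e.symm ⟨c, hc⟩)
    simp only [y, Equiv.apply_symm_apply, if_pos hz, if_neg hcC] at h1
    exact hcC ((sub_eq_zero.mp h1) ▸ hz)

/-! ### transport by an isometry -/

section Transport
variable {X Y : Type*} [MetricSpace X] [MetricSpace Y]

theorem ud_image (e : X ≃ᵢ Y) (A : Finset X) : ud (A.image e) = ud A := by
  unfold ud
  refine (Finset.card_bij (fun p _ => (e p.1, e p.2)) ?_ ?_ ?_).symm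
  · intro p hp
    simp only [Finset.mem_filter, Finset.mem_offDiag] at hp ⊢
    refine ⟨⟨Finset.mem_image_of_mem _ hp.1.1, Finset.mem_image_of_mem _ hp.1.2.1, ?_⟩, ?_⟩
    · exact fun h => hp.1.2.2 (e.injective h)
    · rw [e.isometry.dist_eq]
      exact hp.2
  · intro p _ q _ h
    simp only [Prod.mk.injEq] at h
    exact Prod.ext (e.injective h.1) (e.injective h.2)
  · rintro ⟨a, b⟩ hp
    simp only [Finset.mem_filter, Finset.mem_offDiag, Finset.mem_image] at hp
    obtain ⟨⟨⟨a', ha', rfl⟩, ⟨b', hb', rfl⟩, hne⟩, hd⟩ := hp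
    refine ⟨(a', b'), ?_, rfl⟩
    simp only [Finset.mem_filter, Finset.mem_offDiag]
    refine ⟨⟨ha', hb', fun h => hne (by rw [h])⟩, ?_⟩
    rw [e.isometry.dist_eq] at hd
    exact hd

theorem card_image_iso (e : X ≃ᵢ Y) (A : Finset X) : (A.image e).card = A.card :=
  Finset.card_image_of_injective _ e.injective

theorem image_symm_image (e : X ≃ᵢ Y) (A : Finset Y) : (A.image e.symm).image e = A := by
  rw [Finset.image_image]
  have : (⇑e ∘ ⇑e.symm) = id := by
    funext x
    simp
  rw [this, Finset.image_id]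

theorem extremal_image (e : X ≃ᵢ Y) (n : ℕ) (A : Finset X) (h : Extremal n A) :
    Extremal n (A.image e) := by
  refine ⟨by rw [card_image_iso, h.1], fun T hT => ?_⟩
  rw [ud_image, ← image_symm_image e T, ud_image]
  exact h.2 _ (by rw [card_image_iso, hT])

theorem congruent_image (e : X ≃ᵢ Y) (A B : Finset X) :
    Congruent (A.image e) (B.image e) ↔ Congruent A B := by
  constructor
  · rintro ⟨f, hf⟩
    refine ⟨(e.trans f).trans e.symm, ?_⟩
    have h1 : A.image ((e.trans f).trans e.symm) = ((A.image e).image f).image e.symm := by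
      rw [Finset.image_image, Finset.image_image]
      rfl
    rw [h1, hf, Finset.image_image]
    have : (⇑e.symm ∘ ⇑e) = id := by
      funext x
      simp
    rw [this, Finset.image_id]
  · rintro ⟨f, rfl⟩
    refine ⟨(e.symm.trans f).trans e, ?_⟩
    rw [Finset.image_image, Finset.image_image]
    congr 1
    funext x
    simp

theorem ninf_transport (e : X ≃ᵢ Y) (n : ℕ) (h : NInfinite X n) : NInfinite Y n := by
  obtain ⟨F, h1, h2⟩ := h
  exact ⟨fun i => (F i).image e, fun i => extremal_image e n _ (h1 i),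
    fun i j hij hc => h2 i j hij ((congruent_image e _ _).mp hc)⟩

theorem none_transport (e : X ≃ᵢ Y) (n : ℕ) (h : NOne X n) : NOne Y n := by
  obtain ⟨⟨A, hA⟩, h2⟩ := h
  refine ⟨⟨A.image e, extremal_image e n A hA⟩, fun B C hB hC => ?_⟩
  have h3 := h2 _ _ (extremal_image e.symm n B hB) (extremal_image e.symm n C hC)
  exact (congruent_image e.symm _ _).mp h3

end Transport

/-- the isometry from the complex plane to the Euclidean plane -/
noncomputable def eV : ℂ ≃ₗᵢ[ℝ] EuclideanSpace ℝ (Fin 2) := Complex.orthonormalBasisOneI.repr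

theorem split_crit_V (n : ℕ) (x y : Fin n → EuclideanSpace ℝ (Fin 2))
    (hA : Extremal n (Finset.univ.image (fun i => x i + y i)))
    (h : ∀ i j, dist (x i + y i) (x j + y j) = 1 → x i = x j ∨ y i = y j)
    (hx : ¬ ∀ i j, x i = x j) (hy : ¬ ∀ i j, y i = y j) :
    NInfinite (EuclideanSpace ℝ (Fin 2)) n := by
  refine ninf_transport eV.toIsometryEquiv n ?_
  refine split_crit n (fun i => eV.symm (x i)) (fun i => eV.symm (y i)) ?_ ?_ ?_ ?_
  · have h1 := extremal_image eV.toIsometryEquiv.symm n _ hA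
    rw [Finset.image_image] at h1
    have hfun : (⇑eV.toIsometryEquiv.symm ∘ fun i => x i + y i)
        = (fun i => eV.symm (x i) + eV.symm (y i)) := by
      funext i
      exact map_add eV.symm (x i) (y i)
    rw [hfun] at h1
    exact h1
  · intro i j hd
    rw [← map_add, ← map_add, eV.symm.isometry.dist_eq] at hd
    rcases h i j hd with h1 | h1
    · exact Or.inl (by simp only [h1])
    · exact Or.inr (by simp only [h1])
  · exact fun hc => hx fun i j => eV.symm.injective (hc i j)
  · exact fun hc => hy fun i j => eV.symm.injective (hc i j)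

theorem cut_crit_V (n : ℕ) (A : Finset (EuclideanSpace ℝ (Fin 2))) (hA : Extremal n A)
    (c : EuclideanSpace ℝ (Fin 2)) (hc : c ∈ A)
    (B C : Finset (EuclideanSpace ℝ (Fin 2))) (hB : B.Nonempty) (hC : C.Nonempty)
    (hBC : Disjoint B C) (hU : A.erase c = B ∪ C) (hd : ∀ b ∈ B, ∀ z ∈ C, dist b z ≠ 1) :
    NInfinite (EuclideanSpace ℝ (Fin 2)) n := by
  let g := eV.toIsometryEquiv.symm
  refine ninf_transport eV.toIsometryEquiv n ?_
  refine cut_crit n (A.image g) (extremal_image g n _ hA) (g c) (Finset.mem_image_of_mem _ hc)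
    (B.image g) (C.image g) (hB.image _) (hC.image _) ?_ ?_ ?_
  · exact (Finset.disjoint_image g.injective).mpr hBC
  · rw [← Finset.image_erase g.injective, hU, Finset.image_union]
  · intro b hb z hz
    obtain ⟨b', hb', rfl⟩ := Finset.mem_image.mp hb
    obtain ⟨z', hz', rfl⟩ := Finset.mem_image.mp hz
    rw [g.isometry.dist_eq]
    exact hd b' hb' z' hz'

end Pool.Agent.Lib.MP8b87c2
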