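import Pool.Agent.Lib.MP_8b87c2_co.Enum

/-! # One step of the certified enumeration -/

set_option autoImplicit false

namespace Pool.Agent.Lib.MP8b87c2

structure G where
  c : List ℕ
  e : ℕ
  sm : List ℕ
  ds : List ℕ
  fp : List (ℕ × ℕ × ℕ × ℕ)
  w : List (ℕ × Wit)

def smOK (k : ℕ) (c sm : List ℕ) : Bool :=
  (List.range k).all (fun a => (List.range k).all (fun x => (sm.getD a 0).testBit x == adjB c a x))

def dsOK (k : ℕ) (sm ds : List ℕ) : Bool :=
  (List.range k).all (fun a => decide (ds.getD a 0 = pop k (sm.getD a 0)))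

def fpOK (k : ℕ) (sm : List ℕ) (fp : List (ℕ × ℕ × ℕ × ℕ)) : Bool :=
  fp.all (fun q => decide (q.1 < k) && decide (q.2.1 < k) && decide (q.2.2.1 < k) &&
    decide (q.2.2.2 < k) && decide (q.1 ≠ q.2.1) && decide (q.2.2.1 ≠ q.2.2.2) &&
    (sm.getD q.1 0).testBit q.2.2.1 && (sm.getD q.1 0).testBit q.2.2.2 &&
    (sm.getD q.2.1 0).testBit q.2.2.1 && (sm.getD q.2.1 0).testBit q.2.2.2)

def triv (k f' e : ℕ) (sm ds : List ℕ) (fp : List (ℕ × ℕ × ℕ × ℕ)) (N : ℕ) : Bool :=
  decide (e + pop k N < f') ||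
  ((List.range k).any (fun i =>
    decide (ds.getD i 0 + (if N.testBit i = true then 1 else 0) < pop k N)) ||
  ((List.range k).any (fun a => decide (3 ≤ pop k (N &&& sm.getD a 0))) ||
  fp.any (fun q => N.testBit q.1 && N.testBit q.2.1)))

def okG (k f' : ℕ) (L' : List (List ℕ × ℕ)) (g : G) : Bool :=
  decide (g.c.length = k) && smOK k g.c g.sm && dsOK k g.sm g.ds && fpOK k g.sm g.fp &&
  (List.range (2 ^ k)).all (fun N => triv k f' g.e g.sm g.ds g.fp N ||
    g.w.any (fun x => decide (x.1 = N) && chkW (k + 1) L' (g.c ++ [N]) (g.e + pop k N) x.2))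

theorem adj_ext1 (k : ℕ) (c : List ℕ) (N : ℕ) (hc : c.length = k) (i j : ℕ) (hi : i < k)
    (hj : j < k) : adjB (c ++ [N]) i j = adjB c i j := by
  unfold adjB
  rw [List.getD_append _ _ _ _ (by omega), List.getD_append _ _ _ _ (by omega)]

theorem adj_ext2 (k : ℕ) (c : List ℕ) (N : ℕ) (hc : c.length = k) (j : ℕ)
    (hj : j < k) : adjB (c ++ [N]) k j = N.testBit j := by
  unfold adjB
  rw [if_pos hj, List.getD_append_right _ _ _ _ (by omega), hc, Nat.sub_self]
  rfl

open Classical

theorem no_k23 {a b x y z : ℂ} (hab : a ≠ b) (hxy : x ≠ y) (hxz : x ≠ z) (hyz : y ≠ z)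
    (h1 : dist a x = 1) (h2 : dist a y = 1) (h3 : dist a z = 1) (h4 : dist b x = 1)
    (h5 : dist b y = 1) (h6 : dist b z = 1) : False := by
  have e1 := rhombus hab hxy h1 h2 h4 h5
  have e2 := rhombus hab hxz h1 h3 h4 h6
  exact hyz (by linear_combination e2 - e1)

theorem dg_image (v : ℂ) (k : ℕ) (p : ℕ → ℂ) (hp : ∀ i j, i < k → j < k → p i = p j → i = j) :
    dg v ((Finset.range k).image p)
      = ((Finset.range k).filter (fun i => dist v (p i) = 1)).card := by
  unfold dg
  rw [Finset.filter_image, Finset.card_image_of_injOn]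
  intro i hi j hj hij
  simp only [Finset.coe_filter, Finset.mem_range, Set.mem_ofPred_eq] at hi hj
  exact hp i j hi.1 hj.1 hij

theorem step {k f f' : ℕ} {L L' : List (List ℕ × ℕ)} (T : List G)
    (hL : ∀ g ∈ L, ∃ t ∈ T, t.c = g.1 ∧ t.e = g.2) (hT : ∀ t ∈ T, okG k f' L' t = true)
    (har : ∀ E d, f' ≤ E → d * (k + 1) ≤ 2 * E → f + d ≤ E) (h : H k f L) : H (k + 1) f' L' := by
  intro A hA hud
  have hne : A.Nonempty := Finset.card_pos.mp (by omega)
  obtain ⟨v, hv, hmin, havg⟩ := exists_min A hne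
  obtain ⟨E, hE⟩ := ud_even A
  have hvB : v ∉ A.erase v := Finset.notMem_erase v A
  have hins : insert v (A.erase v) = A := Finset.insert_erase hv
  have hcB : (A.erase v).card = k := by rw [Finset.card_erase_of_mem hv, hA]; rfl
  have hdv : dg v A = dg v (A.erase v) := dg_erase v A hv
  have hudB := ud_erase v A hv
  have hf := har E (dg v (A.erase v)) (by omega) (by rw [← hdv, ← hE, ← hA]; exact havg)
  obtain ⟨g, hg, p, hp, hBp, hudg⟩ := h (A.erase v) hcB (by omega)
  obtain ⟨t, ht, htc, hte⟩ := hL g hg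
  have hok := hT t ht
  simp only [okG, Bool.and_eq_true, decide_eq_true_eq, List.all_eq_true, List.mem_range,
    Bool.or_eq_true, List.any_eq_true] at hok
  obtain ⟨⟨⟨⟨hlen, hsm⟩, hds⟩, hfp⟩, hall⟩ := hok
  simp only [smOK, List.all_eq_true, List.mem_range, beq_iff_eq] at hsm
  simp only [dsOK, List.all_eq_true, List.mem_range, decide_eq_true_eq] at hds
  simp only [fpOK, List.all_eq_true, Bool.and_eq_true, decide_eq_true_eq] at hfp
  obtain ⟨N, hN, hNq⟩ := exists_mask k (fun i => dist (p i) v = 1)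
  have hpB : ∀ i, i < k → p i ∈ A.erase v := fun i hi => by
    rw [hBp]; exact Finset.mem_image_of_mem _ (Finset.mem_range.mpr hi)
  have hpv : ∀ i, i < k → p i ≠ v := fun i hi h => hvB (h ▸ hpB i hi)
  have hpop : pop k N = dg v (A.erase v) := by
    rw [pop_eq, hBp, dg_image v k p hp.1]
    congr 1
    apply Finset.filter_congr
    intro i hi
    rw [hNq i (Finset.mem_range.mp hi), dist_comm]
  have hsmd : ∀ a, a < k → ∀ x, x < k → ((t.sm.getD a 0).testBit x = true ↔ dist (p a) (p x) = 1) := by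
    intro a ha x hx
    rw [hsm a ha x hx, htc]
    by_cases hax : a = x
    · subst hax
      rw [adjB_self, dist_self]
      simp
    · exact hp.2 a x ha hx hax
  have hdeg : ∀ i, i < k → t.ds.getD i 0 = dg (p i) (A.erase v) := by
    intro i hi
    rw [hds i hi, pop_eq, hBp, dg_image (p i) k p hp.1]
    congr 1
    apply Finset.filter_congr
    intro x hx
    exact hsmd i hi x (Finset.mem_range.mp hx)
  have hR : Realize (k + 1) (t.c ++ [N]) (Function.update p k v) := by
    have u1 : ∀ i, i < k → Function.update p k v i = p i := fun i hi =>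
      Function.update_of_ne (by omega) _ _
    have u2 : Function.update p k v k = v := Function.update_self _ _ _
    constructor
    · intro i j hi hj hij
      rcases Nat.lt_succ_iff_lt_or_eq.mp hi with hi | hi <;>
        rcases Nat.lt_succ_iff_lt_or_eq.mp hj with hj | hj
      · rw [u1 i hi, u1 j hj] at hij
        exact hp.1 i j hi hj hij
      · subst hj
        rw [u1 i hi, u2] at hij
        exact absurd hij (hpv i hi)
      · subst hi
        rw [u1 j hj, u2] at hij
        exact absurd hij.symm (hpv j hj)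
      · omega
    · intro i j hi hj hij
      rcases Nat.lt_succ_iff_lt_or_eq.mp hi with hi | hi <;>
        rcases Nat.lt_succ_iff_lt_or_eq.mp hj with hj | hj
      · rw [u1 i hi, u1 j hj, adj_ext1 k t.c N hlen i j hi hj, htc]
        exact hp.2 i j hi hj hij
      · subst hj
        rw [u1 i hi, u2, adjB_comm, adj_ext2 _ t.c N hlen i hi]
        exact hNq i hi
      · subst hi
        rw [u1 j hj, u2, adj_ext2 _ t.c N hlen j hj, hNq j hj, dist_comm]
      · omega
  have himg : A = (Finset.range (k + 1)).image (Function.update p k v) := by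
    rw [Finset.range_add_one, Finset.image_insert, Function.update_self]
    rw [Finset.image_congr (g := p) (s := Finset.range k)
      (fun i hi => Function.update_of_ne (by
        have := Finset.mem_range.mp (Finset.mem_coe.mp hi)
        omega) _ _), ← hBp, hins]
  have hudA : ud A = 2 * (t.e + pop k N) := by rw [hudB, hudg, hpop, hte]; ring
  rcases hall N hN with htr | ⟨x, _, hx1, hx2⟩
  · exfalso
    simp only [triv, Bool.or_eq_true, decide_eq_true_eq, List.any_eq_true, List.mem_range,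
      Bool.and_eq_true] at htr
    rcases htr with h1 | ⟨i, hi, h2⟩ | ⟨a, ha, h3⟩ | ⟨q, hq, h4, h5⟩
    · omega
    · have hm := hmin (p i) (Finset.mem_of_mem_erase (hpB i hi))
      have hd2 : dg (p i) A = dg (p i) (A.erase v) + (if dist (p i) v = 1 then 1 else 0) := by
        conv_lhs => rw [← hins]
        exact dg_insert (p i) v _ hvB
      rw [hd2, hdv, ← hpop, ← hdeg i hi] at hm
      by_cases hd : dist (p i) v = 1
      · rw [if_pos ((hNq i hi).mpr hd)] at h2
        rw [if_pos hd] at hm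
        omega
      · rw [if_neg (fun h => hd ((hNq i hi).mp h))] at h2
        rw [if_neg hd] at hm
        omega
    · rw [pop_eq] at h3
      obtain ⟨x, y, z, hx, hy, hz, hxy, hxz, hyz⟩ :=
        Finset.two_lt_card_iff.mp (lt_of_lt_of_le (by norm_num) h3)
      simp only [Finset.mem_filter, Finset.mem_range, Nat.testBit_and, Bool.and_eq_true] at hx hy hz
      exact no_k23 (a := v) (b := p a) (hpv a ha).symm
        (fun h => hxy (hp.1 x y hx.1 hy.1 h)) (fun h => hxz (hp.1 x z hx.1 hz.1 h))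
        (fun h => hyz (hp.1 y z hy.1 hz.1 h))
        (by rw [dist_comm]; exact (hNq x hx.1).mp hx.2.1)
        (by rw [dist_comm]; exact (hNq y hy.1).mp hy.2.1)
        (by rw [dist_comm]; exact (hNq z hz.1).mp hz.2.1)
        ((hsmd a ha x hx.1).mp hx.2.2) ((hsmd a ha y hy.1).mp hy.2.2)
        ((hsmd a ha z hz.1).mp hz.2.2)
    · obtain ⟨⟨⟨⟨⟨⟨⟨⟨⟨ha, hb⟩, hx⟩, hy⟩, hab⟩, hxy⟩, e1⟩, e2⟩, e3⟩, e4⟩ := hfp q hq
      exact no_k23 (a := p q.1) (b := p q.2.1) (x := v) (y := p q.2.2.1) (z := p q.2.2.2)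
        (fun h => hab (hp.1 _ _ ha hb h)) (hpv _ hx).symm (hpv _ hy).symm
        (fun h => hxy (hp.1 _ _ hx hy h)) ((hNq _ ha).mp h4)
        ((hsmd _ ha _ hx).mp e1) ((hsmd _ ha _ hy).mp e2) ((hNq _ hb).mp h5)
        ((hsmd _ hb _ hx).mp e3) ((hsmd _ hb _ hy).mp e4)
  · subst hx1
    obtain ⟨c', hc', p', hp', himg'⟩ := chkW_sound _ _ _ _ _ hx2 _ hR
    exact ⟨(c', _), hc', p', hp', by rw [himg, himg'], by rw [hudA]⟩

theorem H1 : H 1 0 [([0], 0)] := by
  intro A hA _
  obtain ⟨a, rfl⟩ := Finset.card_eq_one.mp hA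
  refine ⟨([0], 0), by simp, fun _ => a, ⟨?_, ?_⟩, ?_, ?_⟩
  · intro i j hi hj _
    omega
  · intro i j hi hj hij
    omega
  · simp
  · simp [ud]

end Pool.Agent.Lib.MP8b87c2
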