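import Pool.Agent.Lib.MP_8b87c2_co.Step

/-! # Tables of the enumeration (generated) -/

set_option autoImplicit false
set_option maxRecDepth 100000

namespace Pool.Agent.Lib.MP8b87c2

def L1 : List (List ℕ × ℕ) := [([0], 0)]

def L2 : List (List ℕ × ℕ) := [([0, 1], 1)]

def L3 : List (List ℕ × ℕ) := [([0, 0, 3], 2),
  ([0, 1, 3], 3)]

def L4 : List (List ℕ × ℕ) := [([0, 1, 1, 6], 4),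
  ([0, 0, 2, 7], 4),
  ([0, 0, 3, 7], 5)]

def L5 : List (List ℕ × ℕ) := [([0, 1, 0, 5, 14], 6),
  ([0, 1, 0, 4, 15], 6),
  ([0, 0, 1, 6, 14], 6),
  ([0, 0, 0, 6, 15], 6),
  ([0, 0, 1, 6, 15], 7)]

def L6 : List (List ℕ × ℕ) := [([0, 0, 1, 5, 6, 26], 8),
  ([0, 1, 3, 1, 10, 28], 9),
  ([0, 0, 0, 3, 5, 30], 8),
  ([0, 1, 0, 1, 12, 30], 8),
  ([0, 1, 0, 0, 13, 30], 8),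
  ([0, 1, 0, 4, 12, 27], 8),
  ([0, 1, 0, 0, 12, 31], 8),
  ([0, 1, 1, 2, 12, 28], 8),
  ([0, 0, 1, 2, 12, 30], 8),
  ([0, 0, 0, 2, 13, 30], 8),
  ([0, 0, 1, 2, 13, 30], 9),
  ([0, 0, 0, 3, 13, 30], 9),
  ([0, 0, 0, 2, 12, 31], 8),
  ([0, 0, 1, 2, 12, 31], 9)]

def L7 : List (List ℕ × ℕ) := [([0, 1, 1, 2, 10, 12, 52], 10),
  ([0, 0, 1, 5, 2, 20, 58], 10),
  ([0, 0, 0, 1, 9, 14, 54], 10),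
  ([0, 0, 0, 1, 10, 13, 54], 10),
  ([0, 0, 2, 6, 2, 20, 57], 10),
  ([0, 0, 2, 6, 2, 21, 57], 11),
  ([0, 0, 2, 2, 12, 7, 57], 11),
  ([0, 0, 1, 1, 6, 10, 60], 10),
  ([0, 0, 0, 3, 4, 21, 58], 10),
  ([0, 0, 0, 3, 1, 20, 62], 10),
  ([0, 0, 0, 0, 3, 13, 62], 10),
  ([0, 0, 3, 1, 4, 24, 58], 10),
  ([0, 0, 3, 1, 2, 24, 60], 10),
  ([0, 1, 0, 1, 4, 26, 60], 10),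
  ([0, 1, 0, 0, 5, 26, 60], 10),
  ([0, 1, 0, 1, 4, 24, 62], 10),
  ([0, 1, 0, 0, 4, 25, 62], 10),
  ([0, 0, 1, 5, 2, 18, 60], 10),
  ([0, 0, 3, 1, 8, 24, 54], 10),
  ([0, 1, 1, 5, 2, 18, 60], 11),
  ([0, 1, 0, 4, 8, 19, 60], 10),
  ([0, 0, 0, 6, 1, 17, 62], 10),
  ([0, 1, 0, 0, 4, 28, 59], 10),
  ([0, 0, 0, 0, 3, 12, 63], 10),
  ([0, 1, 0, 0, 4, 24, 63], 10),
  ([0, 1, 3, 2, 4, 24, 56], 10),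
  ([0, 0, 3, 4, 8, 24, 51], 10),
  ([0, 1, 0, 1, 8, 22, 60], 10),
  ([0, 1, 1, 2, 4, 24, 60], 10),
  ([0, 0, 1, 2, 4, 26, 60], 10),
  ([0, 1, 1, 2, 4, 26, 60], 11),
  ([0, 0, 0, 2, 5, 26, 60], 10),
  ([0, 0, 1, 2, 5, 26, 60], 11),
  ([0, 0, 0, 2, 4, 26, 61], 10),
  ([0, 0, 2, 1, 4, 25, 62], 11),
  ([0, 0, 0, 1, 6, 26, 61], 11),
  ([0, 0, 0, 1, 6, 26, 60], 10),
  ([0, 0, 0, 0, 6, 26, 61], 10),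
  ([0, 0, 1, 2, 4, 24, 62], 10),
  ([0, 0, 0, 2, 8, 21, 62], 10),
  ([0, 0, 0, 2, 4, 25, 62], 10),
  ([0, 0, 0, 2, 4, 24, 63], 10),
  ([0, 1, 1, 2, 4, 24, 63], 12)]

def L8 : List (List ℕ × ℕ) := [([0, 1, 1, 6, 0, 16, 51, 60], 13),
  ([0, 1, 3, 1, 2, 8, 52, 120], 13),
  ([0, 1, 1, 2, 4, 8, 53, 58], 13),
  ([0, 1, 0, 4, 0, 29, 22, 90], 13),
  ([0, 0, 0, 0, 13, 14, 21, 106], 13),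
  ([0, 1, 0, 4, 5, 21, 26, 106], 14),
  ([0, 0, 0, 4, 13, 6, 42, 113], 13),
  ([0, 1, 0, 4, 12, 4, 42, 115], 13),
  ([0, 0, 0, 4, 4, 13, 26, 115], 13),
  ([0, 0, 0, 4, 12, 5, 42, 115], 13),
  ([0, 0, 0, 4, 5, 25, 22, 106], 13),
  ([0, 1, 0, 4, 5, 25, 22, 106], 14),
  ([0, 1, 0, 4, 4, 24, 14, 115], 13),
  ([0, 0, 0, 4, 4, 24, 15, 115], 13),
  ([0, 1, 3, 1, 8, 16, 38, 120], 13),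
  ([0, 0, 2, 0, 8, 7, 57, 30], 13),
  ([0, 0, 2, 6, 0, 19, 49, 92], 13),
  ([0, 0, 0, 4, 2, 15, 19, 92], 13),
  ([0, 1, 0, 0, 7, 11, 28, 108], 14),
  ([0, 0, 2, 2, 4, 11, 21, 120], 13),
  ([0, 0, 2, 2, 10, 4, 37, 121], 13),
  ([0, 1, 1, 2, 0, 21, 26, 124], 14),
  ([0, 1, 2, 4, 0, 19, 28, 120], 13),
  ([0, 0, 0, 0, 7, 11, 28, 108], 13),
  ([0, 1, 2, 2, 4, 9, 52, 120], 13),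
  ([0, 0, 1, 4, 3, 18, 44, 120], 13),
  ([0, 1, 1, 2, 5, 10, 52, 120], 14),
  ([0, 1, 2, 2, 4, 8, 52, 121], 13),
  ([0, 0, 1, 4, 0, 19, 28, 122], 13),
  ([0, 0, 1, 1, 4, 10, 56, 118], 13),
  ([0, 1, 1, 2, 4, 10, 52, 120], 13),
  ([0, 0, 1, 2, 5, 10, 52, 120], 13),
  ([0, 0, 2, 1, 4, 9, 56, 118], 13),
  ([0, 0, 0, 1, 2, 24, 45, 118], 13),
  ([0, 0, 0, 1, 6, 9, 50, 124], 13),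
  ([0, 1, 1, 4, 2, 8, 50, 124], 13),
  ([0, 0, 1, 2, 0, 21, 26, 124], 13),
  ([0, 0, 1, 2, 4, 8, 53, 122], 13),
  ([0, 0, 0, 1, 2, 12, 54, 121], 13),
  ([0, 0, 0, 0, 3, 12, 53, 122], 13),
  ([0, 0, 2, 2, 4, 8, 49, 126], 13),
  ([0, 0, 2, 2, 4, 9, 49, 126], 14),
  ([0, 0, 2, 2, 4, 8, 48, 127], 13)]

def L9 : List (List ℕ × ℕ) := [([0, 1, 0, 4, 0, 3, 52, 120, 31], 16),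
  ([0, 1, 1, 0, 0, 11, 22, 56, 220], 16),
  ([0, 0, 0, 0, 7, 11, 21, 42, 204], 16),
  ([0, 1, 0, 0, 5, 26, 21, 42, 204], 16),
  ([0, 1, 1, 0, 11, 6, 36, 88, 232], 16),
  ([0, 0, 1, 2, 0, 23, 10, 81, 220], 16),
  ([0, 1, 1, 0, 0, 26, 42, 84, 157], 16),
  ([0, 1, 0, 0, 7, 25, 6, 76, 232], 16),
  ([0, 1, 0, 4, 0, 7, 49, 88, 158], 16),
  ([0, 1, 1, 0, 8, 10, 50, 100, 157], 16),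
  ([0, 0, 2, 1, 9, 10, 42, 52, 212], 16),
  ([0, 0, 0, 3, 5, 18, 50, 44, 204], 16),
  ([0, 0, 2, 0, 9, 10, 42, 52, 213], 16),
  ([0, 0, 2, 0, 8, 10, 52, 43, 213], 16),
  ([0, 0, 2, 1, 9, 10, 50, 44, 212], 16),
  ([0, 1, 3, 1, 9, 10, 50, 44, 212], 18),
  ([0, 0, 2, 0, 9, 10, 44, 50, 213], 16),
  ([0, 0, 0, 4, 2, 6, 42, 53, 217], 16),
  ([0, 1, 0, 0, 3, 21, 26, 44, 204], 16),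
  ([0, 1, 0, 0, 7, 11, 12, 84, 232], 16),
  ([0, 1, 1, 2, 0, 26, 5, 84, 248], 16),
  ([0, 1, 0, 4, 0, 19, 7, 56, 220], 16),
  ([0, 1, 2, 1, 4, 0, 41, 54, 248], 16),
  ([0, 0, 0, 3, 1, 14, 26, 52, 212], 16),
  ([0, 0, 0, 0, 5, 22, 42, 74, 157], 16),
  ([0, 0, 2, 0, 1, 14, 56, 88, 151], 16),
  ([0, 0, 0, 3, 14, 9, 33, 100, 214], 17),
  ([0, 0, 0, 0, 3, 22, 26, 44, 205], 16),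
  ([0, 0, 2, 0, 1, 14, 22, 88, 185], 16),
  ([0, 0, 2, 0, 0, 14, 56, 23, 217], 16),
  ([0, 0, 0, 0, 3, 21, 26, 45, 206], 17),
  ([0, 0, 0, 0, 3, 21, 26, 44, 206], 16),
  ([0, 0, 2, 0, 3, 17, 14, 56, 236], 16),
  ([0, 0, 0, 0, 7, 3, 42, 28, 236], 16),
  ([0, 0, 2, 0, 0, 11, 22, 57, 220], 16),
  ([0, 0, 2, 0, 0, 11, 56, 23, 220], 16),
  ([0, 0, 2, 2, 4, 1, 42, 53, 248], 16),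
  ([0, 1, 0, 0, 5, 25, 6, 74, 252], 17),
  ([0, 1, 2, 1, 4, 9, 40, 112, 214], 16),
  ([0, 0, 0, 3, 13, 10, 20, 98, 228], 16),
  ([0, 0, 2, 3, 9, 6, 36, 88, 240], 16),
  ([0, 0, 0, 7, 3, 12, 18, 100, 240], 16),
  ([0, 0, 3, 5, 6, 9, 18, 104, 240], 17),
  ([0, 0, 2, 3, 5, 10, 20, 104, 240], 16),
  ([0, 0, 2, 0, 11, 6, 36, 104, 217], 16),
  ([0, 0, 2, 0, 11, 24, 36, 104, 199], 16),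
  ([0, 0, 2, 2, 5, 10, 20, 104, 241], 16),
  ([0, 0, 2, 2, 4, 10, 48, 85, 233], 16),
  ([0, 1, 1, 2, 5, 10, 20, 104, 240], 16),
  ([0, 1, 0, 4, 0, 21, 10, 82, 252], 16),
  ([0, 0, 0, 0, 5, 25, 6, 74, 252], 16),
  ([0, 0, 0, 4, 5, 10, 17, 98, 252], 16),
  ([0, 1, 0, 4, 4, 8, 18, 99, 252], 16),
  ([0, 0, 0, 4, 4, 9, 18, 99, 252], 16)]

def L10 : List (List ℕ × ℕ) := [([0, 0, 2, 2, 10, 12, 52, 6, 169, 465], 20),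
  ([0, 0, 1, 2, 1, 18, 12, 76, 117, 186], 20),
  ([0, 0, 0, 0, 1, 18, 13, 78, 117, 186], 20),
  ([0, 0, 0, 1, 9, 10, 44, 18, 149, 486], 20),
  ([0, 0, 1, 2, 4, 24, 52, 56, 71, 395], 20)]

def L11 : List (List ℕ × ℕ) := []

def T1 : List G := [
  ⟨[0], 0, [0], [0], [],
    [(1, .perm [0, 1] [0, 1] 1)]⟩]

def T2 : List G := [
  ⟨[0, 1], 1, [2, 1], [1, 1], [],
    [(1, .perm [1, 2, 0] [0, 0, 3] 2),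
    (2, .perm [0, 2, 1] [0, 0, 3] 2),
    (3, .perm [0, 1, 2] [0, 1, 3] 3)]⟩]

def T3 : List G := [
  ⟨[0, 0, 3], 2, [4, 4, 3], [1, 1, 2], [],
    [(3, .perm [0, 2, 3, 1] [0, 1, 1, 6] 4)]⟩,
  ⟨[0, 1, 3], 3, [6, 5, 3], [2, 2, 2], [],
    [(1, .perm [3, 1, 2, 0] [0, 0, 2, 7] 4),
    (2, .perm [3, 0, 2, 1] [0, 0, 2, 7] 4),
    (3, .perm [2, 3, 0, 1] [0, 0, 3, 7] 5),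
    (4, .perm [3, 0, 1, 2] [0, 0, 2, 7] 4),
    (5, .perm [1, 3, 0, 2] [0, 0, 3, 7] 5),
    (6, .perm [0, 3, 1, 2] [0, 0, 3, 7] 5),
    (7, .k4 1 0 2 3)]⟩]

def T4 : List G := [
  ⟨[0, 1, 1, 6], 4, [6, 9, 9, 6], [2, 2, 2, 2], [(2, 1, 0, 3), (3, 0, 1, 2)],
    [(3, .perm [2, 3, 4, 0, 1] [0, 1, 0, 5, 14] 6),
    (5, .perm [1, 3, 4, 0, 2] [0, 1, 0, 5, 14] 6),
    (10, .perm [0, 2, 4, 1, 3] [0, 1, 0, 5, 14] 6),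
    (12, .perm [0, 1, 4, 2, 3] [0, 1, 0, 5, 14] 6)]⟩,
  ⟨[0, 0, 2, 7], 4, [8, 12, 10, 7], [1, 2, 2, 3], [],
    [(3, .perm [0, 4, 2, 3, 1] [0, 1, 0, 5, 14] 6),
    (5, .perm [0, 4, 1, 3, 2] [0, 1, 0, 5, 14] 6),
    (9, .perm [0, 4, 1, 2, 3] [0, 1, 0, 4, 15] 6)]⟩,
  ⟨[0, 0, 3, 7], 5, [12, 12, 11, 7], [2, 2, 3, 3], [(1, 0, 2, 3), (3, 2, 0, 1)],
    [(1, .perm [4, 1, 0, 2, 3] [0, 0, 1, 6, 14] 6),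
    (2, .perm [4, 0, 1, 2, 3] [0, 0, 1, 6, 14] 6),
    (4, .perm [4, 0, 1, 3, 2] [0, 0, 0, 6, 15] 6),
    (5, .perm [1, 4, 3, 0, 2] [0, 0, 1, 6, 15] 7),
    (6, .perm [0, 4, 3, 1, 2] [0, 0, 1, 6, 15] 7),
    (8, .perm [4, 0, 1, 2, 3] [0, 0, 0, 6, 15] 6),
    (9, .perm [1, 4, 2, 0, 3] [0, 0, 1, 6, 15] 7),
    (10, .perm [0, 4, 2, 1, 3] [0, 0, 1, 6, 15] 7)]⟩]

def T5 : List G := [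
  ⟨[0, 1, 0, 5, 14], 6, [10, 17, 24, 21, 14], [2, 2, 2, 3, 3], [(3, 1, 0, 4), (4, 0, 1, 3)],
    [(3, .perm [2, 5, 3, 4, 0, 1] [0, 0, 1, 5, 6, 26] 8),
    (5, .eqd 5 1 2 4 [(-1, 2, 0, 3, 5), (-1, 3, 1, 0, 4)] 1),
    (6, .eqd 5 0 2 3 [(-1, 2, 1, 4, 5), (1, 3, 1, 0, 4)] 1),
    (7, .perm [0, 1, 5, 3, 4, 2] [0, 1, 3, 1, 10, 28] 9),
    (9, .perm [1, 2, 5, 4, 0, 3] [0, 0, 0, 3, 5, 30] 8),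
    (12, .perm [1, 0, 5, 4, 2, 3] [0, 1, 0, 1, 12, 30] 8),
    (18, .perm [0, 2, 5, 3, 1, 4] [0, 0, 0, 3, 5, 30] 8),
    (20, .perm [0, 1, 5, 3, 2, 4] [0, 1, 0, 1, 12, 30] 8),
    (24, .perm [0, 1, 2, 5, 3, 4] [0, 1, 0, 0, 13, 30] 8)]⟩,
  ⟨[0, 1, 0, 4, 15], 6, [18, 17, 24, 20, 15], [2, 2, 2, 2, 4], [],
    [(3, .perm [2, 3, 5, 0, 1, 4] [0, 1, 0, 4, 12, 27] 8),
    (5, .perm [5, 1, 3, 0, 2, 4] [0, 0, 0, 3, 5, 30] 8),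
    (6, .perm [5, 0, 3, 1, 2, 4] [0, 0, 0, 3, 5, 30] 8),
    (9, .perm [5, 1, 2, 0, 3, 4] [0, 0, 0, 3, 5, 30] 8),
    (10, .perm [5, 0, 2, 1, 3, 4] [0, 0, 0, 3, 5, 30] 8),
    (12, .perm [0, 1, 5, 2, 3, 4] [0, 1, 0, 4, 12, 27] 8),
    (17, .perm [2, 3, 1, 5, 0, 4] [0, 1, 0, 0, 12, 31] 8),
    (18, .perm [2, 3, 0, 5, 1, 4] [0, 1, 0, 0, 12, 31] 8),
    (20, .perm [0, 1, 3, 5, 2, 4] [0, 1, 0, 0, 12, 31] 8),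
    (24, .perm [0, 1, 2, 5, 3, 4] [0, 1, 0, 0, 12, 31] 8)]⟩,
  ⟨[0, 0, 1, 6, 14], 6, [4, 24, 25, 22, 14], [1, 2, 3, 3, 3], [(2, 1, 3, 4), (4, 3, 1, 2)],
    [(3, .perm [0, 5, 2, 1, 3, 4] [0, 1, 1, 2, 12, 28] 8),
    (5, .perm [0, 5, 1, 3, 4, 2] [0, 1, 0, 4, 12, 27] 8),
    (9, .perm [0, 5, 1, 2, 4, 3] [0, 1, 0, 1, 12, 30] 8),
    (17, .perm [0, 5, 1, 2, 3, 4] [0, 1, 0, 1, 12, 30] 8)]⟩,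
  ⟨[0, 0, 0, 6, 15], 6, [16, 24, 24, 22, 15], [1, 2, 2, 3, 4], [(2, 1, 3, 4), (4, 3, 1, 2)],
    [(3, .perm [5, 0, 2, 1, 3, 4] [0, 1, 0, 1, 12, 30] 8),
    (5, .perm [5, 0, 1, 2, 3, 4] [0, 1, 0, 1, 12, 30] 8),
    (9, .perm [0, 5, 1, 2, 4, 3] [0, 1, 0, 0, 13, 30] 8),
    (17, .perm [0, 5, 1, 2, 3, 4] [0, 1, 0, 0, 12, 31] 8)]⟩,
  ⟨[0, 0, 1, 6, 15], 7, [20, 24, 25, 22, 15], [2, 2, 3, 3, 4], [(2, 1, 3, 4), (3, 0, 2, 4), (4, 2, 0, 3), (4, 3, 1, 2)],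
    [(1, .perm [5, 1, 0, 3, 2, 4] [0, 0, 1, 2, 12, 30] 8),
    (2, .perm [5, 0, 1, 2, 3, 4] [0, 0, 1, 2, 12, 30] 8),
    (3, .coin 5 4 [(-1, 1, 0, 4, 5), (1, 2, 1, 3, 4), (1, 3, 0, 2, 4)] 1),
    (4, .perm [5, 1, 0, 3, 2, 4] [0, 0, 0, 2, 13, 30] 8),
    (5, .perm [1, 5, 3, 0, 4, 2] [0, 0, 1, 2, 13, 30] 9),
    (8, .perm [5, 0, 1, 2, 3, 4] [0, 0, 0, 2, 13, 30] 8),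
    (10, .perm [0, 5, 2, 1, 4, 3] [0, 0, 1, 2, 13, 30] 9),
    (12, .perm [0, 1, 5, 4, 2, 3] [0, 0, 0, 3, 13, 30] 9),
    (16, .perm [5, 0, 1, 2, 3, 4] [0, 0, 0, 2, 12, 31] 8),
    (17, .perm [1, 5, 3, 0, 2, 4] [0, 0, 1, 2, 12, 31] 9),
    (18, .perm [0, 5, 2, 1, 3, 4] [0, 0, 1, 2, 12, 31] 9),
    (19, .coin 4 0 [(-1, 2, 1, 3, 4), (-1, 4, 0, 2, 5), (1, 4, 1, 3, 5)] 1)]⟩]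

def T6 : List G := [
  ⟨[0, 0, 1, 5, 6, 26], 8, [12, 48, 25, 37, 38, 26], [2, 2, 3, 3, 3, 3], [(4, 3, 2, 5), (5, 2, 3, 4)],
    [(3, .perm [6, 0, 1, 2, 3, 4, 5] [0, 1, 1, 2, 10, 12, 52] 10),
    (5, .perm [1, 6, 5, 4, 0, 3, 2] [0, 0, 1, 5, 2, 20, 58] 10),
    (6, .eqd 6 3 1 5 [(-1, 2, 1, 4, 6), (-1, 4, 3, 2, 5)] 1),
    (7, .eqd 6 3 1 5 [(-1, 2, 1, 4, 6), (-1, 4, 3, 2, 5)] 1),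
    (9, .perm [1, 6, 4, 5, 0, 2, 3] [0, 0, 1, 5, 2, 20, 58] 10),
    (10, .eqd 6 2 1 4 [(-1, 3, 1, 5, 6), (1, 4, 3, 2, 5)] 1),
    (11, .eqd 6 2 1 4 [(-1, 3, 1, 5, 6), (1, 4, 3, 2, 5)] 1),
    (12, .perm [1, 0, 6, 4, 5, 2, 3] [0, 0, 0, 1, 9, 14, 54] 10),
    (17, .eqd 6 5 0 3 [(-1, 4, 0, 2, 6), (1, 4, 3, 2, 5)] 1),
    (18, .perm [0, 6, 3, 2, 1, 5, 4] [0, 0, 1, 5, 2, 20, 58] 10),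
    (19, .eqd 6 5 0 3 [(-1, 4, 0, 2, 6), (1, 4, 3, 2, 5)] 1),
    (20, .perm [0, 1, 6, 3, 5, 2, 4] [0, 0, 0, 1, 10, 13, 54] 10),
    (33, .eqd 6 4 0 2 [(-1, 4, 3, 2, 5), (-1, 5, 0, 3, 6)] 1),
    (34, .perm [0, 6, 2, 3, 1, 4, 5] [0, 0, 1, 5, 2, 20, 58] 10),
    (35, .eqd 6 4 0 2 [(-1, 4, 3, 2, 5), (-1, 5, 0, 3, 6)] 1),
    (40, .perm [0, 1, 6, 2, 4, 3, 5] [0, 0, 0, 1, 10, 13, 54] 10),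
    (48, .perm [0, 1, 6, 2, 3, 4, 5] [0, 0, 0, 1, 9, 14, 54] 10)]⟩,
  ⟨[0, 1, 3, 1, 10, 28], 9, [14, 21, 35, 49, 42, 28], [3, 3, 3, 3, 3, 3], [(3, 1, 0, 4), (3, 2, 0, 5), (4, 0, 1, 3), (4, 2, 1, 5), (5, 0, 2, 3), (5, 1, 2, 4)],
    [(1, .perm [6, 4, 5, 3, 1, 2, 0] [0, 0, 2, 6, 2, 20, 57] 10),
    (2, .perm [6, 3, 5, 4, 0, 2, 1] [0, 0, 2, 6, 2, 20, 57] 10),
    (3, .perm [6, 5, 3, 4, 2, 0, 1] [0, 0, 2, 6, 2, 21, 57] 11),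
    (4, .perm [6, 3, 4, 5, 0, 1, 2] [0, 0, 2, 6, 2, 20, 57] 10),
    (5, .perm [6, 4, 3, 5, 1, 0, 2] [0, 0, 2, 6, 2, 21, 57] 11),
    (6, .perm [6, 3, 4, 5, 0, 1, 2] [0, 0, 2, 6, 2, 21, 57] 11),
    (7, .k4 1 0 2 6),
    (8, .perm [6, 1, 2, 0, 4, 5, 3] [0, 0, 2, 6, 2, 20, 57] 10),
    (9, .perm [6, 1, 2, 4, 5, 0, 3] [0, 0, 2, 2, 12, 7, 57] 11),
    (16, .perm [6, 0, 2, 1, 3, 5, 4] [0, 0, 2, 6, 2, 20, 57] 10),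
    (18, .perm [6, 0, 2, 3, 5, 1, 4] [0, 0, 2, 2, 12, 7, 57] 11),
    (24, .perm [6, 2, 0, 1, 5, 3, 4] [0, 0, 2, 6, 2, 21, 57] 11),
    (32, .perm [6, 0, 1, 2, 3, 4, 5] [0, 0, 2, 6, 2, 20, 57] 10),
    (36, .perm [6, 0, 1, 3, 4, 2, 5] [0, 0, 2, 2, 12, 7, 57] 11),
    (40, .perm [6, 1, 0, 2, 4, 3, 5] [0, 0, 2, 6, 2, 21, 57] 11),
    (48, .perm [6, 0, 1, 2, 3, 4, 5] [0, 0, 2, 6, 2, 21, 57] 11),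
    (56, .k4 4 3 5 6)]⟩,
  ⟨[0, 0, 0, 3, 5, 30], 8, [24, 40, 48, 35, 37, 30], [2, 2, 2, 3, 3, 4], [(4, 3, 0, 5), (5, 0, 3, 4)],
    [(3, .eqd 6 4 1 5 [(-1, 1, 0, 3, 6), (-1, 4, 3, 0, 5)] 1),
    (5, .eqd 6 3 2 5 [(-1, 2, 0, 4, 6), (-1, 4, 3, 0, 5)] 1),
    (6, .perm [0, 6, 3, 4, 1, 2, 5] [0, 0, 1, 1, 6, 10, 60] 10),
    (7, .coin 3 1 [(1, 2, 0, 4, 6), (-1, 2, 1, 5, 6), (1, 4, 3, 0, 5)] 1),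
    (9, .perm [2, 6, 1, 4, 0, 5, 3] [0, 0, 0, 1, 10, 13, 54] 10),
    (10, .perm [0, 2, 6, 4, 1, 3, 5] [0, 0, 0, 3, 4, 21, 58] 10),
    (12, .eqd 6 0 2 4 [(-1, 3, 2, 5, 6), (1, 4, 3, 0, 5)] 1),
    (17, .perm [1, 6, 2, 3, 0, 5, 4] [0, 0, 0, 1, 10, 13, 54] 10),
    (18, .eqd 6 0 1 3 [(-1, 4, 1, 5, 6), (1, 4, 3, 0, 5)] 1),
    (20, .perm [0, 1, 6, 3, 2, 4, 5] [0, 0, 0, 3, 4, 21, 58] 10),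
    (34, .perm [0, 2, 6, 4, 3, 1, 5] [0, 0, 0, 3, 1, 20, 62] 10),
    (36, .perm [0, 1, 6, 3, 4, 2, 5] [0, 0, 0, 3, 1, 20, 62] 10),
    (40, .perm [0, 2, 1, 6, 4, 3, 5] [0, 0, 0, 0, 3, 13, 62] 10),
    (48, .perm [0, 1, 2, 6, 3, 4, 5] [0, 0, 0, 0, 3, 13, 62] 10)]⟩,
  ⟨[0, 1, 0, 1, 12, 30], 8, [10, 33, 48, 49, 44, 30], [2, 2, 2, 3, 3, 4], [(3, 1, 0, 5), (3, 2, 4, 5), (5, 0, 1, 3), (5, 4, 2, 3)],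
    [(3, .perm [6, 2, 0, 1, 4, 3, 5] [0, 0, 1, 5, 2, 20, 58] 10),
    (5, .perm [6, 1, 0, 2, 3, 4, 5] [0, 0, 3, 1, 4, 24, 58] 10),
    (6, .perm [0, 6, 1, 3, 2, 4, 5] [0, 0, 3, 1, 2, 24, 60] 10),
    (7, .eqd 3 2 0 6 [(-1, 2, 1, 5, 6), (1, 3, 1, 0, 5)] 1),
    (9, .perm [1, 6, 2, 0, 4, 5, 3] [0, 0, 0, 3, 4, 21, 58] 10),
    (17, .eqd 6 1 4 5 [(-1, 3, 1, 0, 5), (-1, 4, 0, 3, 6)] 1),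
    (18, .eqd 6 0 2 5 [(1, 3, 1, 0, 5), (-1, 3, 2, 4, 5), (-1, 4, 1, 5, 6)] 1),
    (20, .perm [0, 1, 6, 3, 2, 5, 4] [0, 1, 0, 1, 4, 26, 60] 10),
    (24, .perm [0, 1, 6, 2, 3, 5, 4] [0, 1, 0, 0, 5, 26, 60] 10),
    (34, .perm [0, 6, 2, 1, 3, 4, 5] [0, 0, 0, 3, 1, 20, 62] 10),
    (36, .perm [0, 1, 6, 3, 2, 4, 5] [0, 1, 0, 1, 4, 24, 62] 10),
    (40, .perm [0, 1, 2, 6, 4, 3, 5] [0, 1, 0, 0, 4, 25, 62] 10)]⟩,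
  ⟨[0, 1, 0, 0, 13, 30], 8, [18, 33, 48, 48, 45, 30], [2, 2, 2, 2, 4, 4], [(3, 2, 4, 5), (4, 1, 0, 5), (5, 0, 1, 4), (5, 4, 2, 3)],
    [(3, .perm [6, 2, 3, 0, 1, 4, 5] [0, 0, 0, 1, 9, 14, 54] 10),
    (5, .eqd 6 1 2 5 [(-1, 2, 0, 4, 6), (-1, 4, 1, 0, 5)] 1),
    (6, .eqd 6 0 2 4 [(-1, 2, 1, 5, 6), (1, 4, 1, 0, 5)] 1),
    (9, .eqd 6 1 3 5 [(-1, 3, 0, 4, 6), (-1, 4, 1, 0, 5)] 1),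
    (10, .eqd 6 0 3 4 [(-1, 3, 1, 5, 6), (1, 4, 1, 0, 5)] 1),
    (17, .perm [1, 6, 2, 3, 0, 5, 4] [0, 0, 0, 0, 3, 13, 62] 10),
    (20, .perm [1, 0, 6, 3, 2, 5, 4] [0, 1, 0, 0, 4, 25, 62] 10),
    (24, .perm [1, 0, 6, 2, 3, 5, 4] [0, 1, 0, 0, 4, 25, 62] 10),
    (34, .perm [0, 6, 2, 3, 1, 4, 5] [0, 0, 0, 0, 3, 13, 62] 10),
    (36, .perm [0, 1, 6, 3, 2, 4, 5] [0, 1, 0, 0, 4, 25, 62] 10),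
    (40, .perm [0, 1, 6, 2, 3, 4, 5] [0, 1, 0, 0, 4, 25, 62] 10)]⟩,
  ⟨[0, 1, 0, 4, 12, 27], 8, [34, 33, 24, 52, 44, 27], [2, 2, 2, 3, 3, 4], [(4, 3, 2, 5), (5, 2, 3, 4)],
    [(3, .perm [2, 6, 3, 4, 0, 1, 5] [0, 0, 1, 5, 2, 18, 60] 10),
    (5, .perm [6, 1, 0, 2, 3, 4, 5] [0, 0, 3, 1, 8, 24, 54] 10),
    (6, .perm [6, 0, 1, 2, 3, 4, 5] [0, 0, 3, 1, 8, 24, 54] 10),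
    (7, .perm [2, 6, 3, 4, 0, 1, 5] [0, 1, 1, 5, 2, 18, 60] 11),
    (9, .perm [6, 1, 2, 0, 4, 3, 5] [0, 0, 0, 3, 4, 21, 58] 10),
    (10, .perm [6, 0, 2, 1, 4, 3, 5] [0, 0, 0, 3, 4, 21, 58] 10),
    (12, .perm [0, 1, 6, 2, 4, 5, 3] [0, 1, 0, 4, 8, 19, 60] 10),
    (17, .perm [6, 1, 2, 0, 3, 4, 5] [0, 0, 0, 3, 4, 21, 58] 10),
    (18, .perm [6, 0, 2, 1, 3, 4, 5] [0, 0, 0, 3, 4, 21, 58] 10),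
    (20, .perm [0, 1, 6, 2, 3, 5, 4] [0, 1, 0, 4, 8, 19, 60] 10),
    (33, .perm [2, 1, 6, 0, 3, 4, 5] [0, 0, 0, 6, 1, 17, 62] 10),
    (34, .perm [2, 0, 6, 1, 3, 4, 5] [0, 0, 0, 6, 1, 17, 62] 10),
    (40, .perm [0, 1, 2, 6, 4, 3, 5] [0, 1, 0, 0, 4, 28, 59] 10),
    (48, .perm [0, 1, 2, 6, 3, 4, 5] [0, 1, 0, 0, 4, 28, 59] 10)]⟩,
  ⟨[0, 1, 0, 0, 12, 31], 8, [34, 33, 48, 48, 44, 31], [2, 2, 2, 2, 3, 5], [(3, 2, 4, 5), (5, 4, 2, 3)],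
    [(3, .perm [6, 2, 3, 4, 0, 1, 5] [0, 0, 0, 6, 1, 17, 62] 10),
    (5, .perm [6, 1, 3, 0, 2, 4, 5] [0, 0, 0, 3, 1, 20, 62] 10),
    (6, .perm [6, 0, 3, 1, 2, 4, 5] [0, 0, 0, 3, 1, 20, 62] 10),
    (9, .perm [6, 1, 2, 0, 3, 4, 5] [0, 0, 0, 3, 1, 20, 62] 10),
    (10, .perm [6, 0, 2, 1, 3, 4, 5] [0, 0, 0, 3, 1, 20, 62] 10),
    (17, .perm [6, 1, 2, 3, 0, 4, 5] [0, 0, 0, 0, 3, 13, 62] 10),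
    (18, .perm [6, 0, 2, 3, 1, 4, 5] [0, 0, 0, 0, 3, 13, 62] 10),
    (20, .perm [0, 1, 6, 3, 2, 4, 5] [0, 1, 0, 0, 4, 28, 59] 10),
    (24, .perm [0, 1, 6, 2, 3, 4, 5] [0, 1, 0, 0, 4, 28, 59] 10),
    (33, .perm [1, 6, 2, 3, 0, 4, 5] [0, 0, 0, 0, 3, 12, 63] 10),
    (34, .perm [0, 6, 2, 3, 1, 4, 5] [0, 0, 0, 0, 3, 12, 63] 10),
    (36, .perm [0, 1, 3, 6, 4, 2, 5] [0, 1, 0, 0, 4, 24, 63] 10),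
    (40, .perm [0, 1, 2, 6, 4, 3, 5] [0, 1, 0, 0, 4, 24, 63] 10)]⟩,
  ⟨[0, 1, 1, 2, 12, 28], 8, [6, 9, 49, 50, 44, 28], [2, 2, 3, 3, 3, 3], [(3, 2, 4, 5), (5, 4, 2, 3)],
    [(3, .perm [6, 0, 1, 2, 3, 4, 5] [0, 1, 3, 2, 4, 24, 56] 10),
    (5, .perm [1, 6, 0, 3, 4, 5, 2] [0, 0, 3, 1, 8, 24, 54] 10),
    (6, .perm [0, 6, 1, 3, 4, 5, 2] [0, 0, 3, 4, 8, 24, 51] 10),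
    (7, .perm [1, 3, 0, 6, 4, 5, 2] [0, 1, 1, 5, 2, 18, 60] 11),
    (9, .perm [1, 6, 0, 2, 4, 5, 3] [0, 0, 3, 4, 8, 24, 51] 10),
    (10, .perm [0, 6, 1, 2, 4, 5, 3] [0, 0, 3, 1, 8, 24, 54] 10),
    (11, .perm [0, 2, 1, 6, 4, 5, 3] [0, 1, 1, 5, 2, 18, 60] 11),
    (17, .perm [1, 6, 0, 3, 2, 5, 4] [0, 0, 3, 1, 4, 24, 58] 10),
    (18, .perm [0, 6, 1, 2, 3, 5, 4] [0, 0, 3, 1, 4, 24, 58] 10),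
    (19, .eqd 3 2 1 0 [(1, 4, 0, 2, 6), (-1, 4, 1, 3, 6)] 1),
    (20, .perm [1, 0, 6, 3, 5, 2, 4] [0, 1, 0, 1, 8, 22, 60] 10),
    (24, .perm [0, 1, 6, 2, 5, 3, 4] [0, 1, 0, 1, 8, 22, 60] 10),
    (33, .perm [1, 6, 0, 3, 2, 4, 5] [0, 0, 3, 1, 4, 24, 58] 10),
    (34, .perm [0, 6, 1, 2, 3, 4, 5] [0, 0, 3, 1, 4, 24, 58] 10),
    (35, .eqd 3 2 1 0 [(1, 5, 0, 2, 6), (-1, 5, 1, 3, 6)] 1),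
    (36, .perm [1, 0, 6, 3, 4, 2, 5] [0, 1, 0, 1, 8, 22, 60] 10),
    (40, .perm [0, 1, 6, 2, 4, 3, 5] [0, 1, 0, 1, 8, 22, 60] 10)]⟩,
  ⟨[0, 0, 1, 2, 12, 30], 8, [4, 40, 49, 50, 44, 30], [1, 2, 3, 3, 3, 4], [(3, 2, 4, 5), (4, 1, 3, 5), (5, 3, 1, 4), (5, 4, 2, 3)],
    [(3, .perm [0, 6, 2, 1, 4, 3, 5] [0, 1, 1, 2, 4, 24, 60] 10),
    (5, .perm [0, 6, 1, 3, 4, 2, 5] [0, 1, 0, 4, 8, 19, 60] 10),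
    (9, .perm [0, 6, 1, 2, 4, 3, 5] [0, 1, 0, 1, 8, 22, 60] 10),
    (17, .perm [0, 6, 1, 2, 3, 4, 5] [0, 1, 0, 1, 4, 26, 60] 10),
    (33, .perm [0, 6, 1, 2, 3, 4, 5] [0, 1, 0, 1, 4, 24, 62] 10)]⟩,
  ⟨[0, 0, 0, 2, 13, 30], 8, [16, 40, 48, 50, 45, 30], [1, 2, 2, 3, 4, 4], [(3, 2, 4, 5), (4, 1, 3, 5), (5, 3, 1, 4), (5, 4, 2, 3)],
    [(3, .perm [6, 0, 2, 1, 3, 4, 5] [0, 1, 0, 1, 8, 22, 60] 10),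
    (5, .perm [6, 0, 1, 2, 3, 4, 5] [0, 1, 0, 1, 4, 26, 60] 10),
    (9, .perm [0, 6, 2, 1, 4, 3, 5] [0, 1, 0, 0, 5, 26, 60] 10),
    (17, .perm [0, 6, 1, 2, 3, 5, 4] [0, 1, 0, 0, 4, 28, 59] 10),
    (33, .perm [0, 6, 1, 2, 3, 4, 5] [0, 1, 0, 0, 4, 25, 62] 10)]⟩,
  ⟨[0, 0, 1, 2, 13, 30], 9, [20, 40, 49, 50, 45, 30], [2, 2, 3, 3, 4, 4], [(3, 2, 4, 5), (4, 1, 3, 5), (4, 2, 0, 5), (5, 0, 2, 4), (5, 3, 1, 4), (5, 4, 2, 3)],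
    [(1, .perm [6, 1, 0, 3, 2, 5, 4] [0, 0, 1, 2, 4, 26, 60] 10),
    (2, .perm [6, 0, 1, 2, 3, 4, 5] [0, 0, 1, 2, 4, 26, 60] 10),
    (3, .perm [6, 0, 1, 2, 3, 4, 5] [0, 1, 1, 2, 4, 26, 60] 11),
    (4, .perm [6, 1, 0, 3, 2, 5, 4] [0, 0, 0, 2, 5, 26, 60] 10),
    (5, .perm [1, 6, 3, 0, 5, 2, 4] [0, 0, 1, 2, 5, 26, 60] 11),
    (6, .coin 6 5 [(-1, 2, 1, 5, 6), (1, 3, 2, 4, 5), (1, 4, 1, 3, 5)] 1),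
    (7, .coin 2 1 [(1, 2, 0, 4, 6), (-1, 2, 1, 5, 6), (1, 4, 2, 0, 5)] 1),
    (8, .perm [6, 0, 1, 2, 3, 4, 5] [0, 0, 0, 2, 5, 26, 60] 10),
    (9, .coin 6 4 [(-1, 3, 0, 4, 6), (1, 3, 2, 4, 5), (-1, 4, 2, 0, 5)] 1),
    (10, .perm [0, 6, 2, 1, 4, 3, 5] [0, 0, 1, 2, 5, 26, 60] 11),
    (11, .coin 2 1 [(1, 3, 0, 4, 6), (-1, 3, 1, 5, 6), (1, 4, 2, 0, 5)] 1),
    (16, .perm [6, 1, 0, 3, 2, 5, 4] [0, 0, 0, 2, 4, 26, 61] 10),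
    (17, .perm [1, 6, 0, 3, 2, 5, 4] [0, 0, 2, 1, 4, 25, 62] 11),
    (24, .perm [0, 1, 6, 2, 3, 5, 4] [0, 0, 0, 1, 6, 26, 61] 11),
    (32, .perm [6, 0, 1, 2, 3, 4, 5] [0, 0, 0, 2, 4, 26, 61] 10),
    (34, .perm [0, 6, 1, 2, 3, 4, 5] [0, 0, 2, 1, 4, 25, 62] 11),
    (36, .perm [1, 0, 6, 3, 2, 4, 5] [0, 0, 0, 1, 6, 26, 61] 11)]⟩,
  ⟨[0, 0, 0, 3, 13, 30], 9, [24, 40, 48, 51, 45, 30], [2, 2, 2, 4, 4, 4], [(3, 2, 4, 5), (4, 1, 3, 5), (4, 3, 0, 5), (5, 0, 3, 4), (5, 3, 1, 4), (5, 4, 2, 3)],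
    [(1, .perm [6, 1, 2, 0, 5, 3, 4] [0, 0, 0, 1, 6, 26, 60] 10),
    (2, .perm [6, 0, 2, 1, 4, 3, 5] [0, 0, 0, 1, 6, 26, 60] 10),
    (3, .coin 6 3 [(-1, 1, 0, 3, 6), (1, 4, 1, 3, 5), (-1, 4, 3, 0, 5)] 1),
    (4, .perm [6, 0, 1, 2, 3, 4, 5] [0, 0, 0, 1, 6, 26, 60] 10),
    (5, .coin 6 4 [(-1, 2, 0, 4, 6), (1, 3, 2, 4, 5), (-1, 4, 3, 0, 5)] 1),
    (6, .coin 6 5 [(-1, 2, 1, 5, 6), (1, 3, 2, 4, 5), (1, 4, 1, 3, 5)] 1),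
    (7, .coin 3 0 [(-1, 2, 0, 4, 6), (1, 2, 1, 5, 6), (-1, 4, 1, 3, 5)] 1),
    (8, .perm [6, 2, 0, 1, 4, 5, 3] [0, 0, 0, 0, 6, 26, 61] 10),
    (9, .perm [6, 2, 1, 0, 5, 4, 3] [0, 0, 0, 1, 6, 26, 61] 11),
    (10, .perm [6, 2, 0, 1, 4, 5, 3] [0, 0, 0, 1, 6, 26, 61] 11),
    (16, .perm [6, 1, 0, 2, 3, 5, 4] [0, 0, 0, 0, 6, 26, 61] 10),
    (17, .perm [6, 1, 2, 0, 5, 3, 4] [0, 0, 0, 1, 6, 26, 61] 11),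
    (20, .perm [6, 1, 0, 2, 3, 5, 4] [0, 0, 0, 1, 6, 26, 61] 11),
    (32, .perm [6, 0, 1, 2, 3, 4, 5] [0, 0, 0, 0, 6, 26, 61] 10),
    (34, .perm [6, 0, 2, 1, 4, 3, 5] [0, 0, 0, 1, 6, 26, 61] 11),
    (36, .perm [6, 0, 1, 2, 3, 4, 5] [0, 0, 0, 1, 6, 26, 61] 11)]⟩,
  ⟨[0, 0, 0, 2, 12, 31], 8, [32, 40, 48, 50, 44, 31], [1, 2, 2, 3, 3, 5], [(3, 2, 4, 5), (4, 1, 3, 5), (5, 3, 1, 4), (5, 4, 2, 3)],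
    [(3, .perm [6, 0, 2, 1, 4, 3, 5] [0, 1, 0, 1, 4, 24, 62] 10),
    (5, .perm [6, 0, 1, 2, 3, 4, 5] [0, 1, 0, 1, 4, 24, 62] 10),
    (9, .perm [6, 0, 2, 1, 4, 3, 5] [0, 1, 0, 0, 4, 25, 62] 10),
    (17, .perm [6, 0, 1, 2, 3, 4, 5] [0, 1, 0, 0, 4, 25, 62] 10),
    (33, .perm [0, 6, 1, 2, 3, 4, 5] [0, 1, 0, 0, 4, 24, 63] 10)]⟩,
  ⟨[0, 0, 1, 2, 12, 31], 9, [36, 40, 49, 50, 44, 31], [2, 2, 3, 3, 3, 5], [(3, 2, 4, 5), (4, 0, 2, 5), (4, 1, 3, 5), (5, 2, 0, 4), (5, 3, 1, 4), (5, 4, 2, 3)],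
    [(1, .perm [6, 1, 0, 3, 2, 4, 5] [0, 0, 1, 2, 4, 24, 62] 10),
    (2, .perm [6, 0, 1, 2, 3, 4, 5] [0, 0, 1, 2, 4, 24, 62] 10),
    (3, .eqd 6 5 0 2 [(-1, 1, 0, 5, 6), (1, 3, 2, 4, 5), (1, 4, 1, 3, 5)] 1),
    (4, .perm [6, 1, 0, 3, 4, 2, 5] [0, 0, 0, 2, 8, 21, 62] 10),
    (5, .perm [6, 1, 3, 0, 4, 2, 5] [0, 0, 2, 1, 4, 25, 62] 11),
    (6, .coin 6 5 [(-1, 2, 1, 5, 6), (1, 3, 2, 4, 5), (1, 4, 1, 3, 5)] 1),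
    (8, .perm [6, 0, 1, 2, 4, 3, 5] [0, 0, 0, 2, 8, 21, 62] 10),
    (9, .coin 6 5 [(-1, 3, 0, 5, 6), (1, 3, 2, 4, 5), (1, 4, 0, 2, 5)] 1),
    (10, .perm [6, 0, 2, 1, 4, 3, 5] [0, 0, 2, 1, 4, 25, 62] 11),
    (16, .perm [6, 0, 1, 2, 3, 4, 5] [0, 0, 0, 2, 4, 25, 62] 10),
    (20, .perm [1, 6, 0, 3, 2, 4, 5] [0, 0, 0, 1, 6, 26, 61] 11),
    (24, .perm [0, 6, 1, 2, 3, 4, 5] [0, 0, 0, 1, 6, 26, 61] 11),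
    (32, .perm [6, 0, 1, 2, 3, 4, 5] [0, 0, 0, 2, 4, 24, 63] 10),
    (33, .eqd 6 1 0 5 [(-1, 3, 2, 4, 5), (-1, 4, 1, 3, 5), (-1, 5, 0, 2, 6)] 1),
    (34, .eqd 6 0 1 5 [(-1, 3, 2, 4, 5), (-1, 4, 0, 2, 5), (-1, 5, 1, 3, 6)] 1),
    (35, .perm [0, 2, 6, 4, 1, 3, 5] [0, 1, 1, 2, 4, 24, 63] 12)]⟩]

def T7 : List G := [
  ⟨[0, 1, 1, 2, 10, 12, 52], 10, [6, 25, 97, 50, 74, 76, 52], [2, 3, 3, 3, 3, 3, 3], [(5, 4, 3, 6), (6, 3, 4, 5)],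
    [(7, .perm [3, 4, 5, 6, 0, 7, 1, 2] [0, 1, 1, 6, 0, 16, 51, 60] 13),
    (11, .perm [2, 6, 5, 0, 4, 7, 3, 1] [0, 1, 3, 1, 2, 8, 52, 120] 13),
    (13, .eqd 5 1 2 0 [(1, 3, 0, 1, 7), (-1, 3, 2, 5, 7)] 1),
    (19, .perm [2, 5, 6, 0, 3, 7, 4, 1] [0, 1, 3, 1, 2, 8, 52, 120] 13),
    (21, .eqd 6 1 2 0 [(1, 4, 0, 1, 7), (-1, 4, 2, 6, 7)] 1),
    (35, .eqd 3 2 1 0 [(1, 5, 0, 2, 7), (-1, 5, 1, 3, 7)] 1),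
    (37, .perm [1, 4, 3, 0, 6, 7, 5, 2] [0, 1, 3, 1, 2, 8, 52, 120] 13),
    (41, .eqd 2 1 5 3 [(1, 3, 0, 1, 7), (-1, 5, 0, 2, 7)] 1),
    (67, .eqd 4 2 1 0 [(1, 6, 0, 2, 7), (-1, 6, 1, 4, 7)] 1),
    (69, .perm [1, 3, 4, 0, 5, 7, 6, 2] [0, 1, 3, 1, 2, 8, 52, 120] 13),
    (81, .eqd 2 1 5 3 [(1, 4, 0, 1, 7), (-1, 5, 4, 3, 6), (-1, 6, 0, 2, 7)] 1)]⟩,
  ⟨[0, 0, 1, 5, 2, 20, 58], 10, [12, 80, 41, 69, 98, 84, 58], [2, 2, 3, 3, 3, 3, 4], [(5, 1, 4, 6), (5, 3, 2, 6), (6, 2, 3, 5), (6, 4, 1, 5)],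
    [(7, .perm [1, 7, 4, 0, 5, 3, 6, 2] [0, 1, 1, 2, 4, 8, 53, 58] 13),
    (11, .eqd 4 0 1 7 [(-1, 3, 0, 2, 7), (-1, 5, 1, 4, 6), (1, 5, 3, 2, 6)] 1),
    (19, .perm [0, 2, 3, 7, 5, 1, 6, 4] [0, 1, 3, 1, 2, 8, 52, 120] 13),
    (67, .eqd 7 5 0 2 [(-1, 5, 3, 2, 6), (-1, 6, 0, 3, 7)] 1)]⟩,
  ⟨[0, 0, 0, 1, 9, 14, 54], 10, [24, 96, 96, 49, 73, 78, 54], [2, 2, 2, 3, 3, 4, 4], [(2, 1, 5, 6), (5, 4, 3, 6), (6, 3, 4, 5), (6, 5, 1, 2)],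
    []⟩,
  ⟨[0, 0, 0, 1, 10, 13, 54], 10, [40, 80, 96, 49, 74, 77, 54], [2, 2, 2, 3, 3, 4, 4], [(5, 4, 3, 6), (6, 3, 4, 5)],
    [(7, .eqd 1 0 4 3 [(-1, 2, 0, 5, 7), (1, 2, 1, 6, 7), (-1, 5, 4, 3, 6)] 1)]⟩,
  ⟨[0, 0, 2, 6, 2, 20, 57], 10, [64, 28, 42, 70, 98, 84, 57], [1, 3, 3, 3, 3, 3, 4], [(4, 2, 1, 5), (4, 3, 1, 6), (5, 1, 2, 4), (5, 3, 2, 6), (6, 1, 3, 4), (6, 2, 3, 5)],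
    []⟩,
  ⟨[0, 0, 2, 6, 2, 21, 57], 11, [96, 28, 42, 70, 98, 85, 57], [2, 3, 3, 3, 3, 4, 4], [(4, 0, 5, 6), (4, 2, 1, 5), (4, 3, 1, 6), (5, 1, 2, 4), (5, 3, 2, 6), (6, 1, 3, 4), (6, 2, 3, 5), (6, 5, 0, 4)],
    [(3, .perm [7, 0, 2, 3, 4, 1, 5, 6] [0, 1, 0, 4, 0, 29, 22, 90] 13),
    (5, .eqd 7 3 0 6 [(-1, 2, 0, 5, 7), (1, 4, 2, 1, 5), (-1, 4, 3, 1, 6)] 1),
    (6, .perm [0, 7, 4, 3, 6, 1, 5, 2] [0, 0, 0, 0, 13, 14, 21, 106] 13),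
    (7, .coin 3 1 [(1, 2, 0, 5, 7), (-1, 2, 1, 3, 7), (-1, 4, 0, 5, 6), (1, 4, 3, 1, 6)] 2),
    (9, .eqd 7 2 0 5 [(-1, 3, 0, 6, 7), (-1, 4, 2, 1, 5), (1, 4, 3, 1, 6)] 1),
    (10, .perm [0, 7, 4, 2, 5, 1, 6, 3] [0, 0, 0, 0, 13, 14, 21, 106] 13),
    (11, .coin 2 1 [(1, 3, 0, 6, 7), (-1, 3, 1, 2, 7), (-1, 4, 0, 5, 6), (1, 4, 2, 1, 5)] 2),
    (12, .eqd 7 0 1 4 [(-1, 3, 2, 1, 7), (-1, 4, 0, 5, 6), (1, 4, 2, 1, 5), (1, 4, 3, 1, 6)] 1),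
    (13, .perm [0, 7, 4, 1, 5, 6, 2, 3] [0, 1, 0, 4, 5, 21, 26, 106] 14),
    (18, .perm [7, 0, 2, 3, 1, 5, 6, 4] [0, 0, 0, 4, 13, 6, 42, 113] 13),
    (33, .perm [7, 0, 1, 3, 2, 4, 6, 5] [0, 1, 0, 4, 12, 4, 42, 115] 13),
    (36, .perm [7, 0, 1, 3, 4, 2, 6, 5] [0, 0, 0, 4, 4, 13, 26, 115] 13),
    (37, .coin 5 3 [(-1, 2, 0, 5, 7), (1, 4, 2, 1, 5), (-1, 4, 3, 1, 6), (1, 5, 0, 6, 7)] 1),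
    (48, .perm [0, 7, 3, 1, 2, 6, 4, 5] [0, 0, 0, 4, 12, 5, 42, 115] 13),
    (65, .perm [7, 0, 1, 2, 3, 4, 5, 6] [0, 1, 0, 4, 12, 4, 42, 115] 13),
    (72, .perm [7, 0, 1, 2, 4, 3, 5, 6] [0, 0, 0, 4, 4, 13, 26, 115] 13),
    (73, .coin 6 2 [(-1, 3, 0, 6, 7), (-1, 4, 2, 1, 5), (1, 4, 3, 1, 6), (1, 6, 0, 5, 7)] 1),
    (80, .perm [0, 7, 2, 1, 3, 5, 4, 6] [0, 0, 0, 4, 12, 5, 42, 115] 13)]⟩,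
  ⟨[0, 0, 2, 2, 12, 7, 57], 11, [96, 44, 50, 82, 76, 71, 57], [2, 3, 3, 3, 3, 4, 4], [(3, 2, 1, 4), (4, 1, 2, 3), (5, 3, 1, 6), (5, 4, 2, 6), (6, 1, 3, 5), (6, 2, 4, 5)],
    [(3, .eqd 7 3 0 6 [(-1, 1, 0, 5, 7), (-1, 5, 3, 1, 6)] 1),
    (5, .eqd 7 4 0 6 [(-1, 2, 0, 5, 7), (1, 3, 2, 1, 4), (-1, 5, 3, 1, 6)] 1),
    (6, .perm [0, 7, 3, 4, 6, 1, 2, 5] [0, 0, 0, 4, 13, 6, 42, 113] 13),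
    (9, .eqd 7 1 0 5 [(-1, 3, 0, 6, 7), (1, 5, 3, 1, 6)] 1),
    (10, .perm [0, 7, 2, 4, 5, 6, 1, 3] [0, 0, 0, 4, 5, 25, 22, 106] 13),
    (11, .perm [0, 7, 2, 4, 5, 6, 1, 3] [0, 1, 0, 4, 5, 25, 22, 106] 14),
    (17, .eqd 7 2 0 5 [(-1, 3, 2, 1, 4), (-1, 4, 0, 6, 7), (1, 5, 3, 1, 6)] 1),
    (20, .perm [0, 7, 1, 3, 5, 6, 2, 4] [0, 0, 0, 4, 5, 25, 22, 106] 13),
    (21, .perm [0, 7, 1, 3, 5, 6, 2, 4] [0, 1, 0, 4, 5, 25, 22, 106] 14),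
    (24, .perm [0, 7, 1, 2, 5, 3, 4, 6] [0, 0, 0, 4, 13, 6, 42, 113] 13),
    (33, .perm [7, 0, 3, 4, 1, 2, 6, 5] [0, 1, 0, 4, 4, 24, 14, 115] 13),
    (34, .perm [0, 7, 4, 3, 2, 6, 1, 5] [0, 0, 0, 4, 4, 13, 26, 115] 13),
    (35, .coin 5 3 [(-1, 1, 0, 5, 7), (1, 5, 0, 6, 7), (-1, 5, 3, 1, 6)] 1),
    (36, .perm [0, 7, 3, 4, 1, 6, 2, 5] [0, 0, 0, 4, 4, 13, 26, 115] 13),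
    (37, .coin 5 4 [(-1, 2, 0, 5, 7), (1, 3, 2, 1, 4), (1, 5, 0, 6, 7), (-1, 5, 3, 1, 6)] 1),
    (65, .perm [7, 0, 1, 2, 3, 4, 5, 6] [0, 1, 0, 4, 4, 24, 14, 115] 13),
    (72, .perm [0, 7, 2, 1, 4, 5, 3, 6] [0, 0, 0, 4, 4, 13, 26, 115] 13),
    (73, .coin 6 1 [(-1, 3, 0, 6, 7), (1, 5, 3, 1, 6), (1, 6, 0, 5, 7)] 1),
    (80, .perm [0, 7, 1, 2, 3, 5, 4, 6] [0, 0, 0, 4, 4, 13, 26, 115] 13),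
    (81, .coin 6 2 [(-1, 3, 2, 1, 4), (-1, 4, 0, 6, 7), (1, 5, 3, 1, 6), (1, 6, 0, 5, 7)] 1),
    (96, .perm [0, 7, 1, 2, 3, 4, 5, 6] [0, 0, 0, 4, 4, 24, 15, 115] 13),
    (97, .k4 5 0 6 7)]⟩,
  ⟨[0, 0, 1, 1, 6, 10, 60], 10, [12, 48, 81, 97, 70, 74, 60], [2, 2, 3, 3, 3, 3, 4], [(3, 2, 0, 6), (5, 4, 1, 6), (6, 0, 2, 3), (6, 1, 4, 5)],
    [(7, .eqd 7 5 0 3 [(-1, 2, 1, 4, 7), (1, 3, 2, 0, 6), (-1, 5, 4, 1, 6)] 1),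
    (11, .eqd 7 4 0 2 [(-1, 3, 1, 5, 7), (1, 3, 2, 0, 6), (-1, 5, 4, 1, 6)] 1),
    (19, .eqd 7 3 1 5 [(-1, 3, 2, 0, 6), (-1, 4, 0, 2, 7), (1, 5, 4, 1, 6)] 1),
    (35, .eqd 7 2 1 4 [(-1, 3, 2, 0, 6), (-1, 5, 0, 3, 7), (1, 5, 4, 1, 6)] 1)]⟩,
  ⟨[0, 0, 0, 3, 4, 21, 58], 10, [40, 72, 48, 67, 100, 85, 58], [2, 2, 2, 3, 3, 4, 4], [(5, 3, 0, 6), (5, 4, 2, 6), (6, 0, 3, 5), (6, 2, 4, 5)],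
    [(7, .eqd 7 5 1 6 [(-1, 1, 0, 3, 7), (-1, 5, 3, 0, 6)] 1)]⟩,
  ⟨[0, 0, 0, 3, 1, 20, 62], 10, [24, 72, 96, 67, 97, 84, 62], [2, 2, 2, 3, 3, 3, 5], [(4, 2, 5, 6), (4, 3, 0, 6), (6, 0, 3, 4), (6, 5, 2, 4)],
    [(7, .coin 4 2 [(1, 1, 0, 3, 7), (-1, 2, 1, 6, 7), (1, 4, 3, 0, 6)] 1)]⟩,
  ⟨[0, 0, 0, 0, 3, 13, 62], 10, [48, 80, 96, 96, 67, 77, 62], [2, 2, 2, 2, 3, 4, 5], [(3, 2, 5, 6), (5, 4, 0, 6), (6, 0, 4, 5), (6, 5, 2, 3)],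
    []⟩,
  ⟨[0, 0, 3, 1, 4, 24, 58], 10, [12, 68, 19, 97, 100, 88, 58], [2, 2, 3, 3, 3, 3, 4], [(4, 1, 2, 6), (4, 3, 5, 6), (6, 2, 1, 4), (6, 5, 3, 4)],
    [(7, .perm [0, 3, 7, 5, 1, 4, 2, 6] [0, 1, 1, 2, 4, 8, 53, 58] 13),
    (11, .eqd 6 2 3 0 [(1, 1, 0, 2, 7), (-1, 3, 1, 6, 7)] 1),
    (35, .coin 2 1 [(-1, 1, 0, 2, 7), (-1, 4, 1, 2, 6), (1, 4, 3, 5, 6), (1, 5, 0, 3, 7)] 2),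
    (67, .coin 4 3 [(-1, 1, 0, 2, 7), (1, 4, 1, 2, 6), (1, 6, 0, 3, 7)] 1)]⟩,
  ⟨[0, 0, 3, 1, 2, 24, 60], 10, [12, 20, 67, 97, 98, 88, 60], [2, 2, 3, 3, 3, 3, 4], [(3, 2, 0, 6), (4, 2, 1, 6), (4, 3, 5, 6), (6, 0, 2, 3), (6, 1, 2, 4), (6, 5, 3, 4)],
    [(7, .eqd 7 5 0 3 [(-1, 1, 0, 2, 7), (-1, 4, 2, 1, 6), (1, 4, 3, 5, 6)] 1),
    (11, .eqd 6 1 3 7 [(-1, 1, 0, 2, 7), (-1, 3, 2, 0, 6)] 1),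
    (19, .eqd 6 0 4 7 [(-1, 1, 0, 2, 7), (-1, 4, 2, 1, 6)] 1),
    (35, .eqd 7 2 5 6 [(-1, 1, 0, 2, 7), (-1, 3, 2, 0, 6), (-1, 4, 2, 1, 6), (1, 4, 3, 5, 6)] 1)]⟩,
  ⟨[0, 1, 0, 1, 4, 26, 60], 10, [10, 33, 80, 97, 100, 90, 60], [2, 2, 2, 3, 3, 4, 4], [(3, 1, 0, 5), (4, 3, 5, 6), (5, 0, 1, 3), (5, 2, 4, 6), (6, 4, 2, 5), (6, 5, 3, 4)],
    [(7, .perm [7, 0, 1, 2, 3, 4, 5, 6] [0, 1, 3, 1, 2, 8, 52, 120] 13)]⟩,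
  ⟨[0, 1, 0, 0, 5, 26, 60], 10, [18, 33, 80, 96, 101, 90, 60], [2, 2, 2, 2, 4, 4, 4], [(4, 1, 0, 5), (4, 3, 5, 6), (5, 0, 1, 4), (5, 2, 4, 6), (6, 4, 2, 5), (6, 5, 3, 4)],
    []⟩,
  ⟨[0, 1, 0, 1, 4, 24, 62], 10, [10, 65, 80, 97, 100, 88, 62], [2, 2, 2, 3, 3, 3, 5], [(3, 1, 0, 6), (4, 3, 5, 6), (5, 2, 4, 6), (6, 0, 1, 3), (6, 4, 2, 5), (6, 5, 3, 4)],
    [(7, .eqd 3 2 0 7 [(-1, 2, 1, 6, 7), (1, 3, 1, 0, 6)] 1)]⟩,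
  ⟨[0, 1, 0, 0, 4, 25, 62], 10, [34, 65, 80, 96, 100, 89, 62], [2, 2, 2, 2, 3, 4, 5], [(4, 3, 5, 6), (5, 1, 0, 6), (5, 2, 4, 6), (6, 0, 1, 5), (6, 4, 2, 5), (6, 5, 3, 4)],
    []⟩,
  ⟨[0, 0, 1, 5, 2, 18, 60], 10, [12, 48, 73, 69, 98, 82, 60], [2, 2, 3, 3, 3, 3, 4], [(3, 2, 0, 6), (5, 4, 1, 6), (6, 0, 2, 3), (6, 1, 4, 5)],
    [(7, .perm [1, 4, 5, 7, 0, 3, 6, 2] [0, 1, 3, 1, 8, 16, 38, 120] 13),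
    (11, .perm [1, 4, 5, 7, 0, 2, 6, 3] [0, 1, 3, 1, 8, 16, 38, 120] 13),
    (19, .perm [0, 2, 3, 7, 1, 5, 6, 4] [0, 1, 3, 1, 8, 16, 38, 120] 13),
    (35, .perm [0, 2, 3, 7, 1, 4, 6, 5] [0, 1, 3, 1, 8, 16, 38, 120] 13)]⟩,
  ⟨[0, 0, 3, 1, 8, 24, 54], 10, [12, 68, 67, 49, 104, 88, 54], [2, 2, 3, 3, 3, 3, 4], [(5, 4, 3, 6), (6, 3, 4, 5)],
    [(7, .perm [3, 4, 5, 0, 7, 1, 6, 2] [0, 1, 3, 1, 8, 16, 38, 120] 13),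
    (11, .perm [0, 7, 2, 1, 4, 5, 3, 6] [0, 1, 1, 6, 0, 16, 51, 60] 13),
    (19, .eqd 4 0 6 2 [(-1, 1, 0, 2, 7), (1, 4, 1, 6, 7)] 1),
    (35, .eqd 5 0 6 2 [(-1, 1, 0, 2, 7), (1, 5, 1, 6, 7)] 1)]⟩,
  ⟨[0, 1, 1, 5, 2, 18, 60], 11, [14, 49, 73, 69, 98, 82, 60], [3, 3, 3, 3, 3, 3, 4], [(3, 2, 0, 6), (5, 4, 1, 6), (6, 0, 2, 3), (6, 1, 4, 5)],
    [(3, .perm [7, 2, 3, 4, 5, 0, 1, 6] [0, 0, 2, 0, 8, 7, 57, 30] 13),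
    (5, .perm [7, 1, 4, 5, 3, 0, 2, 6] [0, 0, 2, 6, 0, 19, 49, 92] 13),
    (6, .perm [7, 0, 4, 5, 3, 1, 2, 6] [0, 0, 0, 4, 2, 15, 19, 92] 13),
    (7, .perm [4, 5, 3, 7, 6, 1, 2, 0] [0, 1, 0, 0, 7, 11, 28, 108] 14),
    (9, .perm [7, 1, 4, 5, 2, 0, 3, 6] [0, 0, 2, 6, 0, 19, 49, 92] 13),
    (10, .perm [7, 0, 4, 5, 2, 1, 3, 6] [0, 0, 0, 4, 2, 15, 19, 92] 13),
    (11, .perm [4, 5, 2, 7, 6, 1, 3, 0] [0, 1, 0, 0, 7, 11, 28, 108] 14),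
    (17, .perm [7, 1, 2, 3, 5, 0, 4, 6] [0, 0, 0, 4, 2, 15, 19, 92] 13),
    (18, .perm [7, 0, 2, 3, 5, 1, 4, 6] [0, 0, 2, 6, 0, 19, 49, 92] 13),
    (19, .perm [2, 3, 5, 7, 6, 0, 4, 1] [0, 1, 0, 0, 7, 11, 28, 108] 14),
    (20, .perm [7, 0, 1, 3, 5, 2, 4, 6] [0, 0, 2, 2, 4, 11, 21, 120] 13),
    (21, .coin 3 1 [(1, 3, 2, 0, 6), (1, 4, 0, 1, 7), (-1, 4, 2, 6, 7)] 1),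
    (22, .coin 4 2 [(1, 4, 1, 5, 7), (-1, 4, 2, 6, 7), (1, 5, 4, 1, 6)] 1),
    (24, .perm [7, 0, 1, 2, 5, 3, 4, 6] [0, 0, 2, 2, 4, 11, 21, 120] 13),
    (25, .coin 2 1 [(1, 3, 2, 0, 6), (1, 4, 0, 1, 7), (-1, 4, 3, 6, 7)] 1),
    (26, .coin 4 3 [(1, 4, 1, 5, 7), (-1, 4, 3, 6, 7), (1, 5, 4, 1, 6)] 1),
    (33, .perm [7, 1, 2, 3, 4, 0, 5, 6] [0, 0, 0, 4, 2, 15, 19, 92] 13),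
    (34, .perm [7, 0, 2, 3, 4, 1, 5, 6] [0, 0, 2, 6, 0, 19, 49, 92] 13),
    (35, .perm [2, 3, 4, 7, 6, 0, 5, 1] [0, 1, 0, 0, 7, 11, 28, 108] 14),
    (36, .perm [7, 0, 1, 3, 4, 2, 5, 6] [0, 0, 2, 2, 4, 11, 21, 120] 13),
    (37, .coin 3 1 [(1, 3, 2, 0, 6), (1, 5, 0, 1, 7), (-1, 5, 2, 6, 7)] 1),
    (38, .coin 4 0 [(1, 2, 1, 0, 7), (-1, 5, 2, 6, 7), (1, 5, 4, 1, 6)] 1),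
    (40, .perm [7, 0, 1, 2, 4, 3, 5, 6] [0, 0, 2, 2, 4, 11, 21, 120] 13),
    (41, .coin 2 1 [(1, 3, 2, 0, 6), (1, 5, 0, 1, 7), (-1, 5, 3, 6, 7)] 1),
    (42, .coin 4 0 [(1, 3, 1, 0, 7), (-1, 5, 3, 6, 7), (1, 5, 4, 1, 6)] 1),
    (68, .perm [7, 1, 0, 4, 5, 3, 2, 6] [0, 0, 2, 2, 10, 4, 37, 121] 13),
    (72, .perm [7, 1, 0, 4, 5, 2, 3, 6] [0, 0, 2, 2, 10, 4, 37, 121] 13),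
    (80, .perm [7, 0, 1, 2, 3, 5, 4, 6] [0, 0, 2, 2, 10, 4, 37, 121] 13),
    (84, .perm [0, 1, 3, 5, 7, 2, 4, 6] [0, 1, 1, 2, 0, 21, 26, 124] 14),
    (88, .perm [0, 1, 2, 5, 7, 3, 4, 6] [0, 1, 1, 2, 0, 21, 26, 124] 14),
    (96, .perm [7, 0, 1, 2, 3, 4, 5, 6] [0, 0, 2, 2, 10, 4, 37, 121] 13),
    (100, .perm [0, 1, 3, 4, 7, 2, 5, 6] [0, 1, 1, 2, 0, 21, 26, 124] 14),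
    (104, .perm [0, 1, 2, 4, 7, 3, 5, 6] [0, 1, 1, 2, 0, 21, 26, 124] 14)]⟩,
  ⟨[0, 1, 0, 4, 8, 19, 60], 10, [34, 33, 72, 84, 104, 83, 60], [2, 2, 2, 3, 3, 4, 4], [(4, 2, 3, 6), (5, 3, 4, 6), (6, 3, 2, 4), (6, 4, 3, 5)],
    [(7, .perm [7, 0, 1, 2, 3, 4, 5, 6] [0, 1, 3, 1, 8, 16, 38, 120] 13)]⟩,
  ⟨[0, 0, 0, 6, 1, 17, 62], 10, [48, 72, 72, 70, 97, 81, 62], [2, 2, 2, 3, 3, 3, 5], [(2, 1, 3, 6), (5, 4, 0, 6), (6, 0, 4, 5), (6, 3, 1, 2)],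
    []⟩,
  ⟨[0, 1, 0, 0, 4, 28, 59], 10, [66, 65, 48, 96, 100, 92, 59], [2, 2, 2, 2, 3, 4, 5], [(4, 3, 5, 6), (5, 4, 2, 6), (6, 2, 4, 5), (6, 5, 3, 4)],
    []⟩,
  ⟨[0, 0, 0, 0, 3, 12, 63], 10, [80, 80, 96, 96, 67, 76, 63], [2, 2, 2, 2, 3, 3, 6], [(1, 0, 4, 6), (3, 2, 5, 6), (6, 4, 0, 1), (6, 5, 2, 3)],
    []⟩,
  ⟨[0, 1, 0, 0, 4, 24, 63], 10, [66, 65, 80, 96, 100, 88, 63], [2, 2, 2, 2, 3, 3, 6], [(4, 3, 5, 6), (5, 2, 4, 6), (6, 4, 2, 5), (6, 5, 3, 4)],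
    []⟩,
  ⟨[0, 1, 3, 2, 4, 24, 56], 10, [6, 13, 19, 98, 100, 88, 56], [2, 3, 3, 3, 3, 3, 3], [(4, 3, 5, 6), (6, 5, 3, 4)],
    [(7, .k4 1 0 2 7),
    (11, .perm [4, 5, 6, 2, 0, 7, 3, 1] [0, 1, 3, 1, 8, 16, 38, 120] 13),
    (21, .perm [3, 5, 6, 1, 0, 7, 4, 2] [0, 1, 3, 1, 8, 16, 38, 120] 13),
    (35, .perm [2, 4, 0, 6, 7, 3, 1, 5] [0, 1, 1, 2, 4, 8, 53, 58] 13),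
    (37, .perm [1, 3, 0, 6, 7, 4, 2, 5] [0, 1, 1, 2, 4, 8, 53, 58] 13),
    (41, .perm [2, 0, 1, 4, 7, 6, 3, 5] [0, 1, 3, 1, 2, 8, 52, 120] 13),
    (49, .perm [1, 0, 2, 3, 7, 6, 4, 5] [0, 1, 3, 1, 2, 8, 52, 120] 13),
    (67, .perm [2, 4, 0, 5, 7, 3, 1, 6] [0, 1, 1, 2, 4, 8, 53, 58] 13),
    (69, .perm [1, 3, 0, 5, 7, 4, 2, 6] [0, 1, 1, 2, 4, 8, 53, 58] 13),
    (73, .perm [2, 0, 1, 4, 7, 5, 3, 6] [0, 1, 3, 1, 2, 8, 52, 120] 13),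
    (81, .perm [1, 0, 2, 3, 7, 5, 4, 6] [0, 1, 3, 1, 2, 8, 52, 120] 13)]⟩,
  ⟨[0, 0, 3, 4, 8, 24, 51], 10, [68, 68, 11, 52, 104, 88, 51], [2, 2, 3, 3, 3, 3, 4], [(1, 0, 2, 6), (5, 4, 3, 6), (6, 2, 0, 1), (6, 3, 4, 5)],
    []⟩,
  ⟨[0, 1, 0, 1, 8, 22, 60], 10, [10, 33, 96, 81, 104, 86, 60], [2, 2, 2, 3, 3, 4, 4], [(4, 2, 5, 6), (5, 3, 4, 6), (6, 4, 3, 5), (6, 5, 2, 4)],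
    [(7, .perm [0, 7, 1, 3, 2, 4, 5, 6] [0, 1, 3, 1, 2, 8, 52, 120] 13)]⟩,
  ⟨[0, 1, 1, 2, 4, 24, 60], 10, [6, 9, 81, 98, 100, 88, 60], [2, 2, 3, 3, 3, 3, 4], [(4, 3, 5, 6), (5, 2, 4, 6), (6, 4, 2, 5), (6, 5, 3, 4)],
    [(7, .perm [1, 0, 7, 3, 5, 4, 2, 6] [0, 1, 3, 1, 8, 16, 38, 120] 13),
    (11, .perm [0, 1, 7, 2, 4, 5, 3, 6] [0, 1, 3, 1, 8, 16, 38, 120] 13),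
    (19, .perm [1, 0, 7, 3, 2, 5, 4, 6] [0, 1, 3, 1, 2, 8, 52, 120] 13),
    (35, .perm [0, 1, 7, 2, 3, 4, 5, 6] [0, 1, 3, 1, 2, 8, 52, 120] 13),
    (67, .eqd 3 2 1 0 [(1, 6, 0, 2, 7), (-1, 6, 1, 3, 7)] 1)]⟩,
  ⟨[0, 0, 1, 2, 4, 26, 60], 10, [4, 40, 81, 98, 100, 90, 60], [1, 2, 3, 3, 3, 4, 4], [(4, 3, 5, 6), (5, 2, 4, 6), (5, 3, 1, 6), (6, 1, 3, 5), (6, 4, 2, 5), (6, 5, 3, 4)],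
    []⟩,
  ⟨[0, 1, 1, 2, 4, 26, 60], 11, [6, 41, 81, 98, 100, 90, 60], [2, 3, 3, 3, 3, 4, 4], [(4, 3, 5, 6), (5, 2, 4, 6), (5, 3, 1, 6), (6, 1, 3, 5), (6, 4, 2, 5), (6, 5, 3, 4)],
    [(3, .perm [7, 0, 2, 4, 3, 1, 6, 5] [0, 1, 2, 4, 0, 19, 28, 120] 13),
    (5, .perm [7, 0, 1, 3, 4, 2, 5, 6] [0, 1, 2, 4, 0, 19, 28, 120] 13),
    (6, .perm [0, 7, 3, 4, 1, 2, 5, 6] [0, 0, 0, 0, 7, 11, 28, 108] 13),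
    (7, .perm [0, 7, 3, 4, 1, 2, 5, 6] [0, 1, 0, 0, 7, 11, 28, 108] 14),
    (9, .perm [7, 0, 2, 1, 4, 3, 6, 5] [0, 1, 2, 2, 4, 9, 52, 120] 13),
    (10, .perm [0, 7, 2, 4, 1, 3, 6, 5] [0, 0, 1, 4, 3, 18, 44, 120] 13),
    (11, .perm [0, 2, 7, 4, 1, 6, 3, 5] [0, 1, 1, 2, 5, 10, 52, 120] 14),
    (12, .coin 7 6 [(-1, 3, 2, 6, 7), (1, 4, 3, 5, 6), (1, 5, 2, 4, 6)] 1),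
    (13, .coin 7 6 [(-1, 3, 2, 6, 7), (1, 4, 3, 5, 6), (1, 5, 2, 4, 6)] 1),
    (17, .perm [7, 0, 1, 2, 3, 4, 5, 6] [0, 1, 2, 2, 4, 9, 52, 120] 13),
    (18, .coin 7 5 [(-1, 4, 1, 5, 7), (1, 4, 3, 5, 6), (-1, 5, 3, 1, 6)] 1),
    (19, .coin 7 5 [(-1, 4, 1, 5, 7), (1, 4, 3, 5, 6), (-1, 5, 3, 1, 6)] 1),
    (20, .perm [0, 7, 1, 3, 2, 4, 5, 6] [0, 0, 1, 4, 3, 18, 44, 120] 13),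
    (21, .perm [0, 1, 7, 3, 2, 5, 4, 6] [0, 1, 1, 2, 5, 10, 52, 120] 14),
    (33, .perm [7, 0, 2, 1, 4, 3, 6, 5] [0, 1, 2, 2, 4, 8, 52, 121] 13),
    (34, .perm [0, 7, 2, 4, 3, 1, 6, 5] [0, 0, 1, 4, 0, 19, 28, 122] 13),
    (35, .perm [0, 2, 7, 4, 3, 1, 6, 5] [0, 1, 1, 2, 0, 21, 26, 124] 14),
    (48, .perm [0, 7, 1, 2, 3, 4, 6, 5] [0, 0, 1, 1, 4, 10, 56, 118] 13),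
    (49, .coin 4 0 [(-1, 4, 0, 2, 7), (-1, 5, 2, 4, 6), (1, 5, 4, 6, 7)] 1),
    (65, .perm [7, 0, 1, 2, 3, 4, 5, 6] [0, 1, 2, 2, 4, 8, 52, 121] 13),
    (68, .perm [0, 7, 1, 3, 4, 2, 5, 6] [0, 0, 1, 4, 0, 19, 28, 122] 13),
    (69, .perm [0, 1, 7, 3, 4, 2, 5, 6] [0, 1, 1, 2, 0, 21, 26, 124] 14),
    (72, .perm [0, 7, 2, 1, 4, 3, 5, 6] [0, 0, 1, 1, 4, 10, 56, 118] 13),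
    (73, .coin 3 0 [(-1, 3, 0, 1, 7), (1, 5, 3, 1, 6), (1, 6, 3, 5, 7)] 1)]⟩,
  ⟨[0, 0, 0, 2, 5, 26, 60], 10, [16, 40, 80, 98, 101, 90, 60], [1, 2, 2, 3, 4, 4, 4], [(4, 3, 5, 6), (5, 2, 4, 6), (5, 3, 1, 6), (6, 1, 3, 5), (6, 4, 2, 5), (6, 5, 3, 4)],
    []⟩,
  ⟨[0, 0, 1, 2, 5, 26, 60], 11, [20, 40, 81, 98, 101, 90, 60], [2, 2, 3, 3, 4, 4, 4], [(4, 2, 0, 6), (4, 3, 5, 6), (5, 2, 4, 6), (5, 3, 1, 6), (6, 0, 2, 4), (6, 1, 3, 5), (6, 4, 2, 5), (6, 5, 3, 4)],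
    [(3, .perm [7, 0, 1, 2, 3, 4, 5, 6] [0, 1, 1, 2, 4, 10, 52, 120] 13),
    (5, .perm [1, 7, 3, 0, 5, 2, 6, 4] [0, 0, 1, 2, 5, 10, 52, 120] 13),
    (6, .perm [7, 0, 1, 3, 2, 4, 5, 6] [0, 0, 1, 4, 3, 18, 44, 120] 13),
    (7, .perm [1, 7, 3, 0, 5, 2, 6, 4] [0, 1, 1, 2, 5, 10, 52, 120] 14),
    (9, .perm [7, 1, 0, 2, 3, 5, 4, 6] [0, 0, 1, 4, 3, 18, 44, 120] 13),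
    (10, .perm [0, 7, 2, 1, 4, 3, 6, 5] [0, 0, 1, 2, 5, 10, 52, 120] 13),
    (11, .perm [0, 7, 2, 1, 4, 3, 6, 5] [0, 1, 1, 2, 5, 10, 52, 120] 14),
    (12, .coin 7 6 [(-1, 3, 2, 6, 7), (1, 4, 3, 5, 6), (1, 5, 2, 4, 6)] 1),
    (17, .perm [1, 7, 0, 3, 2, 5, 6, 4] [0, 0, 2, 1, 4, 9, 56, 118] 13),
    (18, .coin 7 5 [(-1, 4, 1, 5, 7), (1, 4, 3, 5, 6), (-1, 5, 3, 1, 6)] 1),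
    (19, .coin 7 5 [(-1, 4, 1, 5, 7), (1, 4, 3, 5, 6), (-1, 5, 3, 1, 6)] 1),
    (33, .coin 7 4 [(-1, 4, 2, 0, 6), (-1, 5, 0, 4, 7), (1, 5, 2, 4, 6)] 1),
    (34, .perm [0, 7, 1, 2, 3, 4, 6, 5] [0, 0, 2, 1, 4, 9, 56, 118] 13),
    (35, .coin 7 4 [(-1, 4, 2, 0, 6), (-1, 5, 0, 4, 7), (1, 5, 2, 4, 6)] 1),
    (48, .perm [0, 1, 7, 2, 3, 6, 4, 5] [0, 0, 0, 1, 2, 24, 45, 118] 13),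
    (68, .perm [1, 0, 7, 3, 2, 5, 4, 6] [0, 0, 0, 1, 6, 9, 50, 124] 13),
    (72, .perm [0, 1, 7, 2, 3, 4, 5, 6] [0, 0, 0, 1, 6, 9, 50, 124] 13)]⟩,
  ⟨[0, 0, 0, 2, 4, 26, 61], 10, [64, 40, 80, 98, 100, 90, 61], [1, 2, 2, 3, 3, 4, 5], [(4, 3, 5, 6), (5, 2, 4, 6), (5, 3, 1, 6), (6, 1, 3, 5), (6, 4, 2, 5), (6, 5, 3, 4)],
    []⟩,
  ⟨[0, 0, 2, 1, 4, 25, 62], 11, [40, 68, 82, 97, 100, 89, 62], [2, 2, 3, 3, 3, 4, 5], [(4, 1, 2, 6), (4, 3, 5, 6), (5, 2, 4, 6), (5, 3, 0, 6), (6, 0, 3, 5), (6, 2, 1, 4), (6, 4, 2, 5), (6, 5, 3, 4)],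
    [(3, .perm [7, 0, 1, 2, 3, 4, 5, 6] [0, 1, 1, 4, 2, 8, 50, 124] 13),
    (5, .perm [7, 1, 0, 3, 4, 2, 5, 6] [0, 0, 1, 4, 0, 19, 28, 122] 13),
    (6, .perm [0, 7, 3, 1, 4, 5, 2, 6] [0, 0, 1, 2, 0, 21, 26, 124] 13),
    (7, .perm [0, 7, 3, 1, 4, 5, 2, 6] [0, 1, 1, 2, 0, 21, 26, 124] 14),
    (9, .perm [7, 1, 2, 0, 4, 3, 5, 6] [0, 0, 2, 1, 4, 9, 56, 118] 13),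
    (10, .eqd 7 6 1 2 [(-1, 3, 1, 6, 7), (1, 4, 3, 5, 6), (1, 5, 2, 4, 6)] 1),
    (11, .coin 3 1 [(1, 3, 0, 5, 7), (-1, 3, 1, 6, 7), (1, 5, 3, 0, 6)] 1),
    (12, .coin 7 6 [(-1, 3, 2, 6, 7), (1, 4, 3, 5, 6), (1, 5, 2, 4, 6)] 1),
    (17, .coin 7 5 [(-1, 4, 0, 5, 7), (1, 4, 3, 5, 6), (-1, 5, 3, 0, 6)] 1),
    (20, .perm [0, 7, 1, 3, 2, 5, 4, 6] [0, 0, 0, 1, 6, 9, 50, 124] 13),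
    (33, .perm [1, 7, 2, 0, 4, 3, 6, 5] [0, 0, 1, 2, 4, 8, 53, 122] 13),
    (34, .coin 7 6 [(1, 4, 1, 2, 6), (-1, 5, 1, 6, 7), (1, 5, 2, 4, 6)] 1),
    (35, .coin 5 1 [(1, 5, 0, 3, 7), (-1, 5, 1, 6, 7), (1, 5, 3, 0, 6)] 1),
    (48, .perm [1, 0, 7, 2, 3, 4, 5, 6] [0, 0, 0, 1, 2, 12, 54, 121] 13),
    (66, .eqd 7 3 1 6 [(-1, 4, 3, 5, 6), (-1, 5, 2, 4, 6), (-1, 6, 1, 2, 7)] 1),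
    (72, .eqd 7 1 0 5 [(-1, 4, 1, 2, 6), (-1, 5, 2, 4, 6), (1, 5, 3, 0, 6), (-1, 6, 3, 5, 7)] 1)]⟩,
  ⟨[0, 0, 0, 1, 6, 26, 61], 11, [72, 48, 80, 97, 102, 90, 61], [2, 2, 2, 3, 4, 4, 5], [(4, 3, 5, 6), (5, 0, 3, 6), (5, 2, 4, 6), (5, 4, 1, 6), (6, 1, 4, 5), (6, 3, 0, 5), (6, 4, 2, 5), (6, 5, 3, 4)],
    [(3, .perm [7, 2, 0, 1, 3, 4, 5, 6] [0, 0, 1, 1, 4, 10, 56, 118] 13),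
    (5, .eqd 7 6 0 3 [(-1, 2, 0, 6, 7), (1, 4, 3, 5, 6), (1, 5, 2, 4, 6)] 1),
    (6, .coin 7 4 [(-1, 2, 1, 4, 7), (1, 5, 2, 4, 6), (-1, 5, 4, 1, 6)] 1),
    (7, .coin 5 0 [(-1, 2, 0, 6, 7), (1, 2, 1, 4, 7), (1, 5, 4, 1, 6)] 1),
    (9, .perm [7, 1, 2, 0, 4, 3, 5, 6] [0, 0, 0, 1, 6, 9, 50, 124] 13),
    (10, .coin 7 5 [(-1, 3, 1, 5, 7), (1, 4, 3, 5, 6), (-1, 5, 4, 1, 6)] 1),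
    (12, .coin 7 6 [(-1, 3, 2, 6, 7), (1, 4, 3, 5, 6), (1, 5, 2, 4, 6)] 1),
    (17, .coin 7 6 [(-1, 4, 0, 6, 7), (1, 4, 3, 5, 6), (1, 5, 0, 3, 6)] 1),
    (18, .perm [0, 7, 2, 3, 1, 5, 6, 4] [0, 0, 0, 1, 2, 24, 45, 118] 13),
    (20, .perm [0, 7, 1, 3, 2, 5, 4, 6] [0, 0, 0, 1, 2, 12, 54, 121] 13),
    (34, .perm [7, 0, 2, 1, 3, 4, 6, 5] [0, 0, 0, 1, 2, 12, 54, 121] 13),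
    (40, .perm [0, 7, 2, 1, 3, 4, 6, 5] [0, 0, 0, 0, 3, 12, 53, 122] 13),
    (65, .eqd 7 2 0 6 [(-1, 4, 3, 5, 6), (-1, 5, 2, 4, 6), (-1, 6, 0, 3, 7)] 1),
    (68, .eqd 7 0 2 6 [(-1, 4, 3, 5, 6), (-1, 5, 0, 3, 6), (-1, 6, 2, 4, 7)] 1)]⟩,
  ⟨[0, 0, 0, 1, 6, 26, 60], 10, [8, 48, 80, 97, 102, 90, 60], [1, 2, 2, 3, 4, 4, 4], [(4, 3, 5, 6), (5, 2, 4, 6), (5, 4, 1, 6), (6, 1, 4, 5), (6, 4, 2, 5), (6, 5, 3, 4)],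
    []⟩,
  ⟨[0, 0, 0, 0, 6, 26, 61], 10, [64, 48, 80, 96, 102, 90, 61], [1, 2, 2, 2, 4, 4, 5], [(4, 3, 5, 6), (5, 2, 4, 6), (5, 4, 1, 6), (6, 1, 4, 5), (6, 4, 2, 5), (6, 5, 3, 4)],
    []⟩,
  ⟨[0, 0, 1, 2, 4, 24, 62], 10, [4, 72, 81, 98, 100, 88, 62], [1, 2, 3, 3, 3, 3, 5], [(4, 3, 5, 6), (5, 1, 3, 6), (5, 2, 4, 6), (6, 3, 1, 5), (6, 4, 2, 5), (6, 5, 3, 4)],
    []⟩,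
  ⟨[0, 0, 0, 2, 8, 21, 62], 10, [32, 72, 96, 82, 104, 85, 62], [1, 2, 2, 3, 3, 4, 5], [(4, 1, 3, 6), (4, 2, 5, 6), (5, 3, 4, 6), (6, 3, 1, 4), (6, 4, 3, 5), (6, 5, 2, 4)],
    []⟩,
  ⟨[0, 0, 0, 2, 4, 25, 62], 10, [32, 72, 80, 98, 100, 89, 62], [1, 2, 2, 3, 3, 4, 5], [(4, 3, 5, 6), (5, 1, 3, 6), (5, 2, 4, 6), (6, 3, 1, 5), (6, 4, 2, 5), (6, 5, 3, 4)],
    []⟩,
  ⟨[0, 0, 0, 2, 4, 24, 63], 10, [64, 72, 80, 98, 100, 88, 63], [1, 2, 2, 3, 3, 3, 6], [(4, 3, 5, 6), (5, 1, 3, 6), (5, 2, 4, 6), (6, 3, 1, 5), (6, 4, 2, 5), (6, 5, 3, 4)],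
    []⟩,
  ⟨[0, 1, 1, 2, 4, 24, 63], 12, [70, 73, 81, 98, 100, 88, 63], [3, 3, 3, 3, 3, 3, 6], [(2, 1, 0, 6), (3, 0, 1, 6), (4, 0, 2, 6), (4, 3, 5, 6), (5, 1, 3, 6), (5, 2, 4, 6), (6, 0, 1, 2), (6, 1, 0, 3), (6, 2, 0, 4), (6, 3, 1, 5), (6, 4, 2, 5), (6, 5, 3, 4)],
    [(1, .perm [7, 5, 3, 4, 1, 2, 0, 6] [0, 0, 2, 2, 4, 8, 49, 126] 13),
    (2, .perm [7, 4, 2, 5, 0, 3, 1, 6] [0, 0, 2, 2, 4, 8, 49, 126] 13),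
    (3, .perm [7, 4, 5, 2, 3, 0, 1, 6] [0, 0, 2, 2, 4, 9, 49, 126] 14),
    (4, .perm [7, 3, 1, 5, 0, 4, 2, 6] [0, 0, 2, 2, 4, 8, 49, 126] 13),
    (5, .perm [7, 3, 5, 1, 4, 0, 2, 6] [0, 0, 2, 2, 4, 9, 49, 126] 14),
    (8, .perm [7, 2, 0, 4, 1, 5, 3, 6] [0, 0, 2, 2, 4, 8, 49, 126] 13),
    (10, .perm [7, 2, 4, 0, 5, 1, 3, 6] [0, 0, 2, 2, 4, 9, 49, 126] 14),
    (12, .coin 7 6 [(1, 2, 1, 0, 6), (1, 3, 0, 1, 6), (-1, 3, 2, 6, 7)] 1),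
    (16, .perm [7, 1, 0, 3, 2, 5, 4, 6] [0, 0, 2, 2, 4, 8, 49, 126] 13),
    (18, .coin 7 6 [(1, 2, 1, 0, 6), (1, 4, 0, 2, 6), (-1, 4, 1, 6, 7)] 1),
    (20, .perm [7, 1, 3, 0, 5, 2, 4, 6] [0, 0, 2, 2, 4, 9, 49, 126] 14),
    (32, .perm [7, 0, 1, 2, 3, 4, 5, 6] [0, 0, 2, 2, 4, 8, 49, 126] 13),
    (33, .coin 7 6 [(1, 2, 1, 0, 6), (1, 3, 0, 1, 6), (1, 4, 0, 2, 6), (-1, 4, 3, 5, 6), (-1, 5, 0, 6, 7)] 1),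
    (40, .perm [7, 0, 2, 1, 4, 3, 5, 6] [0, 0, 2, 2, 4, 9, 49, 126] 14),
    (48, .perm [7, 0, 1, 2, 3, 4, 5, 6] [0, 0, 2, 2, 4, 9, 49, 126] 14),
    (64, .perm [7, 0, 1, 2, 3, 4, 5, 6] [0, 0, 2, 2, 4, 8, 48, 127] 13)]⟩]

def T8 : List G := [
  ⟨[0, 1, 1, 6, 0, 16, 51, 60], 13, [70, 73, 137, 134, 224, 208, 51, 60], [3, 3, 3, 3, 3, 3, 4, 4], [(2, 1, 0, 3), (3, 0, 1, 2), (5, 4, 6, 7), (7, 6, 4, 5)],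
    [(21, .eqd 7 6 2 0 [(1, 4, 0, 6, 8), (-1, 4, 2, 7, 8)] 1),
    (26, .eqd 7 6 2 0 [(-1, 2, 1, 0, 3), (1, 4, 1, 6, 8), (-1, 4, 3, 7, 8)] 1),
    (37, .eqd 7 6 2 0 [(1, 5, 0, 6, 8), (-1, 5, 2, 7, 8)] 1),
    (42, .eqd 7 6 2 0 [(-1, 2, 1, 0, 3), (1, 5, 1, 6, 8), (-1, 5, 3, 7, 8)] 1),
    (67, .k4 1 0 6 8),
    (69, .coin 3 0 [(-1, 2, 1, 0, 3), (-1, 6, 0, 1, 8), (1, 6, 2, 0, 8)] 1),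
    (74, .coin 2 1 [(1, 2, 1, 0, 3), (-1, 6, 1, 0, 8), (1, 6, 3, 1, 8)] 1),
    (76, .perm [4, 5, 0, 1, 8, 7, 2, 3, 6] [0, 1, 0, 4, 0, 3, 52, 120, 31] 16),
    (81, .perm [3, 2, 1, 5, 8, 7, 0, 4, 6] [0, 1, 1, 0, 0, 11, 22, 56, 220] 16),
    (82, .perm [2, 3, 0, 5, 8, 7, 1, 4, 6] [0, 1, 1, 0, 0, 11, 22, 56, 220] 16),
    (84, .coin 4 2 [(-1, 4, 2, 7, 8), (1, 5, 4, 6, 7), (1, 6, 4, 5, 8)] 1),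
    (88, .coin 4 3 [(-1, 4, 3, 7, 8), (1, 5, 4, 6, 7), (1, 6, 4, 5, 8)] 1),
    (97, .perm [3, 2, 1, 4, 8, 7, 0, 5, 6] [0, 1, 1, 0, 0, 11, 22, 56, 220] 16),
    (98, .perm [2, 3, 0, 4, 8, 7, 1, 5, 6] [0, 1, 1, 0, 0, 11, 22, 56, 220] 16),
    (100, .coin 4 0 [(-1, 5, 2, 7, 8), (1, 5, 4, 6, 7), (1, 6, 2, 0, 8)] 1),
    (104, .coin 4 1 [(-1, 5, 3, 7, 8), (1, 5, 4, 6, 7), (1, 6, 3, 1, 8)] 1),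
    (131, .perm [4, 5, 2, 3, 8, 6, 0, 1, 7] [0, 1, 0, 4, 0, 3, 52, 120, 31] 16),
    (133, .coin 2 1 [(-1, 2, 1, 0, 3), (-1, 7, 0, 2, 8), (1, 7, 2, 3, 8)] 1),
    (138, .coin 3 0 [(1, 2, 1, 0, 3), (-1, 7, 1, 3, 8), (1, 7, 3, 2, 8)] 1),
    (140, .k4 3 2 7 8),
    (145, .coin 4 0 [(-1, 4, 0, 6, 8), (1, 5, 4, 6, 7), (1, 7, 4, 5, 8)] 1),
    (146, .coin 4 1 [(-1, 4, 1, 6, 8), (1, 5, 4, 6, 7), (1, 7, 4, 5, 8)] 1),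
    (148, .perm [1, 0, 3, 5, 8, 6, 2, 4, 7] [0, 1, 1, 0, 0, 11, 22, 56, 220] 16),
    (152, .perm [0, 1, 2, 5, 8, 6, 3, 4, 7] [0, 1, 1, 0, 0, 11, 22, 56, 220] 16),
    (161, .coin 4 2 [(-1, 5, 0, 6, 8), (1, 5, 4, 6, 7), (1, 7, 0, 2, 8)] 1),
    (162, .coin 4 3 [(-1, 5, 1, 6, 8), (1, 5, 4, 6, 7), (1, 7, 1, 3, 8)] 1),
    (164, .perm [1, 0, 3, 4, 8, 6, 2, 5, 7] [0, 1, 1, 0, 0, 11, 22, 56, 220] 16),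
    (168, .perm [0, 1, 2, 4, 8, 6, 3, 5, 7] [0, 1, 1, 0, 0, 11, 22, 56, 220] 16)]⟩,
  ⟨[0, 1, 3, 1, 2, 8, 52, 120], 13, [14, 21, 67, 161, 194, 200, 180, 120], [3, 3, 3, 3, 3, 3, 4, 4], [(4, 2, 1, 6), (5, 4, 6, 7), (6, 1, 2, 4), (6, 3, 5, 7), (7, 5, 3, 6), (7, 6, 4, 5)],
    [(7, .k4 1 0 2 8),
    (11, .perm [2, 4, 8, 5, 1, 6, 0, 7, 3] [0, 0, 0, 0, 7, 11, 21, 42, 204] 16),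
    (13, .perm [1, 4, 8, 5, 2, 6, 0, 7, 3] [0, 1, 0, 0, 5, 26, 21, 42, 204] 16),
    (19, .coin 6 1 [(-1, 1, 0, 2, 8), (1, 4, 0, 1, 8), (-1, 4, 2, 1, 6)] 1),
    (25, .coin 8 7 [(-1, 4, 3, 7, 8), (1, 5, 4, 6, 7), (1, 6, 3, 5, 7)] 1),
    (26, .coin 8 7 [(-1, 4, 3, 7, 8), (1, 5, 4, 6, 7), (1, 6, 3, 5, 7)] 1),
    (35, .dbl 7 3 1 2 [(-1, 1, 0, 2, 8), (1, 4, 2, 1, 6), (1, 5, 0, 3, 8), (-1, 5, 4, 6, 7)] 1),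
    (37, .coin 7 3 [(-1, 2, 0, 1, 8), (1, 4, 2, 1, 6), (1, 5, 0, 3, 8), (-1, 5, 4, 6, 7)] 1),
    (38, .eqd 5 4 2 0 [(-1, 2, 1, 0, 8), (-1, 4, 2, 1, 6), (1, 5, 2, 6, 8)] 1),
    (41, .perm [1, 2, 4, 8, 0, 6, 7, 3, 5] [0, 1, 1, 0, 11, 6, 36, 88, 232] 16),
    (42, .dbl 2 0 1 0 [(-1, 3, 1, 0, 8), (1, 4, 2, 1, 6), (1, 5, 3, 7, 8), (-1, 5, 4, 6, 7)] 1),
    (44, .coin 5 2 [(-1, 5, 2, 6, 8), (1, 5, 3, 7, 8), (-1, 6, 3, 5, 7)] 1),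
    (69, .coin 4 2 [(-1, 2, 0, 1, 8), (1, 4, 2, 1, 6), (1, 6, 0, 2, 8)] 1),
    (81, .perm [1, 3, 2, 5, 8, 0, 7, 4, 6] [0, 0, 1, 2, 0, 23, 10, 81, 220] 16),
    (97, .coin 5 0 [(-1, 5, 0, 3, 8), (-1, 6, 3, 5, 7), (1, 6, 5, 7, 8)] 1),
    (100, .eqd 6 1 3 7 [(1, 4, 2, 1, 6), (-1, 5, 2, 6, 8), (-1, 5, 4, 6, 7), (-1, 6, 3, 5, 7), (1, 6, 5, 7, 8)] 1),
    (131, .coin 5 3 [(-1, 1, 0, 2, 8), (-1, 4, 2, 1, 6), (1, 5, 4, 6, 7), (1, 7, 0, 3, 8)] 1),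
    (133, .coin 5 4 [(1, 2, 0, 1, 8), (-1, 4, 2, 1, 6), (-1, 6, 3, 5, 7), (-1, 7, 0, 3, 8)] 1),
    (134, .perm [3, 0, 5, 8, 4, 1, 2, 6, 7] [0, 1, 1, 0, 0, 26, 42, 84, 157] 16),
    (137, .perm [1, 2, 4, 8, 5, 0, 6, 3, 7] [0, 1, 1, 0, 0, 11, 22, 56, 220] 16),
    (138, .coin 2 0 [(1, 3, 1, 0, 8), (1, 4, 2, 1, 6), (-1, 5, 4, 6, 7), (-1, 7, 3, 5, 8)] 1),
    (140, .coin 5 0 [(1, 3, 2, 0, 8), (-1, 6, 3, 5, 7), (-1, 7, 2, 6, 8)] 1),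
    (145, .coin 5 2 [(1, 4, 0, 1, 8), (-1, 4, 2, 1, 6), (-1, 6, 3, 5, 7), (-1, 7, 0, 3, 8)] 1),
    (146, .coin 4 2 [(-1, 4, 2, 1, 6), (-1, 7, 1, 4, 8), (1, 7, 4, 6, 8)] 1),
    (152, .coin 7 3 [(-1, 5, 4, 6, 7), (-1, 7, 3, 5, 8), (1, 7, 4, 6, 8)] 1)]⟩,
  ⟨[0, 1, 1, 2, 4, 8, 53, 58], 13, [70, 137, 81, 162, 196, 200, 53, 58], [3, 3, 3, 3, 3, 3, 4, 4], [(4, 0, 2, 6), (5, 1, 3, 7), (5, 4, 6, 7), (6, 2, 0, 4), (7, 3, 1, 5), (7, 6, 4, 5)],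
    [(7, .perm [3, 5, 4, 8, 7, 1, 6, 2, 0] [0, 1, 0, 0, 7, 25, 6, 76, 232] 16),
    (11, .perm [2, 4, 5, 8, 6, 0, 7, 3, 1] [0, 1, 0, 0, 7, 25, 6, 76, 232] 16),
    (13, .dbl 4 2 0 8 [(-1, 2, 0, 6, 8), (-1, 3, 0, 1, 8), (-1, 5, 1, 3, 7), (1, 5, 4, 6, 7)] 1),
    (14, .dbl 5 3 0 2 [(1, 2, 1, 0, 8), (-1, 3, 1, 7, 8), (-1, 4, 0, 2, 6), (1, 5, 4, 6, 7)] 1),
    (22, .coin 2 1 [(-1, 2, 1, 0, 8), (-1, 4, 0, 2, 6), (1, 4, 2, 6, 8)] 1),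
    (28, .eqd 8 6 1 7 [(-1, 4, 3, 7, 8), (-1, 5, 1, 3, 7), (1, 5, 4, 6, 7)] 1),
    (41, .coin 3 0 [(-1, 3, 0, 1, 8), (-1, 5, 1, 3, 7), (1, 5, 3, 7, 8)] 1),
    (44, .eqd 8 7 0 6 [(-1, 4, 0, 2, 6), (-1, 5, 2, 6, 8), (1, 5, 4, 6, 7)] 1),
    (67, .perm [3, 5, 4, 2, 8, 7, 1, 0, 6] [0, 1, 0, 4, 0, 7, 49, 88, 158] 16),
    (73, .coin 4 2 [(-1, 3, 0, 1, 8), (-1, 5, 1, 3, 7), (1, 5, 4, 6, 7), (1, 6, 0, 2, 8)] 1),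
    (74, .coin 4 1 [(-1, 3, 1, 7, 8), (1, 5, 4, 6, 7), (1, 6, 3, 5, 8)] 1),
    (82, .coin 5 0 [(-1, 4, 1, 7, 8), (1, 5, 4, 6, 7), (1, 6, 1, 0, 8)] 1),
    (88, .perm [0, 1, 2, 5, 8, 3, 7, 4, 6] [0, 1, 1, 0, 0, 26, 42, 84, 157] 16),
    (97, .eqd 7 6 4 2 [(1, 5, 0, 6, 8), (-1, 5, 4, 6, 7), (-1, 6, 0, 2, 8)] 1),
    (104, .coin 5 4 [(1, 5, 3, 7, 8), (-1, 5, 4, 6, 7), (-1, 6, 3, 5, 8)] 1),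
    (131, .perm [2, 4, 5, 3, 8, 6, 0, 1, 7] [0, 1, 0, 4, 0, 7, 49, 88, 158] 16),
    (133, .coin 5 0 [(-1, 2, 0, 6, 8), (1, 5, 4, 6, 7), (1, 7, 2, 4, 8)] 1),
    (134, .coin 5 3 [(-1, 2, 1, 0, 8), (-1, 4, 0, 2, 6), (1, 5, 4, 6, 7), (1, 7, 1, 3, 8)] 1),
    (146, .eqd 7 6 1 7 [(-1, 4, 1, 7, 8), (-1, 5, 1, 3, 7), (1, 5, 4, 6, 7), (1, 7, 1, 3, 8)] 1),
    (148, .coin 5 4 [(-1, 4, 2, 6, 8), (1, 5, 4, 6, 7), (1, 7, 2, 4, 8)] 1),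
    (161, .coin 4 1 [(-1, 5, 0, 6, 8), (1, 5, 4, 6, 7), (1, 7, 0, 1, 8)] 1),
    (164, .perm [1, 0, 3, 4, 8, 2, 6, 5, 7] [0, 1, 1, 0, 0, 26, 42, 84, 157] 16)]⟩,
  ⟨[0, 1, 0, 4, 0, 29, 22, 90], 13, [34, 193, 104, 164, 224, 29, 150, 90], [2, 3, 3, 3, 3, 4, 4, 4], [(4, 1, 6, 7), (4, 2, 5, 6), (4, 3, 5, 7), (6, 3, 2, 7), (6, 5, 2, 4), (7, 2, 3, 6), (7, 5, 3, 4), (7, 6, 1, 4)],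
    [(7, .coin 3 0 [(-1, 2, 0, 5, 8), (1, 2, 1, 6, 8), (-1, 4, 1, 6, 7), (1, 4, 3, 5, 7)] 1),
    (11, .coin 2 0 [(-1, 3, 0, 5, 8), (1, 3, 1, 7, 8), (-1, 4, 1, 6, 7), (1, 4, 2, 5, 6)] 1),
    (35, .perm [0, 8, 2, 3, 4, 1, 6, 7, 5] [0, 1, 0, 4, 0, 3, 52, 120, 31] 16),
    (37, .perm [0, 1, 8, 4, 3, 7, 6, 2, 5] [0, 1, 1, 0, 0, 26, 42, 84, 157] 16),
    (41, .perm [0, 1, 8, 4, 2, 6, 7, 3, 5] [0, 1, 1, 0, 0, 26, 42, 84, 157] 16),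
    (49, .perm [0, 1, 8, 2, 3, 6, 7, 4, 5] [0, 1, 1, 0, 8, 10, 50, 100, 157] 16),
    (67, .perm [3, 0, 2, 8, 4, 5, 1, 7, 6] [0, 0, 1, 2, 0, 23, 10, 81, 220] 16),
    (69, .coin 4 1 [(-1, 2, 0, 5, 8), (1, 4, 2, 5, 6), (1, 6, 0, 1, 8)] 1),
    (81, .coin 2 1 [(-1, 4, 0, 5, 8), (1, 4, 2, 5, 6), (1, 6, 0, 1, 8)] 1),
    (131, .perm [2, 0, 3, 8, 4, 5, 1, 6, 7] [0, 0, 1, 2, 0, 23, 10, 81, 220] 16),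
    (137, .coin 4 1 [(-1, 3, 0, 5, 8), (1, 4, 3, 5, 7), (1, 7, 0, 1, 8)] 1),
    (145, .coin 3 1 [(-1, 4, 0, 5, 8), (1, 4, 3, 5, 7), (1, 7, 0, 1, 8)] 1)]⟩,
  ⟨[0, 0, 0, 0, 13, 14, 21, 106], 13, [80, 160, 112, 176, 77, 142, 149, 106], [2, 2, 3, 3, 4, 4, 4, 4], [(2, 0, 4, 6), (3, 1, 5, 7), (3, 2, 4, 5), (5, 4, 2, 3), (6, 3, 4, 7), (6, 4, 0, 2), (6, 5, 2, 7), (7, 2, 5, 6), (7, 4, 3, 6), (7, 5, 1, 3)],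
    [(19, .perm [8, 1, 0, 3, 2, 5, 7, 6, 4] [0, 1, 1, 0, 0, 26, 42, 84, 157] 16),
    (35, .perm [8, 0, 1, 2, 3, 4, 6, 7, 5] [0, 1, 1, 0, 0, 26, 42, 84, 157] 16),
    (67, .coin 2 0 [(-1, 3, 1, 5, 7), (1, 3, 2, 4, 5), (-1, 6, 0, 4, 8), (1, 6, 1, 7, 8)] 1),
    (131, .coin 3 1 [(-1, 2, 0, 4, 6), (1, 3, 2, 4, 5), (1, 7, 0, 6, 8), (-1, 7, 1, 5, 8)] 1)]⟩,
  ⟨[0, 1, 0, 4, 5, 21, 26, 106], 14, [50, 193, 56, 196, 101, 149, 154, 106], [3, 3, 3, 3, 4, 4, 4, 4], [(2, 0, 4, 5), (3, 1, 6, 7), (4, 1, 0, 6), (4, 3, 2, 6), (5, 1, 0, 7), (5, 3, 2, 7), (5, 4, 0, 2), (6, 0, 1, 4), (6, 2, 3, 4), (6, 5, 4, 7), (7, 0, 1, 5), (7, 2, 3, 5), (7, 4, 5, 6), (7, 6, 1, 3)],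
    [(3, .perm [8, 2, 3, 0, 1, 4, 5, 6, 7] [0, 0, 2, 1, 9, 10, 42, 52, 212] 16),
    (6, .perm [8, 0, 3, 1, 2, 4, 5, 6, 7] [0, 0, 0, 3, 5, 18, 50, 44, 204] 16),
    (9, .perm [8, 1, 2, 0, 3, 6, 7, 4, 5] [0, 0, 0, 3, 5, 18, 50, 44, 204] 16),
    (12, .perm [8, 0, 1, 2, 3, 4, 5, 6, 7] [0, 0, 2, 1, 9, 10, 42, 52, 212] 16),
    (17, .perm [8, 3, 2, 1, 0, 7, 6, 5, 4] [0, 0, 2, 0, 9, 10, 42, 52, 213] 16),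
    (20, .perm [8, 1, 0, 3, 2, 7, 6, 5, 4] [0, 0, 2, 0, 9, 10, 42, 52, 213] 16),
    (33, .perm [8, 3, 2, 1, 0, 6, 7, 4, 5] [0, 0, 2, 0, 9, 10, 42, 52, 213] 16),
    (36, .perm [8, 1, 0, 3, 2, 6, 7, 4, 5] [0, 0, 2, 0, 9, 10, 42, 52, 213] 16),
    (66, .perm [8, 2, 3, 0, 1, 5, 4, 7, 6] [0, 0, 2, 0, 9, 10, 42, 52, 213] 16),
    (72, .perm [8, 0, 1, 2, 3, 5, 4, 7, 6] [0, 0, 2, 0, 9, 10, 42, 52, 213] 16),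
    (80, .perm [8, 0, 1, 2, 3, 5, 7, 4, 6] [0, 0, 2, 0, 8, 10, 52, 43, 213] 16),
    (130, .perm [8, 2, 3, 0, 1, 4, 5, 6, 7] [0, 0, 2, 0, 9, 10, 42, 52, 213] 16),
    (136, .perm [8, 0, 1, 2, 3, 4, 5, 6, 7] [0, 0, 2, 0, 9, 10, 42, 52, 213] 16),
    (160, .perm [8, 0, 1, 2, 3, 4, 6, 5, 7] [0, 0, 2, 0, 8, 10, 52, 43, 213] 16)]⟩,
  ⟨[0, 0, 0, 4, 13, 6, 42, 113], 13, [144, 96, 56, 84, 141, 198, 170, 113], [2, 2, 3, 3, 4, 4, 4, 4], [(5, 3, 2, 6), (5, 4, 2, 7), (6, 2, 3, 5), (6, 4, 3, 7), (6, 5, 1, 7), (7, 1, 5, 6), (7, 2, 4, 5), (7, 3, 4, 6)],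
    [(7, .coin 3 0 [(-1, 2, 0, 4, 8), (1, 2, 1, 5, 8), (1, 5, 3, 2, 6), (-1, 5, 4, 2, 7), (1, 6, 5, 1, 7)] 1),
    (11, .coin 2 0 [(-1, 3, 0, 4, 8), (1, 3, 1, 6, 8), (-1, 5, 4, 2, 7), (1, 6, 5, 1, 7)] 1),
    (19, .perm [8, 1, 0, 2, 3, 5, 6, 7, 4] [0, 1, 1, 0, 8, 10, 50, 100, 157] 16),
    (35, .coin 5 0 [(-1, 5, 0, 7, 8), (1, 5, 1, 6, 8), (1, 6, 5, 1, 7)] 1),
    (67, .coin 6 0 [(-1, 6, 0, 7, 8), (1, 6, 1, 5, 8), (1, 6, 5, 1, 7)] 1)]⟩,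
  ⟨[0, 1, 0, 4, 12, 4, 42, 115], 13, [130, 193, 56, 84, 140, 196, 170, 115], [2, 3, 3, 3, 3, 3, 4, 5], [(5, 1, 6, 7), (5, 3, 2, 6), (5, 4, 2, 7), (6, 0, 1, 7), (6, 2, 3, 5), (6, 4, 3, 7), (7, 1, 0, 6), (7, 2, 4, 5), (7, 3, 4, 6), (7, 6, 1, 5)],
    [(7, .perm [3, 8, 4, 0, 5, 2, 1, 6, 7] [0, 0, 1, 2, 0, 23, 10, 81, 220] 16),
    (11, .coin 3 1 [(-1, 1, 0, 7, 8), (1, 3, 1, 6, 8), (1, 6, 0, 1, 7)] 1),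
    (13, .perm [0, 8, 1, 4, 5, 2, 3, 6, 7] [0, 1, 1, 0, 0, 26, 42, 84, 157] 16),
    (21, .coin 5 1 [(-1, 4, 0, 7, 8), (1, 4, 2, 3, 8), (1, 5, 3, 2, 6), (1, 6, 0, 1, 7)] 1),
    (25, .coin 1 0 [(-1, 4, 0, 7, 8), (1, 4, 3, 2, 8), (1, 5, 1, 6, 7), (-1, 5, 3, 2, 6)] 1),
    (37, .coin 8 7 [(-1, 5, 0, 7, 8), (1, 5, 1, 6, 7), (1, 6, 0, 1, 7)] 1),
    (145, .coin 5 3 [(-1, 4, 0, 7, 8), (1, 5, 1, 6, 7), (-1, 5, 3, 2, 6), (1, 5, 4, 2, 7), (1, 7, 0, 1, 8)] 1),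
    (161, .coin 7 0 [(-1, 5, 1, 6, 7), (-1, 7, 0, 1, 8), (1, 7, 5, 6, 8)] 1)]⟩,
  ⟨[0, 0, 0, 4, 4, 13, 26, 115], 13, [160, 192, 56, 100, 196, 141, 154, 115], [2, 2, 3, 3, 3, 4, 4, 5], [(4, 1, 6, 7), (4, 3, 2, 6), (5, 4, 2, 7), (6, 2, 3, 4), (6, 5, 3, 7), (7, 2, 4, 5), (7, 3, 5, 6), (7, 6, 1, 4)],
    [(7, .coin 4 1 [(-1, 1, 0, 7, 8), (1, 2, 0, 5, 8), (1, 5, 4, 2, 7)] 1),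
    (11, .coin 5 0 [(-1, 1, 0, 7, 8), (1, 3, 1, 6, 8), (-1, 4, 3, 2, 6), (1, 5, 4, 2, 7)] 1),
    (131, .coin 4 3 [(-1, 1, 0, 7, 8), (1, 4, 1, 6, 7), (-1, 4, 3, 2, 6), (1, 5, 4, 2, 7), (1, 7, 0, 5, 8)] 1)]⟩,
  ⟨[0, 0, 0, 4, 12, 5, 42, 115], 13, [160, 192, 56, 84, 140, 197, 170, 115], [2, 2, 3, 3, 3, 4, 4, 5], [(5, 1, 6, 7), (5, 3, 2, 6), (5, 4, 2, 7), (6, 0, 5, 7), (6, 2, 3, 5), (6, 4, 3, 7), (7, 2, 4, 5), (7, 3, 4, 6), (7, 5, 0, 6), (7, 6, 1, 5)],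
    [(7, .coin 4 1 [(-1, 1, 0, 7, 8), (1, 2, 0, 5, 8), (1, 5, 4, 2, 7)] 1),
    (11, .coin 5 3 [(1, 1, 0, 7, 8), (-1, 3, 1, 6, 8), (-1, 6, 0, 5, 7)] 1),
    (131, .coin 7 0 [(-1, 5, 1, 6, 7), (-1, 7, 0, 5, 8), (1, 7, 1, 6, 8)] 1)]⟩,
  ⟨[0, 0, 0, 4, 5, 25, 22, 106], 13, [48, 192, 88, 164, 101, 153, 150, 106], [2, 2, 3, 3, 4, 4, 4, 4], [(4, 3, 2, 5), (5, 2, 3, 4), (6, 3, 2, 7), (6, 5, 4, 7), (7, 2, 3, 6), (7, 4, 5, 6)],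
    [(7, .eqd 1 0 6 4 [(-1, 2, 0, 4, 8), (1, 2, 1, 6, 8)] 1),
    (11, .eqd 8 2 0 4 [(-1, 3, 0, 5, 8), (1, 4, 3, 2, 5)] 1),
    (19, .eqd 8 5 1 7 [(-1, 4, 1, 6, 8), (1, 4, 3, 2, 5), (-1, 6, 3, 2, 7)] 1),
    (35, .eqd 8 4 1 6 [(-1, 4, 3, 2, 5), (-1, 5, 1, 7, 8), (1, 6, 3, 2, 7)] 1),
    (67, .eqd 8 7 0 5 [(-1, 4, 3, 2, 5), (-1, 6, 0, 4, 8), (1, 6, 3, 2, 7)] 1),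
    (131, .eqd 8 6 0 4 [(1, 4, 3, 2, 5), (-1, 6, 3, 2, 7), (-1, 7, 0, 5, 8)] 1)]⟩,
  ⟨[0, 1, 0, 4, 5, 25, 22, 106], 14, [50, 193, 88, 164, 101, 153, 150, 106], [3, 3, 3, 3, 4, 4, 4, 4], [(4, 1, 0, 6), (4, 3, 2, 5), (5, 1, 0, 7), (5, 2, 3, 4), (6, 0, 1, 4), (6, 3, 2, 7), (6, 5, 4, 7), (7, 0, 1, 5), (7, 2, 3, 6), (7, 4, 5, 6)],
    [(3, .perm [8, 2, 3, 0, 1, 4, 6, 5, 7] [0, 0, 2, 1, 9, 10, 50, 44, 212] 16),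
    (5, .eqd 8 1 2 6 [(-1, 2, 0, 4, 8), (-1, 4, 1, 0, 6)] 1),
    (6, .eqd 8 0 2 4 [(-1, 2, 1, 6, 8), (1, 4, 1, 0, 6)] 1),
    (7, .eqd 8 3 0 5 [(-1, 2, 0, 4, 8), (-1, 4, 3, 2, 5)] 1),
    (9, .eqd 8 2 0 4 [(-1, 3, 0, 5, 8), (1, 4, 3, 2, 5)] 1),
    (10, .eqd 8 0 2 4 [(-1, 3, 1, 7, 8), (1, 4, 3, 2, 5), (1, 5, 1, 0, 7)] 1),
    (11, .eqd 8 2 0 4 [(-1, 3, 0, 5, 8), (1, 4, 3, 2, 5)] 1),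
    (12, .perm [8, 0, 1, 2, 3, 4, 5, 6, 7] [0, 0, 2, 1, 9, 10, 50, 44, 212] 16),
    (13, .eqd 8 1 2 6 [(-1, 2, 0, 4, 8), (-1, 4, 1, 0, 6)] 1),
    (14, .eqd 8 0 2 4 [(-1, 2, 1, 6, 8), (1, 4, 1, 0, 6)] 1),
    (15, .perm [0, 1, 8, 4, 5, 6, 7, 2, 3] [0, 1, 3, 1, 9, 10, 50, 44, 212] 18),
    (17, .perm [8, 3, 2, 1, 0, 7, 6, 5, 4] [0, 0, 2, 0, 9, 10, 44, 50, 213] 16),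
    (20, .perm [8, 1, 0, 3, 2, 7, 5, 6, 4] [0, 0, 2, 0, 9, 10, 44, 50, 213] 16),
    (21, .coin 4 1 [(-1, 2, 0, 4, 8), (-1, 4, 1, 0, 6), (1, 4, 2, 6, 8)] 1),
    (33, .perm [8, 2, 3, 1, 0, 6, 7, 4, 5] [0, 0, 2, 0, 9, 10, 44, 50, 213] 16),
    (40, .perm [8, 1, 0, 2, 3, 6, 4, 7, 5] [0, 0, 2, 0, 9, 10, 44, 50, 213] 16),
    (41, .coin 5 1 [(-1, 3, 0, 5, 8), (-1, 5, 1, 0, 7), (1, 5, 3, 7, 8)] 1),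
    (48, .perm [8, 1, 2, 3, 0, 6, 7, 4, 5] [0, 0, 0, 4, 2, 6, 42, 53, 217] 16),
    (49, .k4 4 0 5 8),
    (66, .perm [8, 3, 2, 0, 1, 5, 4, 7, 6] [0, 0, 2, 0, 9, 10, 44, 50, 213] 16),
    (68, .perm [8, 0, 1, 3, 2, 5, 7, 4, 6] [0, 0, 2, 0, 9, 10, 44, 50, 213] 16),
    (70, .coin 6 0 [(-1, 2, 1, 6, 8), (1, 4, 1, 0, 6), (1, 6, 2, 4, 8)] 1),
    (80, .perm [8, 3, 0, 1, 2, 5, 7, 4, 6] [0, 0, 0, 4, 2, 6, 42, 53, 217] 16),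
    (84, .k4 4 2 6 8),
    (130, .perm [8, 2, 3, 0, 1, 4, 5, 6, 7] [0, 0, 2, 0, 9, 10, 44, 50, 213] 16),
    (136, .perm [8, 0, 1, 2, 3, 4, 6, 5, 7] [0, 0, 2, 0, 9, 10, 44, 50, 213] 16),
    (138, .coin 7 0 [(-1, 3, 1, 7, 8), (1, 5, 1, 0, 7), (1, 7, 3, 5, 8)] 1),
    (160, .perm [8, 2, 0, 1, 3, 4, 6, 5, 7] [0, 0, 0, 4, 2, 6, 42, 53, 217] 16),
    (168, .k4 5 3 7 8),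
    (192, .perm [8, 0, 2, 3, 1, 4, 5, 6, 7] [0, 0, 0, 4, 2, 6, 42, 53, 217] 16),
    (194, .k4 6 1 7 8)]⟩,
  ⟨[0, 1, 0, 4, 4, 24, 14, 115], 13, [130, 193, 88, 100, 164, 152, 142, 115], [2, 3, 3, 3, 3, 3, 4, 5], [(4, 3, 2, 5), (5, 2, 3, 4), (6, 0, 1, 7), (6, 4, 2, 7), (6, 5, 3, 7), (7, 1, 0, 6), (7, 2, 4, 6), (7, 3, 5, 6)],
    [(7, .coin 2 1 [(-1, 1, 0, 7, 8), (1, 2, 1, 6, 8), (1, 6, 0, 1, 7)] 1),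
    (11, .coin 3 1 [(-1, 1, 0, 7, 8), (1, 3, 1, 6, 8), (1, 6, 0, 1, 7)] 1),
    (13, .perm [0, 8, 1, 4, 5, 2, 3, 6, 7] [0, 1, 1, 0, 8, 10, 50, 100, 157] 16),
    (21, .eqd 6 0 2 8 [(-1, 4, 0, 7, 8), (1, 6, 4, 2, 7)] 1),
    (41, .eqd 6 0 3 8 [(-1, 4, 3, 2, 5), (-1, 5, 0, 7, 8), (1, 6, 4, 2, 7)] 1),
    (145, .coin 5 2 [(-1, 6, 0, 1, 7), (1, 6, 4, 2, 7), (1, 7, 0, 1, 8), (-1, 7, 4, 5, 8)] 1),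
    (161, .coin 4 3 [(-1, 4, 3, 2, 5), (-1, 6, 0, 1, 7), (1, 6, 4, 2, 7), (1, 7, 0, 1, 8), (-1, 7, 5, 4, 8)] 1)]⟩,
  ⟨[0, 0, 0, 4, 4, 24, 15, 115], 13, [192, 192, 88, 100, 164, 152, 143, 115], [2, 2, 3, 3, 3, 3, 5, 5], [(1, 0, 6, 7), (4, 3, 2, 5), (5, 2, 3, 4), (6, 4, 2, 7), (6, 5, 3, 7), (7, 2, 4, 6), (7, 3, 5, 6), (7, 6, 0, 1)],
    []⟩,
  ⟨[0, 1, 3, 1, 8, 16, 38, 120], 13, [14, 69, 67, 145, 168, 208, 166, 120], [3, 3, 3, 3, 3, 3, 4, 4], [(2, 1, 0, 6), (5, 3, 4, 7), (6, 0, 1, 2), (6, 4, 5, 7), (7, 4, 3, 5), (7, 5, 4, 6)],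
    [(11, .perm [4, 5, 8, 2, 7, 3, 6, 0, 1] [0, 1, 0, 0, 3, 21, 26, 44, 204] 16),
    (13, .perm [4, 5, 8, 1, 7, 3, 6, 0, 2] [0, 1, 0, 0, 3, 21, 26, 44, 204] 16),
    (19, .perm [3, 8, 5, 2, 4, 0, 7, 1, 6] [0, 0, 0, 0, 7, 11, 21, 42, 204] 16),
    (21, .perm [3, 8, 5, 1, 4, 0, 7, 2, 6] [0, 0, 0, 0, 7, 11, 21, 42, 204] 16),
    (25, .perm [1, 2, 5, 8, 6, 0, 4, 7, 3] [0, 1, 0, 0, 7, 11, 12, 84, 232] 16),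
    (26, .perm [2, 0, 8, 5, 1, 6, 3, 4, 7] [0, 1, 0, 0, 7, 25, 6, 76, 232] 16),
    (28, .perm [1, 0, 8, 5, 2, 6, 3, 4, 7] [0, 1, 0, 0, 7, 25, 6, 76, 232] 16),
    (35, .coin 5 1 [(-1, 1, 0, 2, 8), (-1, 2, 1, 0, 6), (1, 5, 1, 6, 8)] 1),
    (37, .coin 5 2 [(-1, 2, 0, 1, 8), (-1, 2, 1, 0, 6), (1, 5, 2, 6, 8)] 1),
    (49, .coin 4 0 [(-1, 4, 0, 3, 8), (-1, 5, 3, 4, 7), (1, 5, 4, 7, 8)] 1),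
    (50, .coin 5 1 [(-1, 5, 1, 6, 8), (1, 5, 4, 7, 8), (-1, 6, 4, 5, 7)] 1),
    (52, .coin 5 2 [(-1, 5, 2, 6, 8), (1, 5, 4, 7, 8), (-1, 6, 4, 5, 7)] 1),
    (74, .coin 3 1 [(-1, 2, 1, 0, 6), (1, 3, 1, 0, 8), (-1, 6, 1, 2, 8)] 1),
    (76, .coin 3 2 [(-1, 2, 1, 0, 6), (1, 3, 2, 0, 8), (-1, 6, 2, 1, 8)] 1),
    (98, .perm [3, 0, 4, 2, 8, 1, 7, 5, 6] [0, 1, 1, 2, 0, 26, 5, 84, 248] 16),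
    (100, .perm [3, 0, 4, 1, 8, 2, 7, 5, 6] [0, 1, 1, 2, 0, 26, 5, 84, 248] 16),
    (131, .coin 3 2 [(-1, 2, 1, 0, 6), (-1, 7, 0, 3, 8), (1, 7, 1, 6, 8)] 1),
    (133, .coin 3 1 [(-1, 2, 1, 0, 6), (-1, 7, 0, 3, 8), (1, 7, 2, 6, 8)] 1),
    (137, .perm [1, 2, 5, 4, 8, 0, 6, 3, 7] [0, 1, 0, 4, 0, 19, 7, 56, 220] 16),
    (138, .coin 5 2 [(-1, 2, 1, 0, 6), (1, 3, 1, 0, 8), (-1, 6, 4, 5, 7), (-1, 7, 3, 4, 8)] 1),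
    (140, .coin 5 1 [(-1, 2, 1, 0, 6), (1, 3, 2, 0, 8), (-1, 6, 4, 5, 7), (-1, 7, 3, 4, 8)] 1),
    (194, .perm [0, 3, 4, 2, 5, 8, 1, 7, 6] [0, 1, 2, 1, 4, 0, 41, 54, 248] 16),
    (196, .perm [0, 3, 4, 1, 5, 8, 2, 7, 6] [0, 1, 2, 1, 4, 0, 41, 54, 248] 16),
    (200, .coin 7 3 [(-1, 6, 4, 5, 7), (-1, 7, 3, 4, 8), (1, 7, 6, 5, 8)] 1)]⟩,
  ⟨[0, 0, 2, 0, 8, 7, 57, 30], 13, [96, 164, 162, 208, 200, 71, 57, 30], [2, 3, 3, 3, 3, 4, 4, 4], [(2, 1, 5, 7), (4, 3, 6, 7), (7, 5, 1, 2), (7, 6, 3, 4)],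
    [(11, .coin 4 2 [(1, 1, 0, 5, 8), (-1, 2, 1, 5, 7), (-1, 3, 0, 6, 8), (1, 4, 3, 6, 7)] 1),
    (13, .coin 4 1 [(1, 2, 0, 5, 8), (-1, 2, 1, 5, 7), (-1, 3, 0, 6, 8), (1, 4, 3, 6, 7)] 1),
    (19, .coin 3 2 [(1, 1, 0, 5, 8), (-1, 2, 1, 5, 7), (-1, 4, 0, 6, 8), (1, 4, 3, 6, 7)] 1),
    (21, .coin 3 1 [(1, 2, 0, 5, 8), (-1, 2, 1, 5, 7), (-1, 4, 0, 6, 8), (1, 4, 3, 6, 7)] 1),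
    (35, .perm [3, 4, 0, 8, 2, 7, 6, 1, 5] [0, 1, 0, 4, 0, 19, 7, 56, 220] 16),
    (37, .perm [3, 4, 0, 8, 1, 7, 6, 2, 5] [0, 1, 0, 4, 0, 19, 7, 56, 220] 16),
    (73, .perm [1, 2, 0, 8, 4, 7, 5, 3, 6] [0, 1, 0, 4, 0, 19, 7, 56, 220] 16),
    (81, .perm [1, 2, 0, 8, 3, 7, 5, 4, 6] [0, 1, 0, 4, 0, 19, 7, 56, 220] 16),
    (97, .k4 5 0 6 8),
    (131, .coin 1 0 [(-1, 1, 0, 5, 8), (1, 2, 1, 5, 7), (1, 7, 1, 2, 8)] 1),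
    (133, .coin 2 0 [(-1, 2, 0, 5, 8), (1, 2, 1, 5, 7), (1, 7, 2, 1, 8)] 1),
    (137, .coin 3 0 [(-1, 3, 0, 6, 8), (1, 4, 3, 6, 7), (1, 7, 3, 4, 8)] 1),
    (145, .coin 4 0 [(-1, 4, 0, 6, 8), (1, 4, 3, 6, 7), (1, 7, 4, 3, 8)] 1)]⟩,
  ⟨[0, 0, 2, 6, 0, 19, 49, 92], 13, [96, 44, 138, 134, 224, 83, 177, 92], [2, 3, 3, 3, 3, 4, 4, 4], [(3, 2, 1, 7), (4, 0, 5, 6), (6, 4, 5, 7), (6, 5, 0, 4), (7, 1, 2, 3), (7, 5, 4, 6)],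
    [(7, .perm [0, 8, 4, 3, 5, 1, 6, 2, 7] [0, 1, 0, 0, 5, 26, 21, 42, 204] 16),
    (11, .perm [0, 8, 4, 2, 5, 1, 6, 3, 7] [0, 1, 0, 0, 5, 26, 21, 42, 204] 16),
    (35, .perm [2, 3, 8, 0, 4, 7, 1, 6, 5] [0, 1, 0, 4, 0, 19, 7, 56, 220] 16),
    (37, .perm [3, 1, 8, 0, 4, 2, 7, 6, 5] [0, 1, 0, 4, 0, 7, 49, 88, 158] 16),
    (41, .perm [2, 1, 8, 0, 4, 3, 7, 6, 5] [0, 1, 0, 4, 0, 7, 49, 88, 158] 16),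
    (69, .eqd 6 2 0 8 [(-1, 4, 0, 5, 6), (-1, 6, 2, 7, 8), (1, 6, 4, 5, 7)] 1),
    (73, .eqd 6 3 0 8 [(-1, 4, 0, 5, 6), (-1, 6, 3, 7, 8), (1, 6, 4, 5, 7)] 1),
    (133, .coin 8 6 [(1, 4, 0, 5, 6), (-1, 6, 4, 5, 7), (-1, 7, 0, 6, 8)] 1),
    (137, .coin 8 6 [(1, 4, 0, 5, 6), (-1, 6, 4, 5, 7), (-1, 7, 0, 6, 8)] 1),
    (193, .coin 6 0 [(-1, 6, 0, 5, 8), (1, 6, 4, 5, 7), (1, 7, 6, 4, 8)] 1)]⟩,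
  ⟨[0, 0, 0, 4, 2, 15, 19, 92], 13, [96, 112, 168, 164, 194, 15, 147, 92], [2, 3, 3, 3, 3, 4, 4, 4], [(1, 0, 5, 6), (3, 2, 5, 7), (6, 4, 1, 7), (6, 5, 0, 1), (7, 1, 4, 6), (7, 5, 2, 3)],
    [(21, .coin 3 1 [(-1, 1, 0, 5, 6), (1, 3, 2, 5, 7), (1, 4, 0, 6, 8), (-1, 4, 2, 7, 8)] 1),
    (25, .coin 2 1 [(-1, 1, 0, 5, 6), (1, 3, 2, 5, 7), (1, 4, 0, 6, 8), (-1, 4, 3, 7, 8)] 1),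
    (37, .perm [4, 1, 0, 8, 3, 6, 7, 2, 5] [0, 1, 0, 4, 0, 7, 49, 88, 158] 16),
    (41, .perm [4, 1, 0, 8, 2, 6, 7, 3, 5] [0, 1, 0, 4, 0, 7, 49, 88, 158] 16),
    (49, .perm [2, 3, 0, 8, 1, 7, 6, 4, 5] [0, 1, 0, 4, 0, 3, 52, 120, 31] 16),
    (69, .coin 7 1 [(-1, 1, 0, 5, 6), (1, 2, 0, 5, 8), (-1, 6, 2, 7, 8)] 1),
    (73, .coin 7 1 [(-1, 1, 0, 5, 6), (1, 3, 0, 5, 8), (-1, 6, 3, 7, 8)] 1),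
    (133, .coin 2 0 [(-1, 2, 0, 5, 8), (1, 3, 2, 5, 7), (1, 7, 2, 3, 8)] 1),
    (137, .coin 3 0 [(-1, 3, 0, 5, 8), (1, 3, 2, 5, 7), (1, 7, 3, 2, 8)] 1),
    (193, .eqd 6 5 4 1 [(1, 1, 0, 5, 6), (-1, 7, 0, 6, 8), (1, 7, 6, 4, 8)] 1)]⟩,
  ⟨[0, 1, 0, 0, 7, 11, 28, 108], 14, [50, 49, 208, 224, 71, 139, 156, 108], [3, 3, 3, 3, 4, 4, 4, 4], [(1, 0, 4, 5), (3, 2, 6, 7), (5, 4, 0, 1), (6, 2, 4, 7), (6, 5, 3, 7), (7, 3, 5, 6), (7, 4, 2, 6), (7, 6, 2, 3)],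
    [(5, .perm [8, 1, 3, 0, 2, 5, 4, 7, 6] [0, 0, 0, 3, 1, 14, 26, 52, 212] 16),
    (6, .perm [8, 0, 3, 1, 2, 5, 4, 7, 6] [0, 0, 0, 3, 1, 14, 26, 52, 212] 16),
    (9, .perm [8, 1, 2, 0, 3, 4, 5, 6, 7] [0, 0, 0, 3, 1, 14, 26, 52, 212] 16),
    (10, .perm [8, 0, 2, 1, 3, 4, 5, 6, 7] [0, 0, 0, 3, 1, 14, 26, 52, 212] 16),
    (17, .perm [8, 3, 1, 2, 0, 5, 7, 6, 4] [0, 0, 0, 0, 5, 22, 42, 74, 157] 16),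
    (18, .perm [8, 3, 0, 2, 1, 5, 7, 6, 4] [0, 0, 0, 0, 5, 22, 42, 74, 157] 16),
    (20, .perm [8, 0, 1, 3, 2, 5, 7, 6, 4] [0, 0, 2, 0, 1, 14, 56, 88, 151] 16),
    (21, .perm [3, 1, 8, 5, 0, 7, 6, 2, 4] [0, 0, 0, 3, 14, 9, 33, 100, 214] 17),
    (22, .perm [3, 0, 8, 5, 1, 7, 6, 2, 4] [0, 0, 0, 3, 14, 9, 33, 100, 214] 17),
    (24, .coin 8 6 [(1, 3, 2, 6, 7), (-1, 4, 3, 6, 8), (-1, 6, 2, 4, 7)] 1),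
    (25, .coin 3 0 [(-1, 1, 0, 4, 5), (1, 3, 0, 5, 8), (-1, 4, 0, 1, 8)] 1),
    (26, .coin 3 1 [(-1, 1, 0, 4, 5), (1, 3, 1, 5, 8), (-1, 4, 1, 0, 8)] 1),
    (33, .perm [8, 2, 1, 3, 0, 4, 6, 7, 5] [0, 0, 0, 0, 5, 22, 42, 74, 157] 16),
    (34, .perm [8, 2, 0, 3, 1, 4, 6, 7, 5] [0, 0, 0, 0, 5, 22, 42, 74, 157] 16),
    (36, .coin 8 7 [(1, 3, 2, 6, 7), (-1, 5, 2, 7, 8), (1, 6, 5, 3, 7)] 1),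
    (37, .coin 2 0 [(-1, 1, 0, 4, 5), (1, 2, 0, 4, 8), (-1, 5, 0, 1, 8)] 1),
    (38, .coin 2 1 [(-1, 1, 0, 4, 5), (1, 2, 1, 4, 8), (-1, 5, 1, 0, 8)] 1),
    (40, .perm [8, 0, 1, 2, 3, 4, 6, 7, 5] [0, 0, 2, 0, 1, 14, 56, 88, 151] 16),
    (41, .perm [2, 1, 8, 4, 0, 6, 7, 3, 5] [0, 0, 0, 3, 14, 9, 33, 100, 214] 17),
    (42, .perm [2, 0, 8, 4, 1, 6, 7, 3, 5] [0, 0, 0, 3, 14, 9, 33, 100, 214] 17),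
    (65, .perm [8, 1, 3, 2, 0, 5, 4, 7, 6] [0, 0, 0, 0, 3, 22, 26, 44, 205] 16),
    (66, .perm [8, 0, 3, 2, 1, 5, 4, 7, 6] [0, 0, 0, 0, 3, 22, 26, 44, 205] 16),
    (72, .perm [8, 0, 1, 2, 3, 4, 5, 7, 6] [0, 0, 2, 0, 1, 14, 22, 88, 185] 16),
    (73, .coin 3 0 [(-1, 3, 0, 5, 8), (1, 6, 3, 7, 8), (-1, 6, 5, 3, 7)] 1),
    (74, .coin 3 1 [(-1, 3, 1, 5, 8), (1, 6, 3, 7, 8), (-1, 6, 5, 3, 7)] 1),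
    (80, .perm [8, 0, 1, 3, 2, 5, 7, 4, 6] [0, 0, 2, 0, 0, 14, 56, 23, 217] 16),
    (81, .perm [1, 3, 8, 2, 5, 0, 7, 4, 6] [0, 0, 0, 0, 3, 21, 26, 45, 206] 17),
    (82, .perm [0, 3, 8, 2, 5, 1, 7, 4, 6] [0, 0, 0, 0, 3, 21, 26, 45, 206] 17),
    (88, .coin 6 2 [(-1, 4, 3, 6, 8), (-1, 6, 2, 4, 7), (1, 6, 3, 7, 8)] 1),
    (129, .perm [8, 1, 2, 3, 0, 4, 5, 6, 7] [0, 0, 0, 0, 3, 22, 26, 44, 205] 16),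
    (130, .perm [8, 0, 2, 3, 1, 4, 5, 6, 7] [0, 0, 0, 0, 3, 22, 26, 44, 205] 16),
    (132, .perm [8, 0, 1, 3, 2, 5, 4, 6, 7] [0, 0, 2, 0, 1, 14, 22, 88, 185] 16),
    (133, .coin 2 0 [(-1, 2, 0, 4, 8), (1, 6, 2, 4, 7), (1, 7, 2, 6, 8)] 1),
    (134, .coin 2 1 [(-1, 2, 1, 4, 8), (1, 6, 2, 4, 7), (1, 7, 2, 6, 8)] 1),
    (160, .perm [8, 0, 1, 2, 3, 4, 6, 5, 7] [0, 0, 2, 0, 0, 14, 56, 23, 217] 16),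
    (161, .perm [1, 2, 8, 3, 4, 0, 6, 5, 7] [0, 0, 0, 0, 3, 21, 26, 45, 206] 17),
    (162, .perm [0, 2, 8, 3, 4, 1, 6, 5, 7] [0, 0, 0, 0, 3, 21, 26, 45, 206] 17),
    (164, .coin 7 2 [(-1, 6, 5, 3, 7), (-1, 7, 2, 6, 8), (1, 7, 5, 3, 8)] 1)]⟩,
  ⟨[0, 0, 2, 2, 4, 11, 21, 120], 13, [96, 44, 82, 162, 196, 139, 149, 120], [2, 3, 3, 3, 3, 4, 4, 4], [(5, 3, 1, 7), (6, 4, 2, 7), (6, 5, 0, 7), (7, 0, 5, 6), (7, 1, 3, 5), (7, 2, 4, 6)],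
    [(7, .coin 4 3 [(-1, 1, 0, 5, 8), (1, 2, 0, 6, 8), (-1, 5, 3, 1, 7), (1, 6, 4, 2, 7)] 1),
    (13, .coin 3 1 [(-1, 2, 0, 6, 8), (1, 3, 2, 1, 8), (1, 5, 3, 1, 7), (-1, 6, 5, 0, 7)] 2),
    (19, .coin 3 2 [(-1, 4, 0, 6, 8), (1, 4, 1, 2, 8), (1, 5, 3, 1, 7), (-1, 6, 5, 0, 7)] 1),
    (25, .coin 5 3 [(1, 4, 0, 6, 8), (-1, 4, 3, 7, 8), (1, 6, 5, 0, 7)] 1),
    (35, .eqd 6 5 0 8 [(-1, 5, 1, 3, 8), (-1, 5, 3, 1, 7), (1, 6, 5, 0, 7)] 1),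
    (37, .coin 7 1 [(-1, 2, 0, 6, 8), (1, 5, 2, 1, 8), (-1, 6, 5, 0, 7)] 1),
    (49, .perm [1, 2, 3, 0, 8, 6, 4, 7, 5] [0, 1, 1, 0, 8, 10, 50, 100, 157] 16),
    (67, .coin 7 2 [(-1, 1, 0, 5, 8), (1, 6, 1, 2, 8), (-1, 6, 5, 0, 7)] 1),
    (69, .eqd 6 5 2 6 [(-1, 2, 0, 6, 8), (1, 6, 2, 4, 8), (1, 6, 4, 2, 7), (-1, 6, 5, 0, 7)] 1),
    (73, .perm [2, 1, 4, 0, 8, 5, 3, 7, 6] [0, 1, 1, 0, 8, 10, 50, 100, 157] 16)]⟩,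
  ⟨[0, 0, 2, 2, 10, 4, 37, 121], 13, [192, 28, 98, 146, 138, 196, 165, 121], [2, 3, 3, 3, 3, 3, 4, 5], [(4, 3, 1, 7), (5, 0, 6, 7), (6, 5, 2, 7), (7, 1, 3, 4), (7, 2, 5, 6), (7, 6, 0, 5)],
    [(7, .coin 8 6 [(-1, 2, 0, 6, 8), (1, 5, 0, 6, 7), (-1, 6, 5, 2, 7)] 1),
    (11, .coin 3 0 [(-1, 3, 0, 7, 8), (1, 3, 1, 4, 8), (1, 4, 3, 1, 7)] 1),
    (13, .coin 5 3 [(1, 2, 0, 6, 8), (-1, 3, 0, 7, 8), (1, 6, 5, 2, 7)] 1),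
    (19, .coin 4 0 [(-1, 4, 0, 7, 8), (1, 4, 1, 3, 8), (1, 4, 3, 1, 7)] 1),
    (21, .coin 5 4 [(1, 2, 0, 6, 8), (-1, 4, 0, 7, 8), (1, 6, 5, 2, 7)] 1),
    (67, .eqd 6 1 0 8 [(-1, 5, 0, 6, 7), (-1, 6, 1, 2, 8), (1, 6, 5, 2, 7)] 1),
    (69, .coin 6 0 [(-1, 6, 0, 7, 8), (1, 6, 2, 5, 8), (1, 6, 5, 2, 7)] 1),
    (137, .eqd 5 4 0 8 [(-1, 3, 0, 7, 8), (1, 5, 0, 6, 7), (-1, 7, 0, 6, 8), (1, 7, 3, 4, 8)] 1),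
    (145, .eqd 5 3 0 8 [(-1, 4, 0, 7, 8), (1, 5, 0, 6, 7), (-1, 7, 0, 6, 8), (1, 7, 4, 3, 8)] 1)]⟩,
  ⟨[0, 1, 1, 2, 0, 21, 26, 124], 14, [38, 73, 161, 194, 224, 149, 154, 124], [3, 3, 3, 3, 3, 4, 4, 5], [(4, 2, 5, 7), (4, 3, 6, 7), (5, 2, 0, 7), (6, 3, 1, 7), (6, 5, 4, 7), (7, 0, 2, 5), (7, 1, 3, 6), (7, 4, 5, 6), (7, 5, 2, 4), (7, 6, 3, 4)],
    [(3, .perm [8, 2, 3, 4, 0, 1, 5, 6, 7] [0, 0, 0, 0, 3, 21, 26, 44, 206] 16),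
    (5, .perm [8, 1, 3, 4, 0, 2, 6, 5, 7] [0, 0, 2, 0, 3, 17, 14, 56, 236] 16),
    (6, .perm [8, 0, 3, 4, 1, 2, 5, 6, 7] [0, 0, 0, 0, 7, 3, 42, 28, 236] 16),
    (7, .perm [8, 3, 4, 1, 6, 0, 2, 5, 7] [0, 0, 0, 3, 14, 9, 33, 100, 214] 17),
    (9, .perm [8, 1, 2, 4, 0, 3, 6, 5, 7] [0, 0, 0, 0, 7, 3, 42, 28, 236] 16),
    (10, .perm [8, 0, 2, 4, 1, 3, 5, 6, 7] [0, 0, 2, 0, 3, 17, 14, 56, 236] 16),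
    (11, .perm [8, 2, 4, 0, 5, 1, 3, 6, 7] [0, 0, 0, 3, 14, 9, 33, 100, 214] 17),
    (12, .eqd 8 7 2 5 [(-1, 3, 2, 7, 8), (1, 4, 3, 6, 7), (1, 6, 5, 4, 7)] 1),
    (13, .coin 3 2 [(-1, 2, 0, 5, 8), (1, 3, 2, 7, 8), (-1, 5, 2, 0, 7)] 1),
    (14, .coin 3 2 [(1, 3, 1, 6, 8), (-1, 3, 2, 7, 8), (1, 6, 3, 1, 7)] 1),
    (17, .coin 8 5 [(-1, 4, 0, 5, 8), (1, 4, 2, 5, 7), (-1, 5, 2, 0, 7)] 1),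
    (18, .coin 8 6 [(-1, 4, 1, 6, 8), (1, 4, 3, 6, 7), (-1, 6, 3, 1, 7)] 1),
    (19, .coin 8 5 [(-1, 4, 0, 5, 8), (1, 4, 2, 5, 7), (-1, 5, 2, 0, 7)] 1),
    (33, .perm [8, 1, 3, 2, 4, 0, 6, 5, 7] [0, 0, 2, 0, 0, 11, 22, 57, 220] 16),
    (34, .perm [8, 0, 2, 3, 4, 1, 6, 5, 7] [0, 0, 2, 0, 0, 11, 56, 23, 220] 16),
    (35, .perm [3, 8, 4, 2, 1, 6, 0, 7, 5] [0, 0, 0, 0, 3, 21, 26, 45, 206] 17),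
    (40, .coin 8 7 [(1, 4, 3, 6, 7), (-1, 5, 3, 7, 8), (1, 6, 5, 4, 7)] 1),
    (41, .coin 2 1 [(1, 3, 0, 1, 8), (1, 5, 2, 0, 7), (-1, 5, 3, 7, 8)] 1),
    (42, .coin 4 1 [(-1, 3, 1, 6, 8), (1, 5, 3, 7, 8), (-1, 6, 5, 4, 7)] 1),
    (48, .perm [8, 1, 0, 3, 2, 4, 6, 5, 7] [0, 0, 2, 2, 4, 1, 42, 53, 248] 16),
    (49, .coin 5 0 [(-1, 4, 2, 5, 7), (-1, 5, 0, 2, 8), (1, 5, 4, 7, 8)] 1),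
    (50, .coin 4 1 [(-1, 4, 1, 6, 8), (1, 5, 4, 7, 8), (-1, 6, 5, 4, 7)] 1),
    (65, .perm [8, 1, 3, 2, 4, 0, 5, 6, 7] [0, 0, 2, 0, 0, 11, 56, 23, 220] 16),
    (66, .perm [8, 0, 2, 3, 4, 1, 5, 6, 7] [0, 0, 2, 0, 0, 11, 22, 57, 220] 16),
    (67, .perm [2, 8, 4, 3, 0, 5, 1, 7, 6] [0, 0, 0, 0, 3, 21, 26, 45, 206] 17),
    (68, .coin 8 7 [(1, 4, 2, 5, 7), (-1, 6, 2, 7, 8), (1, 6, 5, 4, 7)] 1),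
    (69, .coin 4 0 [(-1, 2, 0, 5, 8), (1, 6, 2, 7, 8), (-1, 6, 5, 4, 7)] 1),
    (70, .coin 3 0 [(1, 2, 1, 0, 8), (-1, 6, 2, 7, 8), (1, 6, 3, 1, 7)] 1),
    (80, .perm [8, 0, 1, 2, 3, 4, 5, 6, 7] [0, 0, 2, 2, 4, 1, 42, 53, 248] 16),
    (81, .coin 4 0 [(-1, 4, 0, 5, 8), (1, 6, 4, 7, 8), (-1, 6, 5, 4, 7)] 1),
    (82, .coin 6 1 [(-1, 4, 3, 6, 7), (-1, 6, 1, 3, 8), (1, 6, 4, 7, 8)] 1),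
    (132, .eqd 8 3 0 5 [(-1, 4, 3, 6, 7), (1, 5, 2, 0, 7), (-1, 6, 5, 4, 7), (-1, 7, 2, 5, 8)] 1),
    (136, .eqd 8 2 1 6 [(-1, 4, 2, 5, 7), (1, 6, 3, 1, 7), (-1, 6, 5, 4, 7), (-1, 7, 3, 6, 8)] 1),
    (140, .perm [0, 1, 4, 8, 5, 2, 6, 3, 7] [0, 1, 0, 0, 5, 25, 6, 74, 252] 17)]⟩,
  ⟨[0, 1, 2, 4, 0, 19, 28, 120], 13, [34, 37, 74, 196, 224, 147, 156, 120], [2, 3, 3, 3, 3, 4, 4, 4], [(4, 3, 6, 7), (6, 3, 2, 7), (6, 5, 4, 7), (7, 2, 3, 6), (7, 4, 5, 6), (7, 6, 3, 4)],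
    [(7, .perm [0, 8, 4, 3, 1, 5, 2, 7, 6] [0, 1, 0, 0, 3, 21, 26, 44, 204] 16),
    (11, .perm [0, 8, 2, 4, 1, 5, 3, 6, 7] [0, 1, 0, 0, 7, 25, 6, 76, 232] 16),
    (13, .perm [0, 1, 8, 4, 5, 2, 3, 7, 6] [0, 1, 1, 0, 11, 6, 36, 88, 232] 16),
    (21, .coin 8 6 [(-1, 4, 2, 6, 8), (1, 4, 3, 6, 7), (-1, 6, 3, 2, 7)] 1),
    (35, .k4 1 0 5 8),
    (41, .coin 8 7 [(1, 4, 3, 6, 7), (-1, 5, 3, 7, 8), (1, 6, 5, 4, 7)] 1),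
    (49, .perm [2, 1, 0, 3, 8, 6, 7, 4, 5] [0, 1, 2, 1, 4, 9, 40, 112, 214] 16),
    (67, .perm [0, 8, 2, 3, 4, 1, 5, 7, 6] [0, 1, 0, 4, 0, 7, 49, 88, 158] 16),
    (69, .perm [0, 1, 8, 4, 3, 5, 2, 7, 6] [0, 1, 1, 0, 0, 11, 22, 56, 220] 16),
    (81, .coin 4 0 [(-1, 4, 0, 5, 8), (1, 6, 4, 7, 8), (-1, 6, 5, 4, 7)] 1),
    (137, .eqd 7 0 2 3 [(-1, 4, 3, 6, 7), (1, 6, 3, 2, 7), (-1, 6, 5, 4, 7), (-1, 7, 0, 5, 8), (1, 7, 3, 6, 8)] 1),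
    (161, .perm [2, 1, 0, 3, 8, 4, 6, 5, 7] [0, 1, 2, 1, 4, 0, 41, 54, 248] 16)]⟩,
  ⟨[0, 0, 0, 0, 7, 11, 28, 108], 13, [48, 48, 208, 224, 71, 139, 156, 108], [2, 2, 3, 3, 4, 4, 4, 4], [(1, 0, 4, 5), (3, 2, 6, 7), (5, 4, 0, 1), (6, 2, 4, 7), (6, 5, 3, 7), (7, 3, 5, 6), (7, 4, 2, 6), (7, 6, 2, 3)],
    []⟩,
  ⟨[0, 1, 2, 2, 4, 9, 52, 120], 13, [34, 13, 82, 162, 196, 201, 180, 120], [2, 3, 3, 3, 3, 4, 4, 4], [(3, 0, 1, 5), (5, 1, 0, 3), (5, 4, 6, 7), (6, 3, 5, 7), (6, 4, 2, 7), (7, 2, 4, 6), (7, 5, 3, 6), (7, 6, 4, 5)],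
    [(7, .perm [8, 0, 3, 4, 1, 2, 5, 7, 6] [0, 1, 0, 0, 7, 25, 6, 76, 232] 16),
    (19, .dbl 8 0 1 0 [(1, 3, 0, 1, 5), (-1, 4, 1, 2, 8), (-1, 6, 3, 5, 7), (1, 6, 4, 2, 7)] 1),
    (21, .dbl 7 3 0 1 [(-1, 2, 0, 1, 8), (-1, 3, 0, 1, 5), (1, 4, 2, 6, 8), (-1, 5, 4, 6, 7)] 1),
    (37, .coin 6 3 [(1, 2, 0, 1, 8), (-1, 3, 0, 1, 5), (-1, 5, 2, 6, 8)] 1),
    (67, .coin 3 2 [(1, 3, 0, 1, 5), (-1, 6, 0, 5, 8), (1, 6, 1, 2, 8)] 1),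
    (69, .coin 6 1 [(1, 2, 0, 1, 8), (-1, 5, 4, 6, 7), (-1, 6, 0, 5, 8), (1, 6, 4, 2, 7)] 1),
    (97, .eqd 5 1 2 6 [(1, 3, 0, 1, 5), (-1, 5, 4, 6, 7), (-1, 6, 0, 5, 8), (-1, 6, 3, 5, 7), (1, 6, 4, 2, 7), (1, 6, 5, 7, 8)] 1),
    (131, .perm [0, 2, 8, 4, 3, 1, 6, 5, 7] [0, 0, 1, 2, 0, 23, 10, 81, 220] 16),
    (145, .coin 7 0 [(-1, 5, 4, 6, 7), (-1, 7, 0, 5, 8), (1, 7, 4, 6, 8)] 1)]⟩,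
  ⟨[0, 0, 1, 4, 3, 18, 44, 120], 13, [20, 48, 73, 196, 163, 210, 172, 120], [2, 2, 3, 3, 4, 4, 4, 4], [(5, 3, 6, 7), (5, 4, 1, 7), (6, 3, 2, 7), (6, 4, 5, 7), (7, 1, 4, 5), (7, 2, 3, 6), (7, 5, 4, 6), (7, 6, 3, 5)],
    [(7, .perm [8, 0, 1, 3, 2, 4, 5, 6, 7] [0, 1, 1, 0, 11, 6, 36, 88, 232] 16),
    (11, .dbl 5 1 0 8 [(-1, 1, 0, 4, 8), (-1, 3, 0, 2, 8), (1, 6, 3, 2, 7), (-1, 6, 4, 5, 7)] 1),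
    (19, .perm [2, 0, 8, 3, 1, 6, 7, 5, 4] [0, 1, 2, 1, 4, 9, 40, 112, 214] 16),
    (67, .coin 7 0 [(-1, 1, 0, 4, 8), (1, 6, 1, 5, 8), (-1, 6, 4, 5, 7)] 1)]⟩,
  ⟨[0, 1, 1, 2, 5, 10, 52, 120], 14, [22, 41, 81, 162, 197, 202, 180, 120], [3, 3, 3, 3, 4, 4, 4, 4], [(4, 2, 0, 6), (5, 3, 1, 7), (5, 4, 6, 7), (6, 0, 2, 4), (6, 3, 5, 7), (6, 4, 2, 7), (7, 1, 3, 5), (7, 2, 4, 6), (7, 5, 3, 6), (7, 6, 4, 5)],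
    [(3, .perm [8, 2, 3, 0, 1, 4, 5, 6, 7] [0, 0, 0, 3, 13, 10, 20, 98, 228] 16),
    (5, .perm [8, 1, 3, 0, 2, 5, 7, 4, 6] [0, 0, 2, 3, 9, 6, 36, 88, 240] 16),
    (6, .perm [8, 0, 3, 1, 2, 5, 4, 7, 6] [0, 0, 0, 7, 3, 12, 18, 100, 240] 16),
    (7, .perm [3, 8, 1, 5, 0, 7, 2, 6, 4] [0, 0, 3, 5, 6, 9, 18, 104, 240] 17),
    (9, .perm [8, 1, 2, 0, 3, 4, 5, 6, 7] [0, 0, 0, 7, 3, 12, 18, 100, 240] 16),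
    (10, .perm [8, 0, 2, 1, 3, 4, 6, 5, 7] [0, 0, 2, 3, 9, 6, 36, 88, 240] 16),
    (11, .perm [2, 8, 0, 4, 1, 6, 3, 7, 5] [0, 0, 3, 5, 6, 9, 18, 104, 240] 17),
    (12, .perm [8, 0, 1, 2, 3, 4, 5, 6, 7] [0, 0, 2, 3, 5, 10, 20, 104, 240] 16),
    (13, .dbl 6 2 0 8 [(-1, 2, 0, 4, 8), (-1, 3, 0, 1, 8), (1, 5, 3, 1, 7), (-1, 5, 4, 6, 7)] 1),
    (14, .dbl 7 3 0 2 [(1, 2, 1, 0, 8), (-1, 3, 1, 5, 8), (1, 4, 2, 0, 6), (-1, 5, 4, 6, 7)] 1),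
    (15, .coin 2 1 [(1, 2, 0, 4, 8), (1, 3, 0, 1, 8), (-2, 3, 1, 5, 8), (2, 4, 2, 0, 6), (-1, 5, 4, 6, 7), (1, 6, 3, 5, 7)] 3),
    (17, .perm [8, 1, 3, 2, 0, 5, 7, 6, 4] [0, 0, 2, 0, 11, 6, 36, 104, 217] 16),
    (18, .perm [8, 0, 2, 3, 1, 5, 6, 7, 4] [0, 0, 2, 0, 11, 24, 36, 104, 199] 16),
    (19, .perm [3, 8, 2, 1, 0, 5, 7, 6, 4] [0, 0, 0, 3, 14, 9, 33, 100, 214] 17),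
    (24, .coin 8 7 [(-1, 4, 3, 7, 8), (1, 5, 4, 6, 7), (1, 6, 3, 5, 7)] 1),
    (25, .coin 8 7 [(-1, 4, 3, 7, 8), (1, 5, 4, 6, 7), (1, 6, 3, 5, 7)] 1),
    (26, .coin 4 3 [(-1, 3, 1, 5, 8), (1, 4, 3, 7, 8), (-1, 5, 3, 1, 7)] 1),
    (33, .perm [8, 1, 3, 2, 0, 4, 7, 6, 5] [0, 0, 2, 0, 11, 24, 36, 104, 199] 16),
    (34, .perm [8, 0, 2, 3, 1, 4, 6, 7, 5] [0, 0, 2, 0, 11, 6, 36, 104, 217] 16),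
    (35, .perm [2, 8, 3, 0, 1, 4, 6, 7, 5] [0, 0, 0, 3, 14, 9, 33, 100, 214] 17),
    (36, .coin 8 6 [(-1, 5, 2, 6, 8), (1, 5, 4, 6, 7), (-1, 6, 4, 2, 7)] 1),
    (37, .coin 4 1 [(1, 4, 2, 0, 6), (1, 5, 0, 1, 8), (-1, 5, 2, 6, 8)] 1),
    (38, .coin 8 6 [(-1, 5, 2, 6, 8), (1, 5, 4, 6, 7), (-1, 6, 4, 2, 7)] 1),
    (66, .coin 8 5 [(-1, 5, 3, 1, 7), (-1, 6, 1, 5, 8), (1, 6, 3, 5, 7)] 1),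
    (68, .perm [8, 1, 0, 3, 2, 5, 4, 7, 6] [0, 0, 2, 2, 5, 10, 20, 104, 241] 16),
    (70, .coin 2 1 [(-1, 2, 1, 0, 8), (1, 4, 2, 0, 6), (1, 6, 2, 4, 8)] 1),
    (96, .perm [8, 0, 1, 2, 3, 4, 7, 5, 6] [0, 0, 2, 2, 4, 10, 48, 85, 233] 16),
    (98, .coin 5 1 [(-1, 5, 1, 3, 8), (-1, 6, 3, 5, 7), (1, 6, 5, 7, 8)] 1),
    (100, .coin 6 2 [(-1, 5, 4, 6, 7), (-1, 6, 2, 4, 8), (1, 6, 5, 7, 8)] 1),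
    (129, .coin 8 4 [(-1, 4, 2, 0, 6), (-1, 6, 4, 2, 7), (-1, 7, 0, 4, 8)] 1),
    (136, .perm [8, 0, 1, 2, 3, 4, 5, 6, 7] [0, 0, 2, 2, 5, 10, 20, 104, 241] 16),
    (137, .coin 3 0 [(-1, 3, 0, 1, 8), (1, 5, 3, 1, 7), (1, 7, 3, 5, 8)] 1),
    (144, .perm [8, 1, 0, 3, 2, 5, 6, 4, 7] [0, 0, 2, 2, 4, 10, 48, 85, 233] 16),
    (145, .coin 4 0 [(-1, 4, 0, 2, 8), (1, 6, 4, 2, 7), (1, 7, 4, 6, 8)] 1),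
    (152, .coin 7 3 [(-1, 5, 4, 6, 7), (-1, 7, 3, 5, 8), (1, 7, 4, 6, 8)] 1)]⟩,
  ⟨[0, 1, 2, 2, 4, 8, 52, 121], 13, [130, 13, 82, 162, 196, 200, 180, 121], [2, 3, 3, 3, 3, 3, 4, 5], [(3, 0, 1, 7), (5, 4, 6, 7), (6, 3, 5, 7), (6, 4, 2, 7), (7, 1, 0, 3), (7, 2, 4, 6), (7, 5, 3, 6), (7, 6, 4, 5)],
    [(7, .perm [8, 0, 3, 5, 4, 1, 2, 6, 7] [0, 1, 0, 4, 0, 7, 49, 88, 158] 16),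
    (19, .coin 3 2 [(1, 3, 0, 1, 7), (-1, 4, 0, 7, 8), (1, 4, 1, 2, 8)] 1),
    (21, .coin 4 0 [(-1, 4, 0, 7, 8), (1, 4, 2, 6, 8), (1, 6, 4, 2, 7)] 1),
    (35, .perm [8, 2, 0, 4, 3, 1, 6, 5, 7] [0, 0, 1, 2, 0, 23, 10, 81, 220] 16),
    (37, .coin 4 0 [(-1, 5, 0, 7, 8), (1, 5, 2, 6, 8), (1, 6, 4, 2, 7)] 1),
    (67, .coin 3 2 [(1, 3, 0, 1, 7), (-1, 6, 0, 7, 8), (1, 6, 1, 2, 8)] 1),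
    (69, .coin 4 1 [(1, 2, 0, 1, 8), (-1, 6, 0, 7, 8), (1, 6, 4, 2, 7)] 1),
    (145, .eqd 3 0 5 7 [(-1, 4, 0, 7, 8), (1, 6, 3, 5, 7), (1, 7, 4, 6, 8)] 1)]⟩,
  ⟨[0, 0, 1, 4, 0, 19, 28, 122], 13, [36, 160, 73, 196, 224, 147, 156, 122], [2, 2, 3, 3, 3, 4, 4, 5], [(4, 1, 5, 7), (4, 3, 6, 7), (6, 3, 2, 7), (6, 5, 4, 7), (7, 2, 3, 6), (7, 4, 5, 6), (7, 5, 1, 4), (7, 6, 3, 4)],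
    [(7, .perm [8, 0, 1, 3, 4, 2, 5, 6, 7] [0, 1, 1, 0, 0, 11, 22, 56, 220] 16),
    (11, .coin 6 2 [(-1, 1, 0, 5, 8), (1, 3, 0, 2, 8), (1, 4, 1, 5, 7), (-1, 4, 3, 6, 7)] 1),
    (35, .perm [2, 0, 8, 3, 1, 4, 6, 5, 7] [0, 1, 2, 1, 4, 0, 41, 54, 248] 16),
    (67, .coin 4 0 [(-1, 1, 0, 5, 8), (1, 6, 1, 7, 8), (-1, 6, 5, 4, 7)] 1)]⟩,
  ⟨[0, 0, 1, 1, 4, 10, 56, 118], 13, [12, 160, 145, 97, 196, 202, 184, 118], [2, 2, 3, 3, 3, 4, 4, 5], [(5, 4, 6, 7), (6, 1, 5, 7), (6, 2, 4, 7), (6, 5, 3, 7), (7, 3, 5, 6), (7, 4, 2, 6), (7, 5, 1, 6), (7, 6, 4, 5)],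
    [(7, .eqd 8 7 1 5 [(-1, 2, 1, 7, 8), (1, 5, 4, 6, 7), (1, 6, 2, 4, 7)] 1),
    (11, .coin 8 5 [(-1, 3, 1, 5, 8), (1, 6, 1, 5, 7), (-1, 6, 5, 3, 7)] 1),
    (19, .coin 8 7 [(-1, 4, 1, 7, 8), (1, 5, 4, 6, 7), (1, 6, 1, 5, 7)] 1),
    (35, .eqd 5 0 1 8 [(-1, 5, 0, 3, 8), (-1, 6, 1, 5, 7), (1, 6, 5, 3, 7)] 1),
    (131, .eqd 8 2 1 7 [(-1, 5, 4, 6, 7), (-1, 6, 2, 4, 7), (-1, 7, 1, 5, 8)] 1)]⟩,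
  ⟨[0, 1, 1, 2, 4, 10, 52, 120], 13, [6, 41, 81, 162, 196, 202, 180, 120], [2, 3, 3, 3, 3, 4, 4, 4], [(5, 3, 1, 7), (5, 4, 6, 7), (6, 3, 5, 7), (6, 4, 2, 7), (7, 1, 3, 5), (7, 2, 4, 6), (7, 5, 3, 6), (7, 6, 4, 5)],
    [(7, .perm [0, 8, 3, 4, 1, 2, 7, 5, 6] [0, 1, 0, 0, 7, 11, 12, 84, 232] 16),
    (11, .perm [0, 2, 8, 4, 1, 6, 3, 7, 5] [0, 1, 1, 2, 5, 10, 20, 104, 240] 16),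
    (13, .perm [0, 8, 1, 4, 2, 3, 5, 6, 7] [0, 1, 1, 0, 11, 6, 36, 88, 232] 16),
    (19, .perm [0, 8, 2, 3, 1, 4, 6, 5, 7] [0, 1, 1, 0, 11, 6, 36, 88, 232] 16),
    (21, .perm [0, 1, 8, 3, 2, 5, 4, 7, 6] [0, 1, 1, 2, 5, 10, 20, 104, 240] 16),
    (25, .coin 8 7 [(-1, 4, 3, 7, 8), (1, 5, 4, 6, 7), (1, 6, 3, 5, 7)] 1),
    (35, .perm [2, 0, 4, 8, 3, 1, 6, 7, 5] [0, 1, 1, 2, 0, 26, 5, 84, 248] 16),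
    (37, .coin 8 6 [(-1, 5, 2, 6, 8), (1, 5, 4, 6, 7), (-1, 6, 4, 2, 7)] 1),
    (67, .coin 8 5 [(-1, 5, 3, 1, 7), (-1, 6, 1, 5, 8), (1, 6, 3, 5, 7)] 1),
    (69, .perm [1, 0, 3, 8, 4, 2, 5, 7, 6] [0, 1, 1, 2, 0, 26, 5, 84, 248] 16),
    (97, .coin 4 3 [(1, 5, 0, 1, 8), (-1, 5, 3, 1, 7), (-1, 6, 0, 2, 8), (1, 6, 4, 2, 7)] 1),
    (137, .coin 3 0 [(-1, 3, 0, 1, 8), (1, 5, 3, 1, 7), (1, 7, 3, 5, 8)] 1),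
    (145, .coin 4 0 [(-1, 4, 0, 2, 8), (1, 6, 4, 2, 7), (1, 7, 4, 6, 8)] 1)]⟩,
  ⟨[0, 0, 1, 2, 5, 10, 52, 120], 13, [20, 40, 81, 162, 197, 202, 180, 120], [2, 2, 3, 3, 4, 4, 4, 4], [(4, 2, 0, 6), (5, 3, 1, 7), (5, 4, 6, 7), (6, 0, 2, 4), (6, 3, 5, 7), (6, 4, 2, 7), (7, 1, 3, 5), (7, 2, 4, 6), (7, 5, 3, 6), (7, 6, 4, 5)],
    [(7, .perm [1, 8, 3, 0, 5, 2, 7, 4, 6] [0, 1, 1, 2, 5, 10, 20, 104, 240] 16),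
    (11, .perm [0, 8, 2, 1, 4, 3, 6, 5, 7] [0, 1, 1, 2, 5, 10, 20, 104, 240] 16),
    (19, .perm [1, 8, 0, 3, 2, 5, 7, 6, 4] [0, 1, 2, 1, 4, 9, 40, 112, 214] 16),
    (35, .perm [0, 8, 1, 2, 3, 4, 6, 7, 5] [0, 1, 2, 1, 4, 9, 40, 112, 214] 16)]⟩,
  ⟨[0, 0, 2, 1, 4, 9, 56, 118], 13, [40, 132, 146, 97, 196, 201, 184, 118], [2, 2, 3, 3, 3, 4, 4, 5], [(4, 1, 2, 7), (5, 3, 0, 6), (5, 4, 6, 7), (6, 0, 3, 5), (6, 2, 4, 7), (6, 5, 3, 7), (7, 2, 1, 4), (7, 3, 5, 6), (7, 4, 2, 6), (7, 6, 4, 5)],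
    [(7, .perm [0, 8, 3, 1, 4, 2, 5, 6, 7] [0, 1, 1, 2, 0, 26, 5, 84, 248] 16),
    (11, .perm [8, 1, 2, 0, 4, 3, 5, 6, 7] [0, 1, 2, 1, 4, 9, 40, 112, 214] 16),
    (35, .coin 5 0 [(-1, 4, 1, 2, 7), (-1, 5, 0, 3, 8), (1, 5, 1, 7, 8), (-1, 6, 2, 4, 7), (1, 6, 5, 3, 7)] 1),
    (131, .coin 8 5 [(-1, 5, 3, 0, 6), (-1, 6, 5, 3, 7), (-1, 7, 0, 5, 8)] 1)]⟩,
  ⟨[0, 0, 0, 1, 2, 24, 45, 118], 13, [72, 144, 192, 97, 162, 216, 173, 118], [2, 2, 2, 3, 3, 4, 5, 5], [(5, 0, 3, 6), (5, 1, 4, 7), (5, 2, 6, 7), (6, 3, 0, 5), (6, 4, 5, 7), (6, 5, 3, 7), (7, 3, 5, 6), (7, 4, 1, 5), (7, 5, 4, 6), (7, 6, 2, 5)],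
    [(7, .coin 4 3 [(-1, 2, 0, 6, 8), (1, 2, 1, 7, 8), (1, 5, 0, 3, 6), (-1, 5, 1, 4, 7)] 1)]⟩,
  ⟨[0, 0, 0, 1, 6, 9, 50, 124], 13, [40, 80, 144, 161, 198, 201, 178, 124], [2, 2, 2, 3, 4, 4, 4, 5], [(5, 3, 0, 7), (5, 4, 6, 7), (6, 2, 4, 7), (6, 3, 5, 7), (6, 4, 1, 7), (7, 0, 3, 5), (7, 1, 4, 6), (7, 4, 2, 6), (7, 5, 3, 6), (7, 6, 4, 5)],
    [(7, .coin 8 4 [(-1, 2, 1, 4, 8), (1, 6, 2, 4, 7), (-1, 6, 4, 1, 7)] 1)]⟩,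
  ⟨[0, 1, 1, 4, 2, 8, 50, 124], 13, [6, 81, 137, 164, 194, 200, 178, 124], [2, 3, 3, 3, 3, 3, 4, 5], [(5, 2, 3, 7), (5, 4, 6, 7), (6, 3, 5, 7), (6, 4, 1, 7), (7, 1, 4, 6), (7, 3, 2, 5), (7, 5, 3, 6), (7, 6, 4, 5)],
    [(7, .perm [0, 8, 3, 5, 4, 1, 2, 6, 7] [0, 1, 0, 4, 0, 19, 7, 56, 220] 16),
    (11, .perm [0, 8, 2, 4, 5, 1, 3, 6, 7] [0, 1, 1, 0, 0, 11, 22, 56, 220] 16),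
    (13, .perm [0, 1, 8, 4, 5, 6, 2, 3, 7] [0, 1, 1, 2, 0, 26, 5, 84, 248] 16),
    (19, .perm [0, 2, 3, 8, 5, 1, 4, 6, 7] [0, 1, 2, 1, 4, 9, 40, 112, 214] 16),
    (21, .coin 4 0 [(-1, 4, 0, 1, 8), (1, 4, 2, 7, 8), (-1, 5, 2, 3, 7), (-1, 6, 3, 5, 7), (1, 6, 4, 1, 7)] 1),
    (25, .coin 8 7 [(-1, 4, 3, 7, 8), (1, 5, 4, 6, 7), (1, 6, 3, 5, 7)] 1),
    (35, .coin 8 6 [(-1, 5, 1, 6, 8), (1, 5, 4, 6, 7), (-1, 6, 4, 1, 7)] 1),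
    (41, .coin 3 0 [(-1, 3, 0, 2, 8), (-1, 5, 2, 3, 7), (1, 5, 3, 7, 8)] 1),
    (67, .perm [0, 2, 3, 8, 5, 4, 1, 7, 6] [0, 1, 2, 1, 4, 0, 41, 54, 248] 16),
    (69, .coin 8 7 [(1, 5, 2, 3, 7), (-1, 6, 2, 7, 8), (1, 6, 3, 5, 7)] 1),
    (97, .eqd 6 0 2 7 [(-1, 5, 2, 3, 7), (-1, 5, 4, 6, 7), (-1, 6, 0, 1, 8), (-1, 6, 3, 5, 7), (1, 6, 4, 1, 7), (1, 6, 5, 7, 8)] 1),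
    (133, .eqd 8 4 0 8 [(-1, 5, 4, 6, 7), (-1, 6, 3, 5, 7), (-1, 7, 0, 2, 8), (-1, 7, 2, 3, 8)] 1),
    (145, .coin 4 0 [(-1, 4, 0, 1, 8), (1, 6, 4, 1, 7), (1, 7, 4, 6, 8)] 1)]⟩,
  ⟨[0, 0, 1, 2, 0, 21, 26, 124], 13, [36, 72, 161, 194, 224, 149, 154, 124], [2, 2, 3, 3, 3, 4, 4, 5], [(4, 2, 5, 7), (4, 3, 6, 7), (5, 2, 0, 7), (6, 3, 1, 7), (6, 5, 4, 7), (7, 0, 2, 5), (7, 1, 3, 6), (7, 4, 5, 6), (7, 5, 2, 4), (7, 6, 3, 4)],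
    [(7, .perm [8, 1, 0, 3, 4, 6, 2, 5, 7] [0, 1, 1, 2, 0, 26, 5, 84, 248] 16),
    (11, .perm [8, 0, 1, 2, 4, 5, 3, 6, 7] [0, 1, 1, 2, 0, 26, 5, 84, 248] 16),
    (19, .coin 8 5 [(-1, 4, 0, 5, 8), (1, 4, 2, 5, 7), (-1, 5, 2, 0, 7)] 1),
    (35, .perm [1, 8, 0, 3, 2, 4, 6, 5, 7] [0, 1, 2, 1, 4, 0, 41, 54, 248] 16),
    (67, .perm [0, 8, 1, 2, 3, 4, 5, 6, 7] [0, 1, 2, 1, 4, 0, 41, 54, 248] 16)]⟩,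
  ⟨[0, 0, 1, 2, 4, 8, 53, 122], 13, [68, 136, 81, 162, 196, 200, 181, 122], [2, 2, 3, 3, 3, 3, 5, 5], [(4, 0, 2, 6), (5, 1, 3, 7), (5, 4, 6, 7), (6, 2, 0, 4), (6, 3, 5, 7), (6, 4, 2, 7), (7, 2, 4, 6), (7, 3, 1, 5), (7, 5, 3, 6), (7, 6, 4, 5)],
    [(7, .perm [8, 1, 3, 0, 5, 4, 2, 7, 6] [0, 1, 2, 1, 4, 0, 41, 54, 248] 16),
    (11, .perm [8, 0, 2, 1, 4, 5, 3, 6, 7] [0, 1, 2, 1, 4, 0, 41, 54, 248] 16),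
    (67, .coin 8 7 [(1, 5, 1, 3, 7), (-1, 6, 1, 7, 8), (1, 6, 3, 5, 7)] 1),
    (131, .coin 8 6 [(1, 4, 0, 2, 6), (-1, 6, 4, 2, 7), (-1, 7, 0, 6, 8)] 1)]⟩,
  ⟨[0, 0, 0, 1, 2, 12, 54, 121], 13, [136, 80, 96, 161, 194, 204, 182, 121], [2, 2, 2, 3, 3, 4, 5, 5], [(5, 0, 3, 7), (5, 4, 6, 7), (6, 3, 5, 7), (6, 4, 1, 7), (6, 5, 2, 7), (7, 1, 4, 6), (7, 2, 5, 6), (7, 3, 0, 5), (7, 5, 3, 6), (7, 6, 4, 5)],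
    [(7, .eqd 8 6 1 4 [(-1, 2, 1, 6, 8), (1, 5, 4, 6, 7), (-1, 6, 5, 2, 7)] 1)]⟩,
  ⟨[0, 0, 0, 0, 3, 12, 53, 122], 13, [80, 144, 96, 160, 195, 204, 181, 122], [2, 2, 2, 2, 4, 4, 5, 5], [(5, 4, 6, 7), (6, 1, 4, 7), (6, 3, 5, 7), (6, 4, 0, 7), (6, 5, 2, 7), (7, 0, 4, 6), (7, 2, 5, 6), (7, 4, 1, 6), (7, 5, 3, 6), (7, 6, 4, 5)],
    []⟩,
  ⟨[0, 0, 2, 2, 4, 8, 49, 126], 13, [64, 140, 146, 162, 196, 200, 177, 126], [1, 3, 3, 3, 3, 3, 4, 6], [(3, 2, 1, 7), (4, 1, 2, 7), (5, 1, 3, 7), (5, 4, 6, 7), (6, 2, 4, 7), (6, 3, 5, 7), (7, 1, 2, 3), (7, 2, 1, 4), (7, 3, 1, 5), (7, 4, 2, 6), (7, 5, 3, 6), (7, 6, 4, 5)],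
    []⟩,
  ⟨[0, 0, 2, 2, 4, 9, 49, 126], 14, [96, 140, 146, 162, 196, 201, 177, 126], [2, 3, 3, 3, 3, 4, 4, 6], [(3, 2, 1, 7), (4, 1, 2, 7), (5, 1, 3, 7), (5, 4, 6, 7), (6, 2, 4, 7), (6, 3, 5, 7), (6, 5, 0, 7), (7, 0, 5, 6), (7, 1, 2, 3), (7, 2, 1, 4), (7, 3, 1, 5), (7, 4, 2, 6), (7, 5, 3, 6), (7, 6, 4, 5)],
    [(3, .perm [8, 0, 2, 4, 3, 1, 6, 5, 7] [0, 1, 0, 4, 0, 21, 10, 82, 252] 16),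
    (5, .perm [8, 0, 1, 3, 4, 2, 5, 6, 7] [0, 1, 0, 4, 0, 21, 10, 82, 252] 16),
    (6, .perm [0, 8, 3, 4, 5, 6, 1, 2, 7] [0, 0, 0, 0, 5, 25, 6, 74, 252] 16),
    (7, .perm [0, 8, 3, 4, 5, 6, 1, 2, 7] [0, 1, 0, 0, 5, 25, 6, 74, 252] 17),
    (9, .coin 8 5 [(-1, 3, 0, 5, 8), (1, 3, 2, 1, 7), (1, 4, 1, 2, 7), (-1, 5, 4, 6, 7), (-1, 6, 5, 0, 7)] 1),
    (10, .perm [0, 8, 4, 2, 6, 1, 5, 3, 7] [0, 0, 0, 4, 5, 10, 17, 98, 252] 16),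
    (11, .coin 3 0 [(-1, 3, 0, 5, 8), (1, 3, 1, 7, 8), (-1, 5, 1, 3, 7)] 1),
    (17, .coin 8 6 [(-1, 4, 0, 6, 8), (1, 5, 4, 6, 7), (-1, 6, 5, 0, 7)] 1),
    (20, .perm [0, 8, 3, 1, 5, 2, 6, 4, 7] [0, 0, 0, 4, 5, 10, 17, 98, 252] 16),
    (21, .coin 5 2 [(1, 4, 0, 6, 8), (-1, 4, 2, 7, 8), (1, 6, 5, 0, 7)] 1),
    (24, .coin 8 7 [(1, 3, 2, 1, 7), (1, 4, 1, 2, 7), (-1, 4, 3, 7, 8)] 1),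
    (25, .coin 5 3 [(1, 4, 0, 6, 8), (-1, 4, 3, 7, 8), (1, 6, 5, 0, 7)] 1),
    (33, .perm [8, 0, 2, 1, 4, 3, 6, 5, 7] [0, 1, 0, 4, 4, 8, 18, 99, 252] 16),
    (36, .coin 8 7 [(1, 3, 2, 1, 7), (1, 5, 1, 3, 7), (-1, 5, 2, 7, 8)] 1),
    (37, .coin 5 2 [(1, 5, 0, 6, 8), (-1, 5, 2, 7, 8), (1, 6, 5, 0, 7)] 1),
    (40, .perm [0, 8, 2, 4, 1, 6, 3, 5, 7] [0, 0, 0, 4, 4, 9, 18, 99, 252] 16),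
    (41, .coin 5 3 [(1, 5, 0, 6, 8), (-1, 5, 3, 7, 8), (1, 6, 5, 0, 7)] 1),
    (65, .perm [8, 0, 1, 2, 3, 4, 5, 6, 7] [0, 1, 0, 4, 4, 8, 18, 99, 252] 16),
    (66, .coin 8 7 [(1, 3, 2, 1, 7), (1, 4, 1, 2, 7), (1, 5, 1, 3, 7), (-1, 5, 4, 6, 7), (-1, 6, 1, 7, 8)] 1),
    (67, .coin 3 0 [(-1, 5, 1, 3, 7), (-1, 6, 0, 5, 8), (1, 6, 1, 7, 8)] 1),
    (80, .perm [0, 8, 1, 3, 2, 5, 4, 6, 7] [0, 0, 0, 4, 4, 9, 18, 99, 252] 16),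
    (81, .coin 6 0 [(-1, 5, 4, 6, 7), (-1, 6, 0, 5, 8), (1, 6, 4, 7, 8)] 1)]⟩,
  ⟨[0, 0, 2, 2, 4, 8, 48, 127], 13, [128, 140, 146, 162, 196, 200, 176, 127], [1, 3, 3, 3, 3, 3, 3, 7], [(3, 2, 1, 7), (4, 1, 2, 7), (5, 1, 3, 7), (5, 4, 6, 7), (6, 2, 4, 7), (6, 3, 5, 7), (7, 1, 2, 3), (7, 2, 1, 4), (7, 3, 1, 5), (7, 4, 2, 6), (7, 5, 3, 6), (7, 6, 4, 5)],
    []⟩]

def T9 : List G := [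
  ⟨[0, 1, 0, 4, 0, 3, 52, 120, 31], 16, [290, 289, 328, 388, 448, 195, 180, 120, 31], [3, 3, 3, 3, 3, 4, 4, 4, 5], [(1, 0, 5, 8), (4, 2, 6, 8), (4, 3, 7, 8), (5, 4, 6, 7), (6, 3, 2, 7), (7, 2, 3, 6), (7, 6, 4, 5), (8, 5, 0, 1), (8, 6, 2, 4), (8, 7, 3, 4)],
    []⟩,
  ⟨[0, 1, 1, 0, 0, 11, 22, 56, 220], 16, [38, 97, 321, 416, 448, 139, 278, 312, 220], [3, 3, 3, 3, 3, 4, 4, 4, 5], [(2, 1, 0, 6), (4, 2, 6, 8), (4, 3, 7, 8), (6, 0, 1, 2), (7, 3, 5, 8), (7, 6, 4, 8), (8, 4, 6, 7), (8, 5, 3, 7), (8, 6, 2, 4), (8, 7, 3, 4)],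
    []⟩,
  ⟨[0, 0, 0, 0, 7, 11, 21, 42, 204], 16, [112, 176, 336, 416, 71, 139, 277, 298, 204], [3, 3, 3, 3, 4, 4, 4, 4, 4], [(1, 0, 4, 5), (2, 0, 4, 6), (3, 1, 5, 7), (5, 4, 0, 1), (6, 2, 4, 8), (6, 4, 0, 2), (7, 3, 5, 8), (7, 5, 1, 3), (8, 4, 2, 6), (8, 5, 3, 7)],
    []⟩,
  ⟨[0, 1, 0, 0, 5, 26, 21, 42, 204], 16, [82, 161, 336, 416, 101, 154, 277, 298, 204], [3, 3, 3, 3, 4, 4, 4, 4, 4], [(2, 0, 4, 6), (3, 1, 5, 7), (4, 1, 0, 5), (5, 0, 1, 4), (6, 2, 4, 8), (6, 4, 0, 2), (7, 3, 5, 8), (7, 5, 1, 3), (8, 4, 2, 6), (8, 5, 3, 7)],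
    []⟩,
  ⟨[0, 1, 1, 0, 11, 6, 36, 88, 232], 16, [22, 49, 97, 400, 139, 326, 420, 344, 232], [3, 3, 3, 3, 4, 4, 4, 4, 4], [(2, 1, 0, 5), (5, 0, 1, 2), (6, 3, 7, 8), (6, 5, 2, 8), (7, 3, 4, 8), (7, 5, 6, 8), (8, 2, 5, 6), (8, 4, 3, 7), (8, 6, 5, 7), (8, 7, 3, 6)],
    []⟩,
  ⟨[0, 0, 1, 2, 0, 23, 10, 81, 220], 16, [164, 104, 289, 322, 416, 23, 394, 337, 220], [3, 3, 3, 3, 3, 4, 4, 4, 5], [(4, 0, 5, 7), (4, 2, 5, 8), (6, 3, 1, 8), (6, 4, 7, 8), (7, 2, 0, 8), (7, 3, 6, 8), (7, 5, 0, 4), (8, 0, 2, 7), (8, 1, 3, 6), (8, 5, 2, 4), (8, 6, 3, 7), (8, 7, 4, 6)],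
    []⟩,
  ⟨[0, 1, 1, 0, 0, 26, 42, 84, 157], 16, [262, 97, 385, 352, 416, 90, 170, 340, 157], [3, 3, 3, 3, 3, 4, 4, 4, 5], [(3, 1, 5, 6), (4, 2, 7, 8), (4, 3, 5, 8), (6, 4, 5, 7), (6, 5, 1, 3), (7, 0, 2, 8), (7, 3, 6, 8), (7, 5, 4, 6), (8, 2, 0, 7), (8, 5, 3, 4), (8, 6, 3, 7), (8, 7, 2, 4)],
    []⟩,
  ⟨[0, 1, 0, 0, 7, 25, 6, 76, 232], 16, [50, 81, 208, 416, 39, 281, 390, 332, 232], [3, 3, 3, 3, 4, 4, 4, 4, 4], [(2, 1, 4, 6), (4, 0, 1, 5), (5, 1, 0, 4), (6, 3, 7, 8), (6, 4, 1, 2), (7, 5, 3, 8), (7, 6, 2, 8), (8, 2, 6, 7), (8, 3, 5, 7), (8, 7, 3, 6)],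
    []⟩,
  ⟨[0, 1, 0, 4, 0, 7, 49, 88, 158], 16, [98, 289, 296, 388, 448, 71, 177, 344, 158], [3, 3, 3, 3, 3, 4, 4, 4, 5], [(2, 1, 5, 8), (4, 3, 7, 8), (5, 0, 1, 6), (6, 1, 0, 5), (7, 2, 3, 8), (7, 4, 6, 8), (8, 3, 2, 7), (8, 5, 1, 2), (8, 6, 4, 7), (8, 7, 3, 4)],
    []⟩,
  ⟨[0, 1, 1, 0, 8, 10, 50, 100, 157], 16, [262, 97, 385, 304, 328, 202, 178, 356, 157], [3, 3, 3, 3, 3, 4, 4, 4, 5], [(5, 4, 3, 6), (6, 3, 4, 5), (6, 5, 1, 7), (7, 0, 2, 8), (7, 1, 5, 6), (7, 3, 5, 8), (7, 4, 6, 8), (8, 2, 0, 7), (8, 5, 3, 7), (8, 6, 4, 7)],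
    []⟩,
  ⟨[0, 0, 2, 1, 9, 10, 42, 52, 212], 16, [24, 100, 386, 113, 393, 202, 298, 308, 212], [2, 3, 3, 4, 4, 4, 4, 4, 4], [(3, 1, 5, 6), (4, 2, 7, 8), (5, 2, 1, 7), (5, 4, 3, 7), (6, 2, 1, 8), (6, 4, 3, 8), (6, 5, 1, 3), (7, 1, 2, 5), (7, 3, 4, 5), (7, 6, 5, 8), (8, 1, 2, 6), (8, 3, 4, 6), (8, 5, 6, 7), (8, 7, 2, 4)],
    []⟩,
  ⟨[0, 0, 0, 3, 5, 18, 50, 44, 204], 16, [24, 104, 400, 387, 101, 210, 306, 300, 204], [2, 3, 3, 4, 4, 4, 4, 4, 4], [(3, 2, 7, 8), (4, 1, 5, 6), (5, 2, 4, 7), (5, 3, 1, 7), (6, 2, 4, 8), (6, 3, 1, 8), (6, 5, 1, 4), (7, 1, 3, 5), (7, 4, 2, 5), (7, 6, 5, 8), (8, 1, 3, 6), (8, 4, 2, 6), (8, 5, 6, 7), (8, 7, 2, 3)],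
    []⟩,
  ⟨[0, 0, 2, 0, 9, 10, 42, 52, 213], 16, [272, 100, 386, 112, 393, 202, 298, 308, 213], [2, 3, 3, 3, 4, 4, 4, 4, 5], [(3, 1, 5, 6), (4, 2, 7, 8), (5, 2, 1, 7), (5, 4, 3, 7), (6, 2, 1, 8), (6, 4, 3, 8), (6, 5, 1, 3), (7, 0, 4, 8), (7, 1, 2, 5), (7, 3, 4, 5), (7, 6, 5, 8), (8, 1, 2, 6), (8, 3, 4, 6), (8, 4, 0, 7), (8, 5, 6, 7), (8, 7, 2, 4)],
    []⟩,
  ⟨[0, 0, 2, 0, 8, 10, 52, 43, 213], 16, [384, 164, 322, 176, 328, 202, 308, 299, 213], [2, 3, 3, 3, 3, 4, 4, 5, 5], [(3, 1, 5, 7), (4, 2, 6, 8), (5, 2, 1, 6), (5, 4, 3, 6), (6, 1, 2, 5), (6, 3, 4, 5), (7, 2, 1, 8), (7, 4, 3, 8), (7, 5, 1, 3), (7, 6, 5, 8), (8, 1, 2, 7), (8, 3, 4, 7), (8, 5, 6, 7), (8, 6, 2, 4)],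
    []⟩,
  ⟨[0, 0, 2, 1, 9, 10, 50, 44, 212], 16, [24, 100, 386, 177, 329, 202, 306, 300, 212], [2, 3, 3, 4, 4, 4, 4, 4, 4], [(5, 2, 1, 7), (5, 4, 3, 6), (6, 2, 1, 8), (6, 3, 4, 5), (7, 1, 2, 5), (7, 4, 3, 8), (7, 6, 5, 8), (8, 1, 2, 6), (8, 3, 4, 7), (8, 5, 6, 7)],
    []⟩,
  ⟨[0, 1, 3, 1, 9, 10, 50, 44, 212], 18, [30, 101, 387, 177, 329, 202, 306, 300, 212], [4, 4, 4, 4, 4, 4, 4, 4, 4], [(3, 1, 0, 5), (3, 2, 0, 7), (4, 1, 0, 6), (4, 2, 0, 8), (5, 0, 1, 3), (5, 2, 1, 7), (5, 4, 3, 6), (6, 0, 1, 4), (6, 2, 1, 8), (6, 3, 4, 5), (7, 0, 2, 3), (7, 1, 2, 5), (7, 4, 3, 8), (7, 6, 5, 8), (8, 0, 2, 4), (8, 1, 2, 6), (8, 3, 4, 7), (8, 5, 6, 7)],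
    [(3, .perm [9, 7, 8, 3, 5, 4, 6, 2, 0, 1] [0, 0, 2, 2, 10, 12, 52, 6, 169, 465] 20),
    (5, .perm [9, 5, 6, 3, 7, 4, 8, 1, 0, 2] [0, 0, 2, 2, 10, 12, 52, 6, 169, 465] 20),
    (6, .perm [9, 3, 4, 5, 7, 6, 8, 0, 1, 2] [0, 0, 2, 2, 10, 12, 52, 6, 169, 465] 20),
    (7, .k4 1 0 2 9),
    (9, .perm [9, 6, 8, 1, 5, 2, 7, 4, 0, 3] [0, 0, 2, 2, 10, 12, 52, 6, 169, 465] 20),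
    (17, .perm [9, 5, 7, 1, 6, 2, 8, 3, 0, 4] [0, 0, 2, 2, 10, 12, 52, 6, 169, 465] 20),
    (24, .perm [9, 1, 2, 5, 6, 7, 8, 0, 3, 4] [0, 0, 2, 2, 10, 12, 52, 6, 169, 465] 20),
    (25, .k4 3 0 4 9),
    (34, .perm [9, 4, 8, 0, 3, 2, 7, 6, 1, 5] [0, 0, 2, 2, 10, 12, 52, 6, 169, 465] 20),
    (40, .perm [9, 2, 8, 0, 1, 4, 6, 7, 3, 5] [0, 0, 2, 2, 10, 12, 52, 6, 169, 465] 20),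
    (66, .perm [9, 3, 7, 0, 4, 2, 8, 5, 1, 6] [0, 0, 2, 2, 10, 12, 52, 6, 169, 465] 20),
    (80, .perm [9, 2, 7, 0, 1, 3, 5, 8, 4, 6] [0, 0, 2, 2, 10, 12, 52, 6, 169, 465] 20),
    (96, .perm [9, 0, 2, 3, 4, 7, 8, 1, 5, 6] [0, 0, 2, 2, 10, 12, 52, 6, 169, 465] 20),
    (98, .k4 5 1 6 9),
    (132, .perm [9, 4, 6, 0, 3, 1, 5, 8, 2, 7] [0, 0, 2, 2, 10, 12, 52, 6, 169, 465] 20),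
    (136, .perm [9, 1, 6, 0, 2, 4, 8, 5, 3, 7] [0, 0, 2, 2, 10, 12, 52, 6, 169, 465] 20),
    (160, .perm [9, 0, 4, 1, 2, 6, 8, 3, 5, 7] [0, 0, 2, 2, 10, 12, 52, 6, 169, 465] 20),
    (168, .k4 5 3 7 9),
    (260, .perm [9, 3, 5, 0, 4, 1, 6, 7, 2, 8] [0, 0, 2, 2, 10, 12, 52, 6, 169, 465] 20),
    (272, .perm [9, 1, 5, 0, 2, 3, 7, 6, 4, 8] [0, 0, 2, 2, 10, 12, 52, 6, 169, 465] 20),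
    (320, .perm [9, 0, 3, 1, 2, 5, 7, 4, 6, 8] [0, 0, 2, 2, 10, 12, 52, 6, 169, 465] 20),
    (336, .k4 6 4 8 9),
    (384, .perm [9, 0, 1, 3, 4, 5, 6, 2, 7, 8] [0, 0, 2, 2, 10, 12, 52, 6, 169, 465] 20),
    (388, .k4 7 2 8 9)]⟩,
  ⟨[0, 0, 2, 0, 9, 10, 44, 50, 213], 16, [272, 164, 322, 112, 393, 202, 300, 306, 213], [2, 3, 3, 3, 4, 4, 4, 4, 5], [(5, 2, 1, 6), (5, 4, 3, 7), (6, 1, 2, 5), (6, 4, 3, 8), (7, 0, 4, 8), (7, 2, 1, 8), (7, 3, 4, 5), (7, 6, 5, 8), (8, 1, 2, 7), (8, 3, 4, 6), (8, 4, 0, 7), (8, 5, 6, 7)],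
    []⟩,
  ⟨[0, 0, 0, 4, 2, 6, 42, 53, 217], 16, [384, 112, 168, 324, 386, 198, 298, 309, 217], [2, 3, 3, 3, 3, 4, 4, 5, 5], [(4, 0, 7, 8), (5, 3, 2, 6), (5, 4, 1, 7), (6, 2, 3, 5), (6, 4, 1, 8), (7, 1, 4, 5), (7, 3, 2, 8), (7, 6, 5, 8), (8, 1, 4, 6), (8, 2, 3, 7), (8, 5, 6, 7), (8, 7, 0, 4)],
    []⟩,
  ⟨[0, 1, 0, 0, 3, 21, 26, 44, 204], 16, [50, 81, 416, 448, 99, 149, 282, 300, 204], [3, 3, 3, 3, 4, 4, 4, 4, 4], [(3, 2, 7, 8), (4, 0, 1, 5), (4, 1, 0, 6), (5, 1, 0, 4), (6, 0, 1, 4), (7, 2, 5, 8), (7, 6, 3, 8), (8, 3, 6, 7), (8, 5, 2, 7), (8, 7, 2, 3)],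
    []⟩,
  ⟨[0, 1, 0, 0, 7, 11, 12, 84, 232], 16, [50, 49, 208, 352, 135, 267, 396, 340, 232], [3, 3, 3, 3, 4, 4, 4, 4, 4], [(1, 0, 4, 5), (5, 4, 0, 1), (6, 4, 2, 7), (6, 5, 3, 8), (7, 2, 4, 6), (7, 3, 6, 8), (7, 6, 2, 8), (8, 2, 6, 7), (8, 3, 5, 6), (8, 6, 3, 7)],
    []⟩,
  ⟨[0, 1, 1, 2, 0, 26, 5, 84, 248], 16, [70, 41, 193, 290, 416, 282, 389, 340, 248], [3, 3, 3, 3, 3, 4, 4, 4, 5], [(4, 3, 5, 8), (5, 3, 1, 8), (6, 2, 0, 7), (6, 4, 7, 8), (7, 0, 2, 6), (7, 5, 4, 8), (7, 6, 2, 8), (8, 1, 3, 5), (8, 2, 6, 7), (8, 4, 5, 7), (8, 5, 3, 4), (8, 7, 4, 6)],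
    []⟩,
  ⟨[0, 1, 0, 4, 0, 19, 7, 56, 220], 16, [98, 97, 328, 388, 416, 147, 263, 312, 220], [3, 3, 3, 3, 3, 4, 4, 4, 5], [(1, 0, 5, 6), (4, 3, 7, 8), (6, 3, 2, 8), (6, 5, 0, 1), (7, 2, 3, 8), (7, 4, 5, 8), (8, 2, 3, 6), (8, 3, 2, 7), (8, 5, 4, 7), (8, 7, 3, 4)],
    []⟩,
  ⟨[0, 1, 2, 1, 4, 0, 41, 54, 248], 16, [74, 133, 146, 321, 388, 448, 297, 310, 248], [3, 3, 3, 3, 3, 3, 4, 5, 5], [(4, 1, 2, 7), (5, 3, 6, 8), (5, 4, 7, 8), (6, 3, 0, 8), (7, 2, 1, 4), (7, 4, 2, 8), (7, 6, 5, 8), (8, 0, 3, 6), (8, 2, 4, 7), (8, 5, 6, 7), (8, 6, 3, 5), (8, 7, 4, 5)],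
    []⟩,
  ⟨[0, 0, 0, 3, 1, 14, 26, 52, 212], 16, [24, 104, 416, 99, 449, 142, 282, 308, 212], [2, 3, 3, 4, 4, 4, 4, 4, 4], [(3, 1, 5, 6), (4, 2, 7, 8), (4, 3, 0, 6), (6, 0, 3, 4), (6, 5, 1, 3), (7, 2, 5, 8), (7, 6, 4, 8), (8, 4, 6, 7), (8, 5, 2, 7), (8, 7, 2, 4)],
    []⟩,
  ⟨[0, 0, 0, 0, 5, 22, 42, 74, 157], 16, [272, 224, 304, 448, 293, 86, 170, 330, 157], [2, 3, 3, 3, 4, 4, 4, 4, 5], [(2, 0, 4, 8), (3, 1, 6, 7), (4, 2, 5, 8), (6, 1, 5, 7), (7, 3, 6, 8), (7, 5, 1, 6), (7, 6, 1, 3), (8, 4, 0, 2), (8, 5, 2, 4), (8, 6, 3, 7)],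
    []⟩,
  ⟨[0, 0, 2, 0, 1, 14, 56, 88, 151], 16, [272, 292, 290, 224, 449, 78, 184, 344, 151], [2, 3, 3, 3, 4, 4, 4, 4, 5], [(2, 1, 5, 8), (4, 3, 6, 7), (6, 3, 5, 7), (7, 0, 4, 8), (7, 4, 6, 8), (7, 5, 3, 6), (7, 6, 3, 4), (8, 4, 0, 7), (8, 5, 1, 2), (8, 6, 4, 7)],
    []⟩,
  ⟨[0, 0, 0, 3, 14, 9, 33, 100, 214], 17, [104, 280, 400, 51, 270, 201, 417, 356, 214], [3, 3, 3, 4, 4, 4, 4, 4, 5], [(2, 1, 4, 8), (4, 1, 3, 8), (5, 0, 3, 6), (6, 2, 7, 8), (6, 3, 0, 5), (6, 5, 0, 7), (7, 0, 5, 6), (7, 4, 2, 8), (7, 6, 5, 8), (8, 2, 4, 7), (8, 3, 1, 4), (8, 4, 1, 2), (8, 5, 6, 7), (8, 7, 2, 6)],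
    [(11, .perm [2, 9, 7, 0, 4, 1, 6, 5, 8, 3] [0, 0, 1, 2, 1, 18, 12, 76, 117, 186] 20),
    (13, .coin 9 4 [(1, 2, 1, 4, 8), (-1, 3, 2, 4, 9), (-1, 4, 1, 3, 8)] 1),
    (21, .coin 2 1 [(-1, 2, 1, 4, 8), (-1, 4, 0, 3, 9), (1, 4, 2, 8, 9), (1, 5, 0, 3, 6), (-1, 7, 4, 2, 8), (1, 7, 6, 5, 8)] 1),
    (25, .coin 4 1 [(-1, 2, 1, 4, 8), (-1, 3, 0, 5, 9), (1, 4, 3, 1, 9), (1, 6, 2, 7, 8), (-1, 6, 5, 0, 7)] 2),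
    (28, .coin 4 1 [(-1, 3, 2, 4, 9), (-1, 4, 1, 3, 8), (1, 4, 2, 8, 9)] 1),
    (42, .coin 4 1 [(-1, 2, 1, 4, 8), (-1, 3, 1, 4, 9), (1, 5, 3, 0, 9), (1, 6, 2, 7, 8), (-1, 6, 5, 0, 7)] 2),
    (44, .coin 9 4 [(1, 2, 1, 4, 8), (-1, 3, 2, 4, 9), (-1, 4, 1, 3, 8)] 1),
    (52, .coin 5 2 [(-1, 4, 2, 8, 9), (1, 5, 2, 7, 9), (1, 7, 4, 2, 8)] 1),
    (56, .perm [0, 2, 9, 1, 6, 7, 3, 4, 5, 8] [0, 0, 0, 0, 1, 18, 13, 78, 117, 186] 20),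
    (67, .coin 1 0 [(1, 1, 0, 3, 9), (-1, 5, 0, 3, 6), (-1, 6, 0, 5, 9)] 1),
    (81, .coin 4 0 [(1, 4, 0, 3, 9), (-1, 5, 0, 3, 6), (-1, 6, 0, 5, 9)] 1),
    (138, .coin 3 2 [(1, 3, 1, 4, 9), (-1, 7, 1, 8, 9), (1, 7, 4, 2, 8)] 1),
    (140, .coin 3 2 [(1, 3, 2, 4, 9), (-1, 7, 2, 8, 9), (1, 7, 4, 2, 8)] 1),
    (162, .coin 9 8 [(1, 2, 1, 4, 8), (-1, 7, 1, 8, 9), (1, 7, 4, 2, 8)] 1),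
    (164, .coin 7 5 [(-1, 6, 2, 7, 8), (1, 7, 2, 8, 9), (-1, 7, 5, 6, 9)] 1),
    (168, .coin 5 0 [(-1, 5, 0, 3, 6), (-1, 7, 3, 5, 9), (1, 7, 5, 6, 9)] 1),
    (259, .coin 6 4 [(1, 1, 0, 3, 9), (-1, 4, 1, 3, 8), (-1, 8, 0, 6, 9)] 1),
    (321, .coin 7 6 [(-1, 6, 0, 5, 9), (1, 7, 6, 5, 8), (1, 8, 0, 6, 9)] 1),
    (322, .perm [0, 2, 9, 3, 5, 4, 1, 7, 6, 8] [0, 0, 0, 1, 9, 10, 44, 18, 149, 486] 20)]⟩,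
  ⟨[0, 0, 0, 0, 3, 22, 26, 44, 205], 16, [272, 112, 416, 448, 99, 150, 282, 300, 205], [2, 3, 3, 3, 4, 4, 4, 4, 5], [(3, 2, 7, 8), (4, 1, 5, 6), (6, 0, 4, 8), (6, 5, 1, 4), (7, 2, 5, 8), (7, 6, 3, 8), (8, 3, 6, 7), (8, 4, 0, 6), (8, 5, 2, 7), (8, 7, 2, 3)],
    []⟩,
  ⟨[0, 0, 2, 0, 1, 14, 22, 88, 185], 16, [272, 100, 98, 416, 449, 270, 150, 344, 185], [2, 3, 3, 3, 4, 4, 4, 4, 5], [(2, 1, 5, 6), (4, 3, 7, 8), (6, 5, 1, 2), (7, 0, 4, 8), (7, 4, 6, 8), (7, 5, 3, 8), (8, 3, 5, 7), (8, 4, 0, 7), (8, 6, 4, 7), (8, 7, 3, 4)],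
    []⟩,
  ⟨[0, 0, 2, 0, 0, 14, 56, 23, 217], 16, [384, 164, 162, 352, 448, 78, 312, 279, 217], [2, 3, 3, 3, 3, 4, 4, 5, 5], [(2, 1, 5, 7), (4, 0, 7, 8), (4, 3, 6, 8), (6, 3, 5, 8), (7, 5, 1, 2), (7, 6, 4, 8), (8, 4, 6, 7), (8, 5, 3, 6), (8, 6, 3, 4), (8, 7, 0, 4)],
    []⟩,
  ⟨[0, 0, 0, 0, 3, 21, 26, 45, 206], 17, [176, 336, 416, 448, 99, 149, 282, 301, 206], [3, 3, 3, 3, 4, 4, 4, 5, 5], [(2, 0, 5, 7), (3, 1, 6, 8), (3, 2, 7, 8), (5, 0, 4, 7), (6, 1, 4, 8), (7, 2, 5, 8), (7, 4, 0, 5), (7, 5, 0, 2), (7, 6, 3, 8), (8, 3, 6, 7), (8, 4, 1, 6), (8, 5, 2, 7), (8, 6, 1, 3), (8, 7, 2, 3)],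
    [(19, .coin 5 0 [(-1, 2, 0, 5, 7), (-1, 3, 1, 6, 8), (1, 3, 2, 7, 8), (-1, 4, 0, 5, 9), (1, 4, 1, 6, 9)] 2),
    (22, .coin 2 1 [(1, 2, 1, 8, 9), (-1, 4, 1, 6, 9), (-1, 6, 1, 4, 8)] 1),
    (25, .coin 3 0 [(1, 3, 0, 7, 9), (-1, 4, 0, 5, 9), (-1, 5, 0, 4, 7)] 1),
    (38, .coin 2 1 [(-1, 2, 1, 8, 9), (1, 5, 2, 7, 9), (1, 7, 2, 5, 8)] 1),
    (50, .perm [3, 9, 2, 0, 6, 1, 7, 5, 8, 4] [0, 0, 0, 0, 1, 18, 13, 78, 117, 186] 20),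
    (52, .coin 5 0 [(-1, 4, 2, 5, 9), (-1, 5, 0, 4, 7), (1, 5, 2, 7, 9)] 1),
    (56, .coin 5 3 [(1, 5, 0, 4, 7), (-1, 5, 3, 7, 9), (1, 5, 4, 0, 9)] 1),
    (73, .coin 3 0 [(-1, 3, 0, 7, 9), (1, 6, 3, 8, 9), (-1, 7, 6, 3, 8)] 1),
    (81, .perm [2, 9, 3, 1, 5, 0, 8, 6, 7, 4] [0, 0, 0, 0, 1, 18, 13, 78, 117, 186] 20),
    (84, .coin 5 1 [(-1, 4, 2, 5, 9), (-1, 6, 1, 4, 8), (1, 6, 2, 8, 9)] 1),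
    (88, .coin 6 1 [(-1, 4, 3, 6, 9), (-1, 6, 1, 4, 8), (1, 6, 3, 8, 9)] 1),
    (100, .coin 6 2 [(-1, 5, 2, 7, 9), (1, 6, 2, 8, 9), (-1, 7, 2, 5, 8)] 1),
    (104, .coin 6 2 [(-1, 5, 3, 7, 9), (1, 6, 3, 8, 9), (-1, 7, 2, 5, 8)] 1),
    (112, .coin 5 0 [(-1, 2, 0, 5, 7), (-1, 3, 1, 6, 8), (1, 3, 2, 7, 8), (1, 5, 4, 0, 9), (-1, 6, 4, 1, 9)] 2),
    (131, .coin 1 0 [(1, 1, 0, 4, 9), (-1, 5, 0, 4, 7), (-1, 7, 0, 5, 9)] 1),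
    (137, .perm [1, 9, 2, 4, 6, 0, 5, 3, 8, 7] [0, 0, 0, 1, 9, 10, 44, 18, 149, 486] 20),
    (259, .coin 7 6 [(1, 1, 0, 4, 9), (-1, 6, 1, 4, 8), (-1, 8, 0, 7, 9)] 1),
    (262, .perm [0, 9, 3, 4, 5, 1, 6, 2, 7, 8] [0, 0, 0, 1, 9, 10, 44, 18, 149, 486] 20)]⟩,
  ⟨[0, 0, 0, 0, 3, 21, 26, 44, 206], 16, [48, 336, 416, 448, 99, 149, 282, 300, 206], [2, 3, 3, 3, 4, 4, 4, 4, 5], [(3, 1, 6, 8), (3, 2, 7, 8), (6, 1, 4, 8), (7, 2, 5, 8), (7, 6, 3, 8), (8, 3, 6, 7), (8, 4, 1, 6), (8, 5, 2, 7), (8, 6, 1, 3), (8, 7, 2, 3)],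
    []⟩,
  ⟨[0, 0, 2, 0, 3, 17, 14, 56, 236], 16, [48, 84, 322, 448, 163, 401, 270, 312, 236], [2, 3, 3, 3, 4, 4, 4, 4, 5], [(3, 2, 6, 8), (5, 3, 7, 8), (5, 4, 0, 7), (6, 2, 1, 8), (7, 0, 4, 5), (7, 5, 4, 8), (7, 6, 3, 8), (8, 1, 2, 6), (8, 3, 6, 7), (8, 4, 5, 7), (8, 6, 2, 3), (8, 7, 3, 5)],
    []⟩,
  ⟨[0, 0, 0, 0, 7, 3, 42, 28, 236], 16, [48, 112, 400, 448, 135, 323, 298, 284, 236], [2, 3, 3, 3, 4, 4, 4, 4, 5], [(1, 0, 4, 5), (3, 2, 7, 8), (5, 3, 6, 8), (5, 4, 0, 1), (6, 5, 1, 8), (7, 2, 4, 8), (7, 6, 3, 8), (8, 1, 5, 6), (8, 3, 6, 7), (8, 4, 2, 7), (8, 6, 3, 5), (8, 7, 2, 3)],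
    []⟩,
  ⟨[0, 0, 2, 0, 0, 11, 22, 57, 220], 16, [160, 100, 322, 416, 448, 139, 278, 313, 220], [2, 3, 3, 3, 3, 4, 4, 5, 5], [(3, 0, 5, 7), (4, 2, 6, 8), (4, 3, 7, 8), (6, 2, 1, 8), (7, 3, 5, 8), (7, 5, 0, 3), (7, 6, 4, 8), (8, 1, 2, 6), (8, 4, 6, 7), (8, 5, 3, 7), (8, 6, 2, 4), (8, 7, 3, 4)],
    []⟩,
  ⟨[0, 0, 2, 0, 0, 11, 56, 23, 220], 16, [160, 164, 386, 352, 448, 75, 312, 279, 220], [2, 3, 3, 3, 3, 4, 4, 5, 5], [(1, 0, 5, 7), (4, 2, 7, 8), (4, 3, 6, 8), (6, 3, 5, 8), (7, 2, 1, 8), (7, 5, 0, 1), (7, 6, 4, 8), (8, 1, 2, 7), (8, 4, 6, 7), (8, 5, 3, 6), (8, 6, 3, 4), (8, 7, 2, 4)],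
    []⟩,
  ⟨[0, 0, 2, 2, 4, 1, 42, 53, 248], 16, [160, 76, 146, 322, 388, 449, 298, 309, 248], [2, 3, 3, 3, 3, 4, 4, 5, 5], [(5, 3, 6, 8), (5, 4, 7, 8), (6, 3, 1, 8), (7, 4, 2, 8), (7, 5, 0, 8), (7, 6, 5, 8), (8, 0, 5, 7), (8, 1, 3, 6), (8, 2, 4, 7), (8, 5, 6, 7), (8, 6, 3, 5), (8, 7, 4, 5)],
    []⟩,
  ⟨[0, 1, 0, 0, 5, 25, 6, 74, 252], 17, [50, 193, 336, 416, 293, 281, 390, 330, 252], [3, 3, 3, 3, 4, 4, 4, 4, 6], [(4, 3, 5, 8), (5, 2, 4, 8), (5, 4, 0, 8), (6, 3, 7, 8), (6, 4, 2, 8), (7, 2, 6, 8), (7, 5, 3, 8), (7, 6, 1, 8), (8, 0, 4, 5), (8, 1, 6, 7), (8, 2, 4, 6), (8, 3, 5, 7), (8, 4, 2, 5), (8, 5, 3, 4), (8, 6, 2, 7), (8, 7, 3, 6)],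
    [(7, .coin 9 4 [(-1, 2, 0, 4, 9), (1, 5, 2, 4, 8), (-1, 5, 4, 0, 8)] 1),
    (11, .coin 9 5 [(-1, 3, 0, 5, 9), (1, 4, 3, 5, 8), (-1, 5, 4, 0, 8)] 1),
    (13, .coin 4 0 [(-1, 3, 0, 5, 9), (1, 3, 2, 8, 9), (-1, 5, 2, 4, 8)] 1),
    (14, .coin 6 2 [(1, 3, 1, 7, 9), (-1, 3, 2, 8, 9), (1, 7, 6, 1, 8)] 1),
    (15, .coin 4 0 [(-1, 3, 0, 5, 9), (1, 3, 2, 8, 9), (-1, 5, 2, 4, 8)] 1),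
    (19, .perm [9, 3, 2, 1, 0, 7, 6, 5, 4, 8] [0, 0, 0, 1, 9, 10, 44, 18, 149, 486] 20),
    (21, .coin 4 0 [(-1, 4, 0, 5, 9), (1, 4, 2, 8, 9), (-1, 5, 2, 4, 8)] 1),
    (22, .coin 2 1 [(-1, 2, 1, 6, 9), (1, 4, 2, 8, 9), (-1, 6, 4, 2, 8)] 1),
    (35, .perm [9, 2, 3, 1, 0, 6, 7, 4, 5, 8] [0, 0, 0, 1, 9, 10, 44, 18, 149, 486] 20),
    (41, .coin 5 0 [(-1, 4, 3, 5, 8), (-1, 5, 0, 4, 9), (1, 5, 3, 8, 9)] 1),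
    (42, .coin 6 5 [(1, 3, 1, 7, 9), (-1, 5, 3, 8, 9), (1, 7, 6, 1, 8)] 1),
    (67, .perm [9, 3, 2, 0, 1, 5, 4, 7, 6, 8] [0, 0, 0, 1, 9, 10, 44, 18, 149, 486] 20),
    (69, .coin 2 0 [(-1, 2, 0, 4, 9), (1, 6, 2, 8, 9), (-1, 6, 4, 2, 8)] 1),
    (70, .coin 6 2 [(1, 6, 1, 7, 9), (-1, 6, 2, 8, 9), (1, 7, 6, 1, 8)] 1),
    (97, .coin 2 0 [(-1, 5, 0, 4, 9), (-1, 6, 4, 2, 8), (1, 6, 5, 8, 9)] 1),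
    (98, .coin 6 5 [(1, 6, 1, 7, 9), (-1, 6, 5, 8, 9), (1, 7, 6, 1, 8)] 1),
    (131, .perm [9, 2, 3, 0, 1, 4, 5, 6, 7, 8] [0, 0, 0, 1, 9, 10, 44, 18, 149, 486] 20),
    (137, .coin 7 4 [(-1, 3, 0, 5, 9), (-1, 5, 4, 0, 8), (1, 7, 3, 8, 9)] 1),
    (138, .coin 7 1 [(-1, 6, 3, 7, 8), (-1, 7, 1, 6, 9), (1, 7, 3, 8, 9)] 1),
    (145, .coin 5 1 [(1, 5, 4, 0, 8), (1, 7, 0, 1, 9), (-1, 7, 4, 8, 9)] 1),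
    (146, .coin 2 1 [(-1, 6, 4, 2, 8), (-1, 7, 1, 6, 9), (1, 7, 4, 8, 9)] 1)]⟩,
  ⟨[0, 1, 2, 1, 4, 9, 40, 112, 214], 16, [42, 261, 274, 97, 388, 201, 424, 368, 214], [3, 3, 3, 3, 3, 4, 4, 4, 5], [(4, 1, 2, 8), (5, 3, 0, 6), (6, 0, 3, 5), (6, 4, 7, 8), (6, 5, 3, 7), (7, 2, 4, 8), (7, 3, 5, 6), (7, 6, 5, 8), (8, 2, 1, 4), (8, 4, 2, 7), (8, 5, 6, 7), (8, 7, 4, 6)],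
    []⟩,
  ⟨[0, 0, 0, 3, 13, 10, 20, 98, 228], 16, [24, 168, 336, 51, 77, 394, 404, 354, 228], [2, 3, 3, 4, 4, 4, 4, 4, 4], [(5, 1, 3, 7), (6, 2, 4, 8), (6, 5, 7, 8), (7, 2, 6, 8), (7, 3, 1, 5), (7, 5, 1, 8), (8, 1, 5, 7), (8, 4, 2, 6), (8, 6, 2, 7), (8, 7, 5, 6)],
    []⟩,
  ⟨[0, 0, 2, 3, 9, 6, 36, 88, 240], 16, [24, 44, 98, 147, 393, 326, 420, 344, 240], [2, 3, 3, 4, 4, 4, 4, 4, 4], [(4, 3, 0, 7), (5, 2, 1, 6), (6, 1, 2, 5), (6, 4, 7, 8), (6, 5, 2, 8), (7, 0, 3, 4), (7, 4, 3, 8), (7, 5, 6, 8), (8, 2, 5, 6), (8, 3, 4, 7), (8, 6, 5, 7), (8, 7, 4, 6)],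
    []⟩,
  ⟨[0, 0, 0, 7, 3, 12, 18, 100, 240], 16, [24, 88, 168, 39, 323, 396, 402, 356, 240], [2, 3, 3, 4, 4, 4, 4, 4, 4], [(1, 0, 3, 4), (4, 3, 0, 1), (5, 2, 3, 7), (6, 4, 1, 8), (6, 5, 7, 8), (7, 3, 2, 5), (7, 4, 6, 8), (7, 5, 2, 8), (8, 1, 4, 6), (8, 2, 5, 7), (8, 6, 4, 7), (8, 7, 5, 6)],
    []⟩,
  ⟨[0, 0, 3, 5, 6, 9, 18, 104, 240], 17, [44, 84, 27, 165, 326, 393, 402, 360, 240], [3, 3, 4, 4, 4, 4, 4, 4, 4], [(3, 0, 2, 5), (4, 1, 2, 6), (5, 2, 0, 3), (5, 3, 0, 7), (6, 2, 1, 4), (6, 4, 1, 8), (6, 5, 7, 8), (7, 0, 3, 5), (7, 4, 6, 8), (7, 5, 3, 8), (8, 1, 4, 6), (8, 3, 5, 7), (8, 6, 4, 7), (8, 7, 5, 6)],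
    [(7, .coin 3 0 [(-1, 2, 0, 3, 9), (1, 2, 1, 4, 9), (1, 5, 3, 0, 7), (1, 6, 4, 1, 8), (-1, 6, 5, 7, 8)] 2),
    (14, .perm [0, 9, 5, 1, 8, 6, 7, 4, 3, 2] [0, 0, 1, 2, 4, 24, 52, 56, 71, 395] 20),
    (21, .perm [1, 9, 6, 0, 7, 5, 8, 3, 4, 2] [0, 0, 1, 2, 4, 24, 52, 56, 71, 395] 20),
    (28, .coin 3 0 [(1, 3, 2, 0, 9), (-1, 4, 2, 1, 9), (1, 5, 3, 0, 7), (1, 6, 4, 1, 8), (-1, 6, 5, 7, 8)] 2),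
    (35, .coin 1 0 [(1, 1, 0, 2, 9), (-1, 3, 0, 2, 5), (-1, 5, 0, 3, 9)] 1),
    (49, .coin 4 0 [(-1, 3, 0, 2, 5), (1, 4, 0, 2, 9), (-1, 5, 0, 3, 9)] 1),
    (67, .coin 1 0 [(-1, 1, 0, 2, 9), (1, 4, 1, 2, 6), (1, 6, 1, 4, 9)] 1),
    (74, .coin 3 1 [(1, 3, 1, 2, 9), (-1, 4, 1, 2, 6), (-1, 6, 1, 4, 9)] 1),
    (134, .coin 4 3 [(1, 4, 1, 2, 6), (-1, 7, 1, 6, 9), (1, 7, 2, 3, 9)] 1),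
    (138, .coin 9 6 [(-1, 6, 4, 1, 8), (-1, 7, 1, 6, 9), (1, 7, 4, 6, 8)] 1),
    (140, .coin 3 0 [(-1, 3, 0, 2, 5), (-1, 7, 2, 3, 9), (1, 7, 3, 5, 9)] 1),
    (194, .coin 8 6 [(-1, 6, 1, 4, 9), (1, 7, 1, 6, 9), (-1, 7, 4, 6, 8)] 1),
    (200, .coin 8 7 [(1, 6, 3, 7, 9), (-1, 6, 5, 7, 8), (-1, 7, 3, 5, 9)] 1),
    (261, .coin 7 2 [(-1, 2, 0, 3, 9), (1, 7, 5, 3, 8), (1, 8, 0, 5, 9)] 1),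
    (273, .coin 9 5 [(-1, 5, 3, 0, 7), (-1, 7, 5, 3, 8), (-1, 8, 0, 5, 9)] 1),
    (276, .coin 6 4 [(-1, 4, 2, 1, 9), (1, 6, 4, 1, 8), (1, 8, 2, 4, 9)] 1),
    (289, .coin 7 5 [(-1, 5, 0, 3, 9), (1, 7, 5, 3, 8), (1, 8, 0, 5, 9)] 1),
    (304, .coin 8 7 [(-1, 5, 4, 8, 9), (1, 6, 5, 7, 8), (1, 8, 4, 6, 9)] 1)]⟩,
  ⟨[0, 0, 2, 3, 5, 10, 20, 104, 240], 16, [24, 44, 82, 163, 325, 394, 404, 360, 240], [2, 3, 3, 4, 4, 4, 4, 4, 4], [(5, 3, 1, 7), (6, 4, 2, 8), (6, 5, 7, 8), (7, 1, 3, 5), (7, 4, 6, 8), (7, 5, 3, 8), (8, 2, 4, 6), (8, 3, 5, 7), (8, 6, 4, 7), (8, 7, 5, 6)],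
    []⟩,
  ⟨[0, 0, 2, 0, 11, 6, 36, 104, 217], 16, [272, 52, 98, 400, 267, 198, 420, 360, 217], [2, 3, 3, 3, 4, 4, 4, 4, 5], [(3, 0, 4, 8), (5, 2, 1, 6), (6, 1, 2, 5), (6, 3, 7, 8), (6, 5, 2, 7), (7, 2, 5, 6), (7, 4, 3, 8), (7, 6, 5, 8), (8, 3, 4, 7), (8, 4, 0, 3), (8, 5, 6, 7), (8, 7, 3, 6)],
    []⟩,
  ⟨[0, 0, 2, 0, 11, 24, 36, 104, 199], 16, [272, 276, 322, 176, 43, 216, 420, 360, 199], [2, 3, 3, 3, 4, 4, 4, 4, 5], [(1, 0, 4, 8), (5, 3, 4, 7), (6, 1, 2, 8), (6, 3, 5, 7), (7, 2, 6, 8), (7, 4, 3, 5), (7, 5, 3, 6), (7, 6, 5, 8), (8, 2, 1, 6), (8, 4, 0, 1), (8, 5, 6, 7), (8, 6, 2, 7)],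
    []⟩,
  ⟨[0, 0, 2, 2, 5, 10, 20, 104, 241], 16, [272, 44, 82, 162, 325, 394, 404, 360, 241], [2, 3, 3, 3, 4, 4, 4, 4, 5], [(5, 3, 1, 7), (6, 0, 4, 8), (6, 4, 2, 8), (6, 5, 7, 8), (7, 1, 3, 5), (7, 4, 6, 8), (7, 5, 3, 8), (8, 2, 4, 6), (8, 3, 5, 7), (8, 4, 0, 6), (8, 6, 4, 7), (8, 7, 5, 6)],
    []⟩,
  ⟨[0, 0, 2, 2, 4, 10, 48, 85, 233], 16, [384, 44, 146, 290, 196, 330, 432, 341, 233], [2, 3, 3, 3, 3, 4, 4, 5, 5], [(5, 3, 1, 8), (6, 0, 7, 8), (6, 2, 4, 7), (6, 3, 5, 8), (7, 4, 2, 6), (7, 5, 6, 8), (7, 6, 4, 8), (8, 1, 3, 5), (8, 4, 6, 7), (8, 5, 3, 6), (8, 6, 5, 7), (8, 7, 0, 6)],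
    []⟩,
  ⟨[0, 1, 1, 2, 5, 10, 20, 104, 240], 16, [22, 41, 81, 162, 325, 394, 404, 360, 240], [3, 3, 3, 3, 4, 4, 4, 4, 4], [(4, 2, 0, 6), (5, 3, 1, 7), (6, 0, 2, 4), (6, 4, 2, 8), (6, 5, 7, 8), (7, 1, 3, 5), (7, 4, 6, 8), (7, 5, 3, 8), (8, 2, 4, 6), (8, 3, 5, 7), (8, 6, 4, 7), (8, 7, 5, 6)],
    [(15, .coin 1 0 [(-2, 2, 0, 4, 9), (3, 2, 1, 0, 9), (-2, 3, 0, 1, 9), (1, 3, 1, 5, 9), (-2, 4, 2, 0, 6), (1, 5, 3, 1, 7), (-1, 6, 4, 2, 8), (1, 7, 4, 6, 8)] 5)]⟩,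
  ⟨[0, 1, 0, 4, 0, 21, 10, 82, 252], 16, [34, 193, 296, 324, 416, 277, 394, 338, 252], [2, 3, 3, 3, 3, 4, 4, 4, 6], [(4, 2, 5, 8), (5, 3, 2, 8), (6, 2, 3, 8), (6, 4, 7, 8), (7, 3, 6, 8), (7, 5, 4, 8), (7, 6, 1, 8), (8, 1, 6, 7), (8, 2, 3, 5), (8, 3, 2, 6), (8, 4, 5, 7), (8, 5, 2, 4), (8, 6, 3, 7), (8, 7, 4, 6)],
    []⟩,
  ⟨[0, 0, 0, 0, 5, 25, 6, 74, 252], 16, [48, 192, 336, 416, 293, 281, 390, 330, 252], [2, 2, 3, 3, 4, 4, 4, 4, 6], [(4, 3, 5, 8), (5, 2, 4, 8), (5, 4, 0, 8), (6, 3, 7, 8), (6, 4, 2, 8), (7, 2, 6, 8), (7, 5, 3, 8), (7, 6, 1, 8), (8, 0, 4, 5), (8, 1, 6, 7), (8, 2, 4, 6), (8, 3, 5, 7), (8, 4, 2, 5), (8, 5, 3, 4), (8, 6, 2, 7), (8, 7, 3, 6)],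
    []⟩,
  ⟨[0, 0, 0, 4, 5, 10, 17, 98, 252], 16, [80, 160, 280, 292, 325, 394, 401, 354, 252], [2, 2, 3, 3, 4, 4, 4, 4, 6], [(4, 3, 2, 8), (5, 2, 3, 8), (6, 2, 4, 8), (6, 4, 0, 8), (6, 5, 7, 8), (7, 3, 5, 8), (7, 4, 6, 8), (7, 5, 1, 8), (8, 0, 4, 6), (8, 1, 5, 7), (8, 2, 3, 4), (8, 3, 2, 5), (8, 4, 2, 6), (8, 5, 3, 7), (8, 6, 4, 7), (8, 7, 5, 6)],
    []⟩,
  ⟨[0, 1, 0, 4, 4, 8, 18, 99, 252], 16, [130, 193, 280, 292, 324, 392, 402, 355, 252], [2, 3, 3, 3, 3, 3, 4, 5, 6], [(4, 3, 2, 8), (5, 2, 3, 8), (6, 0, 1, 7), (6, 2, 4, 8), (6, 5, 7, 8), (7, 1, 0, 6), (7, 3, 5, 8), (7, 4, 6, 8), (7, 6, 1, 8), (8, 1, 6, 7), (8, 2, 3, 4), (8, 3, 2, 5), (8, 4, 2, 6), (8, 5, 3, 7), (8, 6, 4, 7), (8, 7, 5, 6)],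
    []⟩,
  ⟨[0, 0, 0, 4, 4, 9, 18, 99, 252], 16, [160, 192, 280, 292, 324, 393, 402, 355, 252], [2, 2, 3, 3, 3, 4, 4, 5, 6], [(4, 3, 2, 8), (5, 2, 3, 8), (6, 2, 4, 8), (6, 5, 7, 8), (7, 3, 5, 8), (7, 4, 6, 8), (7, 5, 0, 8), (7, 6, 1, 8), (8, 0, 5, 7), (8, 1, 6, 7), (8, 2, 3, 4), (8, 3, 2, 5), (8, 4, 2, 6), (8, 5, 3, 7), (8, 6, 4, 7), (8, 7, 5, 6)],
    []⟩]

def T10 : List G := [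
  ⟨[0, 0, 2, 2, 10, 12, 52, 6, 169, 465], 20, [768, 156, 226, 306, 586, 332, 564, 774, 681, 465], [2, 4, 4, 4, 4, 4, 4, 4, 5, 5], [(3, 2, 1, 5), (4, 2, 1, 6), (5, 1, 2, 3), (5, 4, 3, 6), (6, 1, 2, 4), (6, 3, 4, 5), (7, 0, 8, 9), (7, 3, 1, 8), (7, 4, 1, 9), (7, 5, 2, 8), (7, 6, 2, 9), (8, 1, 3, 7), (8, 2, 5, 7), (8, 4, 3, 9), (8, 6, 5, 9), (9, 1, 4, 7), (9, 2, 6, 7), (9, 3, 4, 8), (9, 5, 6, 8), (9, 8, 0, 7)],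
    []⟩,
  ⟨[0, 0, 1, 2, 1, 18, 12, 76, 117, 186], 20, [276, 552, 449, 706, 801, 786, 396, 588, 117, 186], [3, 3, 4, 4, 4, 4, 4, 4, 5, 5], [(3, 2, 6, 7), (4, 1, 5, 9), (4, 2, 0, 8), (5, 0, 4, 8), (5, 3, 1, 9), (5, 4, 8, 9), (6, 0, 2, 8), (6, 2, 7, 8), (7, 1, 3, 9), (7, 3, 6, 9), (7, 6, 2, 3), (8, 0, 2, 4), (8, 2, 0, 6), (8, 4, 0, 5), (8, 7, 2, 6), (9, 1, 3, 5), (9, 3, 1, 7), (9, 5, 1, 4), (9, 6, 3, 7), (9, 8, 4, 5)],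
    []⟩,
  ⟨[0, 0, 0, 0, 1, 18, 13, 78, 117, 186], 20, [336, 672, 448, 704, 801, 786, 397, 590, 117, 186], [3, 3, 3, 3, 4, 4, 5, 5, 5, 5], [(2, 0, 6, 8), (3, 1, 7, 9), (3, 2, 6, 7), (4, 1, 5, 9), (5, 0, 4, 8), (5, 4, 8, 9), (6, 2, 7, 8), (6, 4, 0, 8), (7, 3, 6, 9), (7, 5, 1, 9), (7, 6, 2, 3), (8, 0, 4, 6), (8, 4, 0, 5), (8, 6, 0, 2), (8, 7, 2, 6), (9, 1, 5, 7), (9, 5, 1, 4), (9, 6, 3, 7), (9, 7, 1, 3), (9, 8, 4, 5)],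
    []⟩,
  ⟨[0, 0, 0, 1, 9, 10, 44, 18, 149, 486], 20, [280, 672, 832, 113, 393, 586, 556, 786, 661, 486], [3, 3, 3, 4, 4, 4, 4, 4, 5, 6], [(4, 0, 3, 8), (5, 2, 6, 9), (6, 1, 5, 9), (6, 5, 3, 9), (7, 0, 4, 8), (7, 2, 8, 9), (7, 5, 1, 9), (8, 1, 7, 9), (8, 3, 0, 4), (8, 4, 0, 7), (8, 6, 2, 9), (8, 7, 4, 9), (9, 1, 5, 7), (9, 2, 6, 8), (9, 3, 5, 6), (9, 4, 7, 8), (9, 5, 1, 6), (9, 6, 2, 5), (9, 7, 1, 8), (9, 8, 2, 7)],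
    [(15, .coin 2 0 [(1, 2, 0, 8, 10), (-1, 3, 0, 4, 10), (-1, 4, 0, 3, 8)] 1)]⟩,
  ⟨[0, 0, 1, 2, 4, 24, 52, 56, 71, 395], 20, [772, 776, 337, 674, 228, 216, 308, 568, 583, 395], [3, 3, 4, 4, 4, 4, 4, 4, 5, 5], [(1, 0, 8, 9), (4, 3, 5, 7), (5, 2, 4, 6), (5, 4, 6, 7), (6, 0, 2, 8), (6, 2, 4, 8), (6, 4, 2, 5), (7, 1, 3, 9), (7, 3, 5, 9), (7, 5, 3, 4), (7, 6, 4, 5), (8, 0, 2, 9), (8, 2, 0, 6), (8, 3, 1, 9), (8, 4, 2, 6), (9, 1, 3, 8), (9, 2, 0, 8), (9, 3, 1, 7), (9, 5, 3, 7), (9, 8, 0, 1)],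
    []⟩]

theorem okT1 : T1.all (okG 1 1 L2) = true := by decide +kernel

theorem lT1 : ∀ g ∈ L1, ∃ t ∈ T1, t.c = g.1 ∧ t.e = g.2 := by decide +kernel

theorem okT2 : T2.all (okG 2 2 L3) = true := by decide +kernel

theorem lT2 : ∀ g ∈ L2, ∃ t ∈ T2, t.c = g.1 ∧ t.e = g.2 := by decide +kernel

theorem okT3 : T3.all (okG 3 4 L4) = true := by decide +kernel

theorem lT3 : ∀ g ∈ L3, ∃ t ∈ T3, t.c = g.1 ∧ t.e = g.2 := by decide +kernel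

theorem okT4 : T4.all (okG 4 6 L5) = true := by decide +kernel

theorem lT4 : ∀ g ∈ L4, ∃ t ∈ T4, t.c = g.1 ∧ t.e = g.2 := by decide +kernel

theorem okT5 : T5.all (okG 5 8 L6) = true := by decide +kernel

theorem lT5 : ∀ g ∈ L5, ∃ t ∈ T5, t.c = g.1 ∧ t.e = g.2 := by decide +kernel

theorem okT6 : T6.all (okG 6 10 L7) = true := by decide +kernel

theorem lT6 : ∀ g ∈ L6, ∃ t ∈ T6, t.c = g.1 ∧ t.e = g.2 := by decide +kernel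

theorem okT7 : T7.all (okG 7 13 L8) = true := by decide +kernel

theorem lT7 : ∀ g ∈ L7, ∃ t ∈ T7, t.c = g.1 ∧ t.e = g.2 := by decide +kernel

theorem okT8 : T8.all (okG 8 16 L9) = true := by decide +kernel

theorem lT8 : ∀ g ∈ L8, ∃ t ∈ T8, t.c = g.1 ∧ t.e = g.2 := by decide +kernel

theorem okT9 : T9.all (okG 9 20 L10) = true := by decide +kernel

theorem lT9 : ∀ g ∈ L9, ∃ t ∈ T9, t.c = g.1 ∧ t.e = g.2 := by decide +kernel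

theorem okT10 : T10.all (okG 10 24 L11) = true := by decide +kernel

theorem lT10 : ∀ g ∈ L10, ∃ t ∈ T10, t.c = g.1 ∧ t.e = g.2 := by decide +kernel

theorem H_1 : H 1 0 L1 := H1

theorem H_2 : H 2 1 L2 :=
  step T1 lT1 (List.all_eq_true.mp okT1) (by intro E d h1 h2; omega) H_1

theorem H_3 : H 3 2 L3 :=
  step T2 lT2 (List.all_eq_true.mp okT2) (by intro E d h1 h2; omega) H_2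

theorem H_4 : H 4 4 L4 :=
  step T3 lT3 (List.all_eq_true.mp okT3) (by intro E d h1 h2; omega) H_3

theorem H_5 : H 5 6 L5 :=
  step T4 lT4 (List.all_eq_true.mp okT4) (by intro E d h1 h2; omega) H_4

theorem H_6 : H 6 8 L6 :=
  step T5 lT5 (List.all_eq_true.mp okT5) (by intro E d h1 h2; omega) H_5

theorem H_7 : H 7 10 L7 :=
  step T6 lT6 (List.all_eq_true.mp okT6) (by intro E d h1 h2; omega) H_6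

theorem H_8 : H 8 13 L8 :=
  step T7 lT7 (List.all_eq_true.mp okT7) (by intro E d h1 h2; omega) H_7

theorem H_9 : H 9 16 L9 :=
  step T8 lT8 (List.all_eq_true.mp okT8) (by intro E d h1 h2; omega) H_8

theorem H_10 : H 10 20 L10 :=
  step T9 lT9 (List.all_eq_true.mp okT9) (by intro E d h1 h2; omega) H_9

theorem H_11 : H 11 24 L11 :=
  step T10 lT10 (List.all_eq_true.mp okT10) (by intro E d h1 h2; omega) H_10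

end Pool.Agent.Lib.MP8b87c2
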